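import Pool.Agent.Lib.GH.Blue
import Pool.Agent.Lib.HS32.MAll
import Pool.Agent.Lib.HS76.Diag

/-! Project gh32: the component of the torsion orthogonal to the image. -/

open scoped Classical Topology ContDiff ComplexOrder Matrix Manifold
open Set MeasureTheory Complex Metric Filter

noncomputable section

namespace Pool.Agent.Lib.GH

open Pool.Agent.Lib.SV (E Pluri)
open Pool.Agent.Lib.HS32

namespace G48

variable {n : ℕ}

theorem nq_pos {A : Mat n} (h : A.PosSemidef) (v : E n) : 0 ≤ nq A v :=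
  (Complex.nonneg_iff.1 (h.dotProduct_mulVec_nonneg v)).1

theorem nq_sub {A : Mat n} (h : A.PosSemidef) (v w : E n) :
    nq A (v - w) ≤ 2 * nq A v + 2 * nq A w := by
  have h1 := nq_pos h (v + w)
  have h2 : nq A (v - w) + nq A (v + w) = 2 * nq A v + 2 * nq A w := by
    simp only [nq, star_sub, star_add, Matrix.mulVec_sub, Matrix.mulVec_add, sub_dotProduct,
      add_dotProduct, dotProduct_sub, dotProduct_add, sub_re, add_re]
    ring
  linarith

theorem nq_le_tr {A B : Mat n} (hA : A.PosDef) (hB : B.PosSemidef) (v : E n) :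
    nq B v ≤ (A⁻¹ * B).trace.re * nq A v := by
  have h1 := nq_pos (HS76.le_tr_smul hA hB le_rfl) v
  simp only [nq, Matrix.sub_mulVec, Matrix.smul_mulVec, dotProduct_sub, dotProduct_smul, sub_re,
    smul_eq_mul, re_ofReal_mul] at h1 ⊢
  linarith

theorem nq_zero {A : Mat n} (h : A.PosDef) {v : E n} (hv : nq A v ≤ 0) : v = 0 := by
  by_contra h0
  have h1 := (Complex.pos_iff.1 (h.dotProduct_mulVec_pos h0)).1
  exact absurd hv (not_le.2 h1)

theorem cont_nq {X : Type} [TopologicalSpace X] {A : X → Mat n} {v : X → E n} {x : X}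
    (hA : ContinuousAt A x) (hv : ContinuousAt v x) : ContinuousAt (fun y => nq (A y) (v y)) x := by
  have h : Continuous fun p : Mat n × E n => nq p.1 p.2 := by
    unfold nq
    fun_prop
  exact h.continuousAt.comp (f := fun y => (A y, v y)) (hA.prodMk hv)

theorem cont_tors {h : E n → Mat n} {z : E n} (hs : SmM h z) (h0 : (h z).det ≠ 0) (A : Mat n)
    (a b : E n) : ContinuousAt
      (fun p : E n × Mat n => (1 - p.2) *ᵥ tors h p.1 (p.2 *ᵥ a) b) (z, A) := by
  have h1 : Continuous fun p : (Fin n → Mat n) × Mat n => (1 - p.2) *ᵥ asy p.1 (p.2 *ᵥ a) b := by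
    unfold asy
    fun_prop
  have h2 : ContinuousAt (fun p : E n × Mat n => fun k => gam h k p.1) (z, A) :=
    continuousAt_pi.2 fun k =>
      ContinuousAt.comp (f := Prod.fst) (x := (z, A)) (hs.gam h0 k).continuousAt continuousAt_fst
  exact h1.continuousAt.comp (f := fun p : E n × Mat n => (fun k => gam h k p.1, p.2))
    (h2.prodMk continuousAt_snd)

theorem pt (hA2 : St_GA2) {G h : Mat n} {s y y' r : ℝ} {D : Fin n → Mat n} (hG : G.PosDef)
    (hh : h.PosDef) (hs : 0 < s) (hy : (egr G h s D).re ≤ y) (hy' : (egr G h 1 D).re ≤ y')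
    (hr : r = (wmat G h s - wmat G h s * wmat G h s).trace.re) (r0 : 0 ≤ r) (r1 : r ≤ n)
    (a b : E n) :
    nq h ((1 - wmat G h s) *ᵥ -asy D (wmat G h s *ᵥ a) b) / ((1 + nq h a) * (1 + nq h b)) ≤
      (y * (h⁻¹ * G).trace.re + y * (h⁻¹ * G).trace.re) +
      ((n * s + r * n) * ((1 + (h⁻¹ * G).trace.re) * y') +
        (n * s + r * n) * ((1 + (h⁻¹ * G).trace.re) * y')) := by
  obtain ⟨a0, a1, a2⟩ := hA2 n G h s D hG hh hs
  have b0 := (hA2 n G h 1 D hG hh one_pos).1
  have a1 := a1 a b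
  have a2 := a2 a b
  rw [← hr] at a2
  have ha := nq_pos hh.posSemidef a
  have hb := nq_pos hh.posSemidef b
  have ht := Mf.trace_inv_mul_nonneg hh hG.posSemidef
  have hg := nq_le_tr hh hG.posSemidef b
  have hg0 := nq_pos hG.posSemidef b
  have e1 : (1 - wmat G h s) *ᵥ -asy D (wmat G h s *ᵥ a) b =
      ((1 - wmat G h s) * (∑ k, b k • D k) * wmat G h s) *ᵥ a -
        ((1 - wmat G h s) * ∑ k, (wmat G h s *ᵥ a) k • D k) *ᵥ b := by
    simp only [asy, neg_sub, Matrix.mulVec_sub, Matrix.mulVec_mulVec, Matrix.mul_assoc]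
  have e2 := nq_sub hh.posSemidef (((1 - wmat G h s) * (∑ k, b k • D k) * wmat G h s) *ᵥ a)
    (((1 - wmat G h s) * ∑ k, (wmat G h s *ᵥ a) k • D k) *ᵥ b)
  rw [e1, div_le_iff₀ (by positivity)]
  generalize (h⁻¹ * G).trace.re = t at *
  generalize nq h a = α at *
  generalize nq h b = β at *
  generalize (egr G h s D).re = p at *
  generalize (egr G h 1 D).re = q at *
  have y0 : 0 ≤ y := a0.trans hy
  have y1 : 0 ≤ y' := b0.trans hy'
  have c0 : α * β ≤ (1 + α) * (1 + β) := by nlinarith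
  have c1 : nq G b * p * α ≤ y * t * ((1 + α) * (1 + β)) :=
    calc nq G b * p * α ≤ t * β * y * α := by gcongr
      _ = y * t * (α * β) := by ring
      _ ≤ _ := by gcongr
  have c2 : (n * s + r ^ 2) * (1 + t) * q * α * β ≤
      (n * s + r * n) * ((1 + t) * y') * ((1 + α) * (1 + β)) :=
    calc (n * s + r ^ 2) * (1 + t) * q * α * β
        = (n * s + r * r) * ((1 + t) * q) * (α * β) := by ring
      _ ≤ _ := by gcongr
  linarith

end G48

open G48 in
theorem st_GT2 (hA2 : St_GA2) (hSE : St_GSE) (hSUM : St_GSUM) (hME : St_GME) (hNT : St_GNT)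
    (hLIM : St_GLIM) : St_GT2 := by
  intro n M _ H h P k ε s u l _ hn hH hh hg hs hl hP hL e he z hz a b
  obtain ⟨n1, n2, t1, t2⟩ := hNT n M H h k ε s u hn hH hh hg hs
  have hfin : IsFiniteMeasure (M.mu H) := (mMU n M H hH.toMet).2.1
  have kG := fun j => (hs.sol j).kae
  have S := fun j => hSUM n M _ h (s j) (kG j) hh hg (hs.pos j)
  have S1 := fun j => hSUM n M _ h 1 (kG j) hh hg one_pos
  have t0 := fun j x => hh.tr_nonneg (kG j).toMet.nonneg x
  have y0 := fun j x => ((S j).2.2.2.2.2.2.2.1 x).1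
  have y1 := fun j x => ((S1 j).2.2.2.2.2.2.2.1 x).1
  have r0 := fun j x => ((S j).2.2.2.2.2.2.2.1 x).2.2.2.1
  have r1 := fun j x => ((S j).2.2.2.2.2.2.2.1 x).2.2.2.2.1
  have ME := hME M.X (M.mu H)
  have c0 : (0 : ℝ) ≤ n := Nat.cast_nonneg n
  have m1 := ((ME _ _).2.2.2.2.1 y0 t0).1 n1 t1
  have m2 : Nl (M.mu H) fun j _ => n * s j :=
    (ME (fun _ _ => 0) fun _ _ => 0).2.2.2.2.2.1 _ (by simpa using hs.s0.const_mul (n : ℝ))
  have m3 : ∀ c : ℝ, Tg (M.mu H) fun _ _ => c := (ME (fun _ _ => 0) fun _ _ => 0).2.2.2.2.2.2.1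
  have m4 := ((ME _ _).2.2.2.2.1 r0 fun _ _ => c0).1 n2 (m3 n)
  have m5 := (ME _ _).2.2.1 m2 m4
  have m6 := (ME _ _).2.2.2.1 (m3 1) t1
  have m7 := ((ME _ _).2.2.2.2.1 (fun j x => add_nonneg zero_le_one (t0 j x)) y1).2 m6 t2
  have m8 := ((ME _ _).2.2.2.2.1
    (fun j x => add_nonneg (mul_nonneg c0 (hs.pos j).le) (mul_nonneg (r0 j x) c0))
    (fun j x => mul_nonneg (add_nonneg zero_le_one (t0 j x)) (y1 j x))).1 m5 m7
  have m9 := (ME _ _).2.2.1 ((ME _ _).2.2.1 m1 m1) ((ME _ _).2.2.1 m8 m8)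
  have key := hLIM n M H h P (M.wsq H h ε s u) l _ hH.toMet hh hl (fun j => (S j).2.1) hP.en hL m9
    e he (fun p => nq (h e p.1) ((1 - p.2) *ᵥ tors (h e) p.1 (p.2 *ᵥ a) b) /
      ((1 + nq (h e p.1) a) * (1 + nq (h e p.1) b))) ?_ ?_ z hz
  · have ha := nq_pos (hh.pos e he z hz).posSemidef a
    have hb := nq_pos (hh.pos e he z hz).posSemidef b
    rw [div_le_iff₀ (by positivity), zero_mul] at key
    exact nq_zero (hh.pos e he z hz) key
  · rintro ⟨w, A⟩ ⟨hw, -⟩
    have hc : ContinuousAt (fun p : E n × Mat n => h e p.1) (w, A) :=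
      ContinuousAt.comp (f := Prod.fst) (x := (w, A)) (hh.sm e he w hw).continuousAt
        continuousAt_fst
    have ha := nq_pos (hh.pos e he w hw).posSemidef a
    have hb := nq_pos (hh.pos e he w hw).posSemidef b
    refine ContinuousAt.continuousWithinAt (ContinuousAt.div
      (cont_nq hc (cont_tors (hh.sm e he w hw) (hh.det_ne e he w hw) A a b))
      ((continuousAt_const.add (cont_nq hc continuousAt_const)).mul
        (continuousAt_const.add (cont_nq hc continuousAt_const))) ?_)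
    positivity
  · intro j w hw
    have q1 := (hSE n _ _ 1 w one_pos ((kG j).sm e he w hw) (hh.sm e he w hw)
      ((((kG j).pos.ev he hw).and ((hh.pos.ev he hw).and ((kG j).cl.ev he hw))))).2.2.2
    have q2 := (S j).2.2.2.2.2.2.2.2 e he w hw
    have q3 := (S1 j).2.2.2.2.2.2.2.2 e he w hw
    have q4 := ((mINV n M h hh).1 _ (kG j).toTen).1 e he w hw
    simp only [q1, q4]
    exact pt hA2 ((kG j).pos e he w hw) (hh.pos e he w hw) (hs.pos j) q2.2.2.2.2 q3.2.2.2.2
      q2.2.1 (r0 j _) (r1 j _) a b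

end Pool.Agent.Lib.GH
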