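import Pool.Agent.Lib.GH.Blue
import Pool.Agent.Lib.HS32.MAll

/-! Project gh32: a null continuous expression vanishes in the limit. -/

open scoped Classical Topology ContDiff ComplexOrder Matrix
open Set MeasureTheory Complex Metric Filter

noncomputable section

namespace Pool.Agent.Lib.GH

open Pool.Agent.Lib.SV (E)
open Pool.Agent.Lib.HS32

namespace G47

variable {n : ℕ}

theorem psi_near {Ψ : E n × Mat n → ℝ} {P : E n → Mat n} {z : E n}
    (h : ContinuousAt Ψ (z, P z)) (hP : ContinuousAt P z) {c : ℝ} (hc : c < Ψ (z, P z)) :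
    ∃ δ > 0, ∀ w X, dist w z < δ → (∑ i, ∑ j, ‖(X - P w) i j‖) < δ → c < Ψ (w, X) := by
  have c1 : ContinuousAt (fun p : E n × (Fin n → Fin n → ℂ) => P p.1 + Matrix.of p.2) (z, 0) :=
    (hP.comp_of_eq continuousAt_fst rfl).add continuousAt_snd
  have e0 : P z + Matrix.of (0 : Fin n → Fin n → ℂ) = P z := add_zero _
  have c3 : ContinuousAt (fun p : E n × (Fin n → Fin n → ℂ) =>
      Ψ (p.1, P p.1 + Matrix.of p.2)) (z, 0) :=
    h.comp_of_eq (continuousAt_fst.prodMk c1) (by simp only [e0])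
  obtain ⟨δ, hδ, hh⟩ := Metric.eventually_nhds_iff.1
    (c3.eventually (lt_mem_nhds (by simpa only [e0] using hc)))
  refine ⟨δ, hδ, fun w X hw hX => ?_⟩
  have := @hh (w, fun i j => (X - P w) i j) (by
    rw [Prod.dist_eq, max_lt_iff, dist_zero_right, pi_norm_lt_iff hδ]
    refine ⟨hw, fun i => (pi_norm_lt_iff hδ).2 fun j => lt_of_le_of_lt ?_ hX⟩
    refine le_trans ?_ (Finset.single_le_sum (f := fun i => ∑ j, ‖(X - P w) i j‖)
      (fun _ _ => by positivity) (Finset.mem_univ i))
    exact Finset.single_le_sum (f := fun j => ‖(X - P w) i j‖) (fun _ _ => by positivity)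
      (Finset.mem_univ j))
  have e1 : P w + Matrix.of (fun i j => (X - P w) i j) = X := by
    ext i j
    simp
  simpa only [e1] using this

theorem mu_le (M : Mf n) [M.Cpt] {H h : M.Fam (Mat n)} (hH : M.Met H) (hh : M.Met h) :
    ∃ C : ℝ, 0 < C ∧ ∀ S : Set M.X, (M.mu h).real S ≤ C * (M.mu H).real S := by
  obtain ⟨-, hfin, -, -, -, -, hd⟩ := mMU n M H hH
  obtain ⟨C, hC, hb⟩ := ((mINV n M H hH).1 h hh.toTen).2.2.2.1.exists_bound
  refine ⟨C, hC, fun S => ?_⟩
  have h1 : M.mu h ≤ ENNReal.ofReal C • M.mu H := by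
    rw [(hd h hh).1, ← withDensity_const]
    exact withDensity_mono (ae_of_all _ fun x =>
      ENNReal.ofReal_le_ofReal ((le_abs_self _).trans (hb x)))
  have h2 := ENNReal.toReal_mono (ENNReal.mul_ne_top ENNReal.ofReal_ne_top (measure_ne_top _ _))
    ((h1 S).trans_eq (Measure.smul_apply _ _ _))
  rwa [ENNReal.toReal_mul, ENNReal.toReal_ofReal hC.le] at h2

end G47

open G47

theorem st_GLIM : St_GLIM := by
  intro n M _ H h P A l _ b hH hh hl hA hP hL hb e he Ψ hΨ hle z hz
  by_contra h0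
  obtain ⟨c, c0, c1⟩ := exists_between (not_le.1 h0)
  obtain ⟨δ, hδ, near⟩ := psi_near (P := P e)
    (hΨ.continuousAt ((e.open_target.prod isOpen_univ).mem_nhds ⟨hz, mem_univ _⟩))
    (hP.sm e he z hz).continuousAt c1
  obtain ⟨r, hr, hrt⟩ := Metric.nhds_basis_closedBall.mem_iff.1
    (inter_mem (e.open_target.mem_nhds hz) (ball_mem_nhds z hδ))
  have hB : closedBall z r ⊆ e.target := hrt.trans inter_subset_left
  set K : Set M.X := e.symm '' closedBall z r with hKd
  have hKc : IsCompact K :=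
    (isCompact_closedBall z r).image_of_continuousOn (e.continuousOn_symm.mono hB)
  have hKs : K ⊆ e.source := by
    rintro _ ⟨w, hw, rfl⟩
    exact e.map_target (hB hw)
  obtain ⟨-, hfin, hop, -⟩ := mMU n M h hh
  have hKm : 0 < (M.mu h).real K := by
    have ho : IsOpen (e.symm '' ball z r) :=
      e.isOpen_image_symm_of_subset_target isOpen_ball (ball_subset_closedBall.trans hB)
    exact lt_of_lt_of_le (ENNReal.toReal_pos (ho.measure_pos _ ⟨_, z, mem_ball_self hr, rfl⟩).ne'
      (measure_ne_top _ _)) (measureReal_mono (image_mono ball_subset_closedBall))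
  obtain ⟨C, hC, hm⟩ := mu_le M hH hh
  have lim : Tendsto (fun a => δ⁻¹ * (∑ i, ∑ j,
      ∫ x in K, ‖(A a e (e x) - P e (e x)) i j‖ ∂M.mu h) + C * (M.mu H).real {x | c ≤ b a x}) l
      (𝓝 (δ⁻¹ * (∑ i : Fin n, ∑ j : Fin n, (0 : ℝ)) + C * 0)) :=
    ((tendsto_finsetSum _ fun i _ => tendsto_finsetSum _ fun j _ =>
      hL e he K hKc hKs i j).const_mul _).add (((hb c c0).mono_left hl).const_mul _)
  simp only [Finset.sum_const_zero, mul_zero, add_zero] at lim
  obtain ⟨a, h2⟩ := (lim.eventually (gt_mem_nhds hKm)).exists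
  refine absurd h2 (not_lt.2 ?_)
  have di : ∀ i j, IntegrableOn (fun x => ‖(A a e (e x) - P e (e x)) i j‖) K (M.mu h) :=
    fun i j => by
      refine ContinuousOn.integrableOn_compact hKc fun x hx => ?_
      have hx' := e.map_source (hKs hx)
      exact (((((hA a).sm e he _ hx').sub (hP.sm e he _ hx')) i j).continuousAt.comp
        (e.continuousAt (hKs hx))).norm.continuousWithinAt
  have mk := mul_meas_ge_le_integral_of_nonneg (μ := (M.mu h).restrict K)
    (f := fun x => ∑ i, ∑ j, ‖(A a e (e x) - P e (e x)) i j‖)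
    (ae_of_all _ fun x => by positivity)
    (integrable_finsetSum _ fun i _ => integrable_finsetSum _ fun j _ => di i j) δ
  rw [integral_finsetSum _ fun i _ => integrable_finsetSum _ fun j _ => di i j,
    Finset.sum_congr rfl fun i _ => integral_finsetSum _ fun j _ => di i j] at mk
  have sub : K ⊆ {x | δ ≤ ∑ i, ∑ j, ‖(A a e (e x) - P e (e x)) i j‖} ∪ {x | c ≤ b a x} := by
    rintro _ ⟨w, hw, rfl⟩
    rw [mem_union, mem_ofPred_eq, mem_ofPred_eq, e.right_inv (hB hw), or_iff_not_imp_left]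
    exact fun k1 => (near w _ (hrt hw).2 (not_le.1 k1)).le.trans (hle a w (hB hw))
  rw [← measureReal_restrict_apply_self]
  refine ((measureReal_mono sub).trans (measureReal_union_le _ _)).trans
    (add_le_add ((le_inv_mul_iff₀ hδ).2 mk) (le_trans ?_ (hm _)))
  exact ENNReal.toReal_mono (measure_ne_top _ _) (Measure.restrict_le_self _)

end Pool.Agent.Lib.GH
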