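import Pool.Agent.Lib.GH.Blue

/-! Project gh32: calculus of null and tight sequences (row GME). -/

open scoped Classical Topology
open Set MeasureTheory Filter

set_option linter.unusedSectionVars false

noncomputable section

namespace Pool.Agent.Lib.GH

open Pool.Agent.Lib.HS32

namespace G56

variable {X : Type} [MeasurableSpace X] {μ : Measure X} [IsFiniteMeasure μ]

theorem sub_le {s t u : Set X} (h : s ⊆ t ∪ u) : μ.real s ≤ μ.real t + μ.real u :=
  (measureReal_mono h (measure_ne_top μ _)).trans (measureReal_union_le t u)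

theorem nl_mono {a b : ℕ → X → ℝ} (hb : Nl μ b) (h : ∀ j x, a j x ≤ b j x) : Nl μ a := by
  intro η hη
  refine squeeze_zero (fun j => measureReal_nonneg) (fun j => ?_) (hb η hη)
  exact measureReal_mono (fun x hx => le_trans hx (h j x)) (measure_ne_top μ _)

theorem tg_mono {a b : ℕ → X → ℝ} (hb : Tg μ b) (h : ∀ j x, a j x ≤ b j x) : Tg μ a := by
  intro η hη
  obtain ⟨L, hL⟩ := hb η hη
  exact ⟨L, fun j => (measureReal_mono (fun x hx => le_trans hx (h j x))
    (measure_ne_top μ _)).trans (hL j)⟩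

theorem nl_add {a b : ℕ → X → ℝ} (ha : Nl μ a) (hb : Nl μ b) :
    Nl μ fun j x => a j x + b j x := by
  intro η hη
  have h2 : 0 < η / 2 := half_pos hη
  have ht := (ha _ h2).add (hb _ h2)
  rw [add_zero] at ht
  refine squeeze_zero (fun j => measureReal_nonneg) (fun j => sub_le ?_) ht
  intro x hx
  by_contra hc
  simp only [mem_union, mem_ofPred_eq, not_or, not_le] at hc hx
  linarith [hc.1, hc.2]

theorem tg_add {a b : ℕ → X → ℝ} (ha : Tg μ a) (hb : Tg μ b) :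
    Tg μ fun j x => a j x + b j x := by
  intro η hη
  have h2 : 0 < η / 2 := half_pos hη
  obtain ⟨L, hL⟩ := ha _ h2
  obtain ⟨K, hK⟩ := hb _ h2
  refine ⟨L + K, fun j => ?_⟩
  have hs : {x | L + K ≤ a j x + b j x} ⊆ {x | L ≤ a j x} ∪ {x | K ≤ b j x} := by
    intro x hx
    by_contra hc
    simp only [mem_union, mem_ofPred_eq, not_or, not_le] at hc hx
    linarith [hc.1, hc.2]
  have := sub_le (μ := μ) hs
  linarith [hL j, hK j]

theorem tg_pos {b : ℕ → X → ℝ} (hb : Tg μ b) {η : ℝ} (hη : 0 < η) :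
    ∃ L : ℝ, 0 < L ∧ ∀ j, μ.real {x | L ≤ b j x} ≤ η := by
  obtain ⟨L, hL⟩ := hb η hη
  refine ⟨max L 1, lt_of_lt_of_le one_pos (le_max_right _ _), fun j => ?_⟩
  exact (measureReal_mono (fun x hx => le_trans (le_max_left L 1) hx)
    (measure_ne_top μ _)).trans (hL j)

theorem mul_sub {p q L K : ℝ} (hp : 0 ≤ p) (hq : 0 ≤ q) (h : L * K ≤ p * q) :
    L ≤ p ∨ K ≤ q := by
  by_contra hc
  simp only [not_or, not_le] at hc
  have := mul_lt_mul'' hc.1 hc.2 hp hq
  linarith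

theorem nl_mul {a b : ℕ → X → ℝ} (h0 : ∀ j x, 0 ≤ a j x) (h1 : ∀ j x, 0 ≤ b j x)
    (ha : Nl μ a) (hb : Tg μ b) : Nl μ fun j x => a j x * b j x := by
  intro η hη
  rw [Metric.tendsto_atTop]
  intro δ hδ
  have h2 : 0 < δ / 2 := half_pos hδ
  obtain ⟨L, hL0, hL⟩ := tg_pos hb h2
  have h3 := ha (η / L) (div_pos hη hL0)
  rw [Metric.tendsto_atTop] at h3
  obtain ⟨N, hN⟩ := h3 _ h2
  refine ⟨N, fun j hj => ?_⟩
  have h4 := hN j hj
  rw [Real.dist_eq, sub_zero, abs_of_nonneg measureReal_nonneg] at h4 ⊢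
  have hs : {x | η ≤ a j x * b j x} ⊆ {x | η / L ≤ a j x} ∪ {x | L ≤ b j x} := by
    intro x hx
    have hx' : η / L * L ≤ a j x * b j x := by
      rw [div_mul_cancel₀ _ hL0.ne']
      exact hx
    exact mul_sub (h0 j x) (h1 j x) hx'
  have := sub_le (μ := μ) hs
  linarith [hL j]

theorem tg_mul {a b : ℕ → X → ℝ} (h0 : ∀ j x, 0 ≤ a j x) (h1 : ∀ j x, 0 ≤ b j x)
    (ha : Tg μ a) (hb : Tg μ b) : Tg μ fun j x => a j x * b j x := by
  intro η hη
  have h2 : 0 < η / 2 := half_pos hη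
  obtain ⟨L, hL⟩ := ha _ h2
  obtain ⟨K, hK⟩ := hb _ h2
  refine ⟨L * K, fun j => ?_⟩
  have hs : {x | L * K ≤ a j x * b j x} ⊆ {x | L ≤ a j x} ∪ {x | K ≤ b j x} :=
    fun x hx => mul_sub (h0 j x) (h1 j x) hx
  have := sub_le (μ := μ) hs
  linarith [hL j, hK j]

theorem nl_const {c : ℕ → ℝ} (hc : Tendsto c atTop (𝓝 0)) : Nl μ fun j _ => c j := by
  intro η hη
  refine tendsto_const_nhds.congr' ?_
  filter_upwards [hc.eventually (gt_mem_nhds hη)] with j hj
  have : {x : X | η ≤ c j} = ∅ := by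
    ext x
    simp only [mem_ofPred_eq, mem_empty_iff_false, iff_false, not_le]
    exact hj
  rw [this, measureReal_empty]

theorem tg_const (c : ℝ) : Tg μ fun _ _ => c := by
  intro η hη
  refine ⟨c + 1, fun j => ?_⟩
  have : {x : X | c + 1 ≤ c} = ∅ := by
    ext x
    simp only [mem_ofPred_eq, mem_empty_iff_false, iff_false, not_le]
    exact lt_add_one c
  rw [this, measureReal_empty]
  exact hη.le

theorem markov {f : X → ℝ} (h0 : ∀ x, 0 ≤ f x) (hi : Integrable f μ) {L : ℝ} (hL : 0 < L) :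
    μ.real {x | L ≤ f x} ≤ (∫ x, f x ∂μ) / L := by
  rw [le_div_iff₀ hL, mul_comm]
  exact mul_meas_ge_le_integral_of_nonneg (Eventually.of_forall h0) hi L

theorem nl_int {a : ℕ → X → ℝ} (h0 : ∀ j x, 0 ≤ a j x) (hi : ∀ j, Integrable (a j) μ)
    (ht : Tendsto (fun j => ∫ x, a j x ∂μ) atTop (𝓝 0)) : Nl μ a := by
  intro η hη
  have h2 := ht.div_const η
  rw [zero_div] at h2
  exact squeeze_zero (fun j => measureReal_nonneg) (fun j => markov (h0 j) (hi j) hη) h2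

theorem tg_int {a : ℕ → X → ℝ} (h0 : ∀ j x, 0 ≤ a j x) (hi : ∀ j, Integrable (a j) μ)
    (C : ℝ) (hC : ∀ j, ∫ x, a j x ∂μ ≤ C) : Tg μ a := by
  intro η hη
  have hC0 : 0 ≤ C := (integral_nonneg (h0 0)).trans (hC 0)
  have hL : 0 < (C + 1) / η := div_pos (by linarith) hη
  refine ⟨(C + 1) / η, fun j => (markov (h0 j) (hi j) hL).trans ?_⟩
  rw [div_le_iff₀ hL, mul_div_cancel₀ _ hη.ne']
  linarith [hC j]

end G56

theorem st_GME : St_GME := fun _ _ _ _ _ _ =>
  ⟨G56.nl_mono, G56.tg_mono, G56.nl_add, G56.tg_add,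
    fun h0 h1 => ⟨G56.nl_mul h0 h1, G56.tg_mul h0 h1⟩, fun _ hc => G56.nl_const hc,
    fun c => G56.tg_const c, fun h0 hi => ⟨G56.nl_int h0 hi, G56.tg_int h0 hi⟩⟩

end Pool.Agent.Lib.GH
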