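import Pool.Agent.Lib.GH.Blue
import Pool.Agent.Lib.GH76.Sum

/-! The Laplacian of `log det (G + s h) - log det G`, in coordinates. -/

open scoped Classical Topology ContDiff ComplexOrder Matrix
open Set Complex Filter Matrix

noncomputable section

namespace Pool.Agent.Lib.GH

open Pool.Agent.Lib.SV (E)
open Pool.Agent.Lib.HS32 Pool.Agent.Lib.HS68 Pool.Agent.Lib.GH76

namespace G31

variable {n : ℕ}

theorem asy_gam {G : E n → Mat n} {z : E n} (hK : Kl G z) (a b : E n) :
    asy (fun k => gam G k z) a b = 0 := by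
  ext m
  simp only [asy, Pi.sub_apply, Matrix.mulVec, dotProduct, Matrix.sum_apply, Matrix.smul_apply,
    smul_eq_mul, Finset.sum_mul, Pi.zero_apply]
  rw [sub_eq_zero, Finset.sum_comm]
  refine Finset.sum_congr rfl fun k _ => Finset.sum_congr rfl fun j _ => ?_
  rw [Loc.gam_symm hK m j k]
  ring

theorem asy_sub (C D : Fin n → Mat n) (a b : E n) :
    asy (fun k => C k - D k) a b = asy C a b - asy D a b := by
  simp only [asy, smul_sub, Finset.sum_sub_distrib, Matrix.sub_mulVec]
  abel

end G31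

theorem st_GSE : St_GSE := by
  intro n G h s z hs hG hh hev
  have hA : Loc G z := ⟨hG, hev.mono fun w hw => hw.1.isHermitian, hev.self_of_nhds.1⟩
  have hH : Loc h z := ⟨hh, hev.mono fun w hw => hw.2.1.isHermitian, hev.self_of_nhds.2.1⟩
  have hK : Kl G z := hev.mono fun w hw => hw.2.2
  have hB := loc_smul hH hs
  have hM := loc_add hA hB
  have hu : IsUnit (G z + s • h z).det := hM.det_ne.isUnit
  have hg : IsUnit (G z).det := hA.det_ne.isUnit
  have e1 : 1 - wmat (G z) (h z) s = (G z + s • h z)⁻¹ * G z := by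
    rw [wmat, sub_eq_iff_eq_add, ← Matrix.mul_add, nonsing_inv_mul _ hu]
  refine ⟨?_, hM.smM_inv.mul hB.sm, fun l => ?_, fun a b => ?_⟩
  · have e2 : (G z + s • h z)⁻¹ * (s • h z) * (G z)⁻¹ = (G z)⁻¹ - (G z + s • h z)⁻¹ := by
      have : (G z + s • h z)⁻¹ * (s • h z) = 1 - (G z + s • h z)⁻¹ * G z := by
        rw [← e1, wmat]; abel
      rw [this, Matrix.sub_mul, Matrix.one_mul, Matrix.mul_assoc, mul_nonsing_inv _ hg,
        Matrix.mul_one]
    have e3 : ((G z)⁻¹ * phf h (wmat (G z) (h z) s) z).trace =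
        -∑ k, ∑ l, (G z)⁻¹ k l * ((G z + s • h z)⁻¹ * (s • h z) * th h k l z).trace := by
      rw [Matrix.trace, ← Finset.sum_neg_distrib]
      refine Finset.sum_congr rfl fun k _ => ?_
      rw [diag_apply, Matrix.mul_apply, ← Finset.sum_neg_distrib]
      refine Finset.sum_congr rfl fun l _ => ?_
      rw [phf, of_apply, wmat, mul_neg]
    have e4 : ∀ k l, ((G z + s • h z)⁻¹ * (df G h l z)ᴴ *
        (G z * (G z + s • h z)⁻¹ * (s • h z)) * df G h k z).trace =
        (G z * wmat (G z) (h z) s * df G h k z * (G z + s • h z)⁻¹ * (df G h l z)ᴴ).trace := by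
      intro k l
      rw [Matrix.mul_assoc (_ * _ᴴ), trace_mul_comm, wmat]
      simp only [Matrix.mul_assoc]
    rw [lap_sum hA hK hB, ← Matrix.mul_assoc, e2, Matrix.sub_mul, trace_sub, e3]
    simp only [th_rsmul hh hs.ne', df_rsmul hh hs.ne', e4, ricF, egr]
    ring
  · have e := dMb_W hA hB l
    rw [df_rsmul hh hs.ne'] at e
    simp only [wmat] at e1 ⊢
    rw [e, e1]
    simp only [conjTranspose_mul, conjTranspose_smul, hA.pos.isHermitian.eq,
      hH.pos.isHermitian.eq, hM.pos.isHermitian.inv.eq, star_trivial, Matrix.mul_neg,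
      Matrix.neg_mul, Matrix.mul_smul, Matrix.smul_mul, Matrix.mul_assoc]
  · rw [tors, show (fun k => df G h k z) = fun k => gam G k z - gam h k z from rfl, G31.asy_sub,
      G31.asy_gam hK]
    abel

end Pool.Agent.Lib.GH
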