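import Pool.Agent.Lib.GH.Blue
import Pool.Agent.Lib.HS32.MAll
import Pool.Agent.Lib.HS76.Diag

/-! Project gh32: the Schwarz lemma for the solutions of the twisted equation. -/

open scoped Topology ComplexOrder Matrix
open Set MeasureTheory Filter

namespace Pool.Agent.Lib.GH

open Pool.Agent.Lib.HS32 Pool.Agent.Lib.HS32.Mf Pool.Agent.Lib.HS76

namespace G34

variable {n : ℕ} {M : Mf n} {H h B : M.Fam (Mat n)} {ε : ℝ} {u : M.X → ℝ}

theorem gB_app (e : M.Ch) (z : SV.E n) :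
    M.gB H B ε u e z = ε • H e z + B e z - M.ric H e z + M.hs u e z := rfl

theorem sol_ric (hK : M.Kae H) (hu : M.SolB H B ε u) : M.All fun e z =>
    M.ric (M.gB H B ε u) e z = ε • H e z + B e z - M.gB H B ε u e z := fun e he z hz => by
  have h := ((mHES n M).2.2.2.2.2.2.2.2.2 _ H hu.kae.toMet hK.toMet).2 e he z hz
  simp only [hu.det, Real.log_exp] at h
  beta_reduce
  rw [h, gB_app]
  abel

theorem sol_det (hK : M.Kae H) (hu : M.SolB H B ε u) : M.All fun e z =>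
    (M.gB H B ε u e z).det.re = Real.exp (u (e.symm z)) * (H e z).det.re := fun e he z hz => by
  have h := ((mINV n M H hK.toMet).2.1 _ hu.kae.toForm e he z hz).2.2
  rwa [hu.det] at h

theorem ip_mono {G S T : M.Fam (Mat n)} (hG : M.Met G) (hh : M.Met h) (hl : M.Le S T) (x : M.X) :
    M.ip G h S x ≤ M.ip G h T x := by
  have h1 := (hh.ev_pos x).posSemidef.mul_mul_conjTranspose_same (M.ev G x)⁻¹
  rw [(hG.ev_pos x).inv.1.eq] at h1
  exact tr_mul_mono h1 (AllOn.ch hl x)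

theorem ip_ric (hK : M.Kae H) (hh : M.Met h) (hB : M.Le 0 B) (hu : M.SolB H B ε u) (x : M.X) :
    ε * M.ip (M.gB H B ε u) h H x - M.tr (M.gB H B ε u) h x ≤
      M.ip (M.gB H B ε u) h (M.ric (M.gB H B ε u)) x := by
  have h1 := ip_mono hu.kae.toMet hh ((Le.refl (ε • H)).add hB) x
  rw [add_zero, ip_smul] at h1
  rw [ip_congr (G := M.gB H B ε u) (G' := M.gB H B ε u) (S := h) (S' := h)
    (T := M.ric (M.gB H B ε u)) (T' := ε • H + B - M.gB H B ε u) (fun _ _ _ _ => rfl)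
    (fun _ _ _ _ => rfl) (sol_ric hK hu), ip_sub, hu.kae.toMet.ip_self]
  linarith

theorem sol_tr [M.Cpt] (hC : St_GCL) (hn : 0 < n) (hK : M.Kae H) (hh : M.Met h) (hg : M.Grf h)
    (hB : M.Le 0 B) {c : ℝ} (hc : 0 < c) (hl : M.Le h (c • H)) (hε : 0 < ε)
    (hu : M.SolB H B ε u) (x : M.X) : ε * M.tr (M.gB H B ε u) h x ≤ n * c := by
  obtain ⟨hS, hp, hq⟩ := (hC n M h hh hg).2 _ hu.kae hn
  obtain ⟨y, hy⟩ := hS.exists_max
  have hL := hS.log fun x => (hp x).ne'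
  have h1 := ((((mLAP n M _ _ hL hL).2.2 _ hu.kae.toMet).2.2.1 y 0).2.2.2.2.2.2.2.2.1
    (Eventually.of_forall fun w => Real.log_le_log (hp w) (hy w))).1
  have h2 := (div_le_iff₀ (hp y)).1 ((hq y).trans h1)
  have h3 := tr_sq_le (hu.kae.toMet.ev_pos y) (hh.ev_pos y).1
  rw [Fintype.card_fin, ← mul_assoc] at h3
  have h4 : M.tr (M.gB H B ε u) h y ^ 2 ≤ n * M.ip (M.gB H B ε u) h h y := h3
  have h5 : (0 : ℝ) < n := Nat.cast_pos.2 hn
  have h6 := ip_mono hu.kae.toMet hh hl y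
  rw [ip_smul] at h6
  have h7 := ip_ric hK hh hB hu y
  have h8 : ε * M.ip (M.gB H B ε u) h H y ≤ M.tr (M.gB H B ε u) h y := by linarith
  have h9 := mul_le_mul_of_nonneg_left (h4.trans (mul_le_mul_of_nonneg_left h6 h5.le)) hε.le
  have h10 := mul_le_mul_of_nonneg_left h8 (mul_pos h5 hc).le
  refine (mul_le_mul_of_nonneg_left (hy x) hε.le).trans (le_of_mul_le_mul_right ?_ (hp y))
  nlinarith

theorem sol_le [M.Cpt] (hC : St_GCL) (hn : 0 < n) (hK : M.Kae H) (hh : M.Met h) (hg : M.Grf h)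
    (hB : M.Le 0 B) {c d K : ℝ} (hc : 0 < c) (hl : M.Le h (c • H)) (hd : 0 < d)
    (hl' : M.Le H (d • h)) (hk : n * c * d ≤ K) (hε : 0 < ε) (hu : M.SolB H B ε u) :
    M.Le ((ε / K) • H) (M.gB H B ε u) := by
  have h5 : (0 : ℝ) < n := Nat.cast_pos.2 hn
  have h6 : 0 < n * c * d := by positivity
  have h7 : M.Le h ((n * c / ε) • M.gB H B ε u) := fun e he z hz => by
    have h1 := sol_tr hC hn hK hh hg hB hc hl hε hu (e.symm z)
    rw [((mINV n M _ hu.kae.toMet).1 h hh.toTen).1 e he z hz, ← le_div_iff₀' hε] at h1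
    exact le_tr_smul (hu.kae.pos e he z hz) (hh.pos e he z hz).posSemidef h1
  have h8 := (hl'.trans (h7.smul hd.le)).smul (div_pos hε h6).le
  rw [smul_smul, smul_smul, show ε / (n * c * d) * d * (n * c / ε) = 1 by field_simp,
    one_smul] at h8
  exact (hK.toMet.le_smul (div_le_div_of_nonneg_left hε.le h6 hk)).trans h8

end G34

open G34

theorem st_GSB (hC : St_GCL) : St_GSB := by
  intro n M _ H h B hn hK hh hg hB hB0
  obtain ⟨c₀, hc₀, hl₀, -⟩ := (mBD n M H hK.toMet).1 _ hh.toForm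
  obtain ⟨d, hd, hl₁, -⟩ := (mBD n M h hh).1 _ hK.toForm
  obtain ⟨c, hc, hr, -⟩ := (mBD n M H hK.toMet).1 _
    (hB.sub ((mHES n M).2.2.2.2.2.2.2.2.1 H hK.toMet)).toForm
  obtain ⟨K, hK1, hk⟩ : ∃ K : ℝ, 1 ≤ K ∧ n * c₀ * d ≤ K := ⟨_, le_max_left _ _, le_max_right _ _⟩
  have p1 : 0 < (1 + c) ^ n := by positivity
  have p2 : (1 + c) ^ n ≤ (1 + c) ^ n * K ^ (n - 1) :=
    le_mul_of_one_le_right p1.le (one_le_pow₀ hK1)
  refine ⟨(1 + c) ^ n * K ^ (n - 1) + K, by linarith, fun ε hε u hu => ?_⟩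
  have h1 : M.Le (ε • H + B - M.ric H) ((1 + c) • H) := by
    have := (hK.toMet.le_smul hε.2).add hr
    rwa [← add_smul, ← add_sub_assoc] at this
  have h2 : ∀ x, Real.exp (u x) ≤ (1 + c) ^ n := by
    obtain ⟨y, hy⟩ := hu.sm.exists_max
    have h3 := ((((mLAP n M _ _ hu.sm hu.sm).2.2 _ hK.toMet).2.2.1 y 0).2.2.2.2.2.2.2.2.1
      (Eventually.of_forall hy)).2.2 _ (ch_mem y) (mem_ch y)
    have h4 := (AllOn.ch h1 y).add h3
    rw [← sub_eq_add_neg, sub_sub] at h4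
    have h6 := det_le_of_le (c := 1 + c) (hK.toMet.ev_pos y) (hu.kae.toMet.ev_pos y).posSemidef h4
    have h7 := AllOn.ch (sol_det hK hu) y
    rw [ch_symm] at h7
    rw [Fintype.card_fin, ev, ev, h7] at h6
    exact fun x => (Real.exp_le_exp.2 (hy x)).trans
      (le_of_mul_le_mul_right h6 (pd_det_re (hK.toMet.ev_pos y)))
  have h3 : M.Le ((ε / ((1 + c) ^ n * K ^ (n - 1) + K)) • H) (M.gB H B ε u) :=
    sol_le hC hn hK hh hg hB0 hc₀ hl₀ hd hl₁ (by linarith) hε.1 hu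
  refine ⟨sol_ric hK hu, fun x => ?_, h3,
    Le.trans (T := ((1 + c) ^ n / (ε / K) ^ (Fintype.card (Fin n) - 1)) • H)
      (fun e he z hz => ?_) (hK.toMet.le_smul ?_),
    fun x => ⟨?_, by linarith [h2 x, Real.add_one_le_exp (u x)]⟩, fun f => ?_⟩
  · obtain ⟨-, hp, hq⟩ := (hC n M h hh hg).2 _ hu.kae hn
    refine le_trans ?_ (hq x)
    have h4 := ip_mono hu.kae.toMet hh (hK.toMet.smul hε.1).nonneg x
    rw [ip_smul, ← zero_smul ℝ H, ip_smul] at h4
    rw [le_div_iff₀ (hp x)]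
    linarith [ip_ric hK hh hB0 hu x]
  · refine le_of_det_le (hK.pos e he z hz) (hu.kae.herm e he z hz) (div_pos hε.1 (by linarith))
      (sol_le hC hn hK hh hg hB0 hc₀ hl₀ hd hl₁ hk hε.1 hu e he z hz) ?_
    rw [sol_det hK hu e he z hz]
    exact mul_le_mul_of_nonneg_right (h2 _) (pd_det_re (hK.pos e he z hz)).le
  · rw [Fintype.card_fin, div_pow, div_div_eq_mul_div, div_eq_mul_inv, ← inv_pow]
    exact mul_le_mul (by linarith) (pow_le_pow_right₀ ((one_le_inv₀ hε.1).2 hε.2) (Nat.sub_le _ _))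
      (by have := hε.1; positivity) (by linarith)
  · have h0 : 0 < ε / ((1 + c) ^ n * K ^ (n - 1) + K) := div_pos hε.1 (by linarith)
    have h4 := le_det_of_le (hK.toMet.ev_pos x) (hu.kae.toMet.ev_pos x).1 h0.le (AllOn.ch h3 x)
    have h5 := AllOn.ch (sol_det hK hu) x
    rw [ch_symm] at h5
    rw [Fintype.card_fin, ev, ev, h5] at h4
    rw [← Real.log_pow, Real.log_le_iff_le_exp (pow_pos h0 n)]
    exact le_of_mul_le_mul_right h4 (pd_det_re (hK.toMet.ev_pos x))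
  · rw [((mMU n M H hK.toMet).2.2.2.2.2.2 _ hu.kae.toMet).2.1 f]
    simp only [hu.det, mul_comm]

end Pool.Agent.Lib.GH
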