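import Pool.Agent.Lib.GH.Blue
import Pool.Agent.Lib.HS76.Diag

/-! Project gh32: the gradient term controls the derivative of `W` and the torsion. -/

open scoped ComplexOrder Matrix
open Matrix Finset

noncomputable section

namespace Pool.Agent.Lib.GH

open Pool.Agent.Lib.SV (E)
open Pool.Agent.Lib.HS32

namespace G44

variable {n : ℕ}

/-- A real diagonal matrix. -/
def dg (f : Fin n → ℝ) : Mat n := diagonal fun i => (f i : ℂ)

lemma dg_mul (f g : Fin n → ℝ) : dg f * dg g = dg fun i => f i * g i := by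
  simp [dg, diagonal_mul_diagonal]

lemma dg_one : dg (fun _ : Fin n => 1) = 1 := by simp [dg]

lemma dg_trace (f : Fin n → ℝ) : (dg f).trace = ((∑ i, f i : ℝ) : ℂ) := by
  simp [dg, trace_diagonal]

lemma dg_add_smul (f : Fin n → ℝ) (s : ℝ) : dg f + s • (1 : Mat n) = dg fun i => f i + s := by
  ext i j
  by_cases h : i = j
  · subst h; simp [dg]
  · simp [dg, h]

lemma dg_sub (f g : Fin n → ℝ) : dg f - dg g = dg fun i => f i - g i := by
  ext i j
  by_cases h : i = j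
  · subst h; simp [dg]
  · simp [dg, h]

lemma dg_smul (f : Fin n → ℝ) (s : ℝ) : s • dg f = dg fun i => s * f i := by
  ext i j
  by_cases h : i = j
  · subst h; simp [dg]
  · simp [dg, h]

lemma dg_mulVec (f : Fin n → ℝ) (v : E n) (i : Fin n) : (dg f *ᵥ v) i = f i * v i := by
  simp [dg, mulVec_diagonal]

/-- A frame in which `h` is the identity and `G` is diagonal. -/
structure Fr (G h U V : Mat n) (g : Fin n → ℝ) : Prop where
  uv : U * V = 1
  vu : V * U = 1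
  hh : h = Vᴴ * V
  gg : G = Vᴴ * dg g * V
  pos : ∀ i, 0 < g i

lemma exists_fr {G h : Mat n} (hG : G.PosDef) (hh : h.PosDef) : ∃ U V g, Fr G h U V g := by
  obtain ⟨U, g, h1, h2⟩ := HS76.simul_diag hh hG.isHermitian
  have h3 : U * (Uᴴ * h) = 1 := mul_eq_one_comm.mp h1
  have h4 : (Uᴴ * h)ᴴ * Uᴴ = 1 := by rw [← conjTranspose_mul, h3, conjTranspose_one]
  have hU : IsUnit U := IsUnit.of_mul_eq_one _ h3
  refine ⟨U, Uᴴ * h, g, h3, h1, ?_, ?_, fun i => ?_⟩
  · rw [← Matrix.mul_assoc, h4, Matrix.one_mul]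
  · rw [dg, ← h2]
    calc G = ((Uᴴ * h)ᴴ * Uᴴ) * G * (U * (Uᴴ * h)) := by rw [h3, h4, Matrix.one_mul, Matrix.mul_one]
      _ = _ := by simp only [Matrix.mul_assoc]
  · have h5 : (Uᴴ * G * U).PosDef :=
      hG.conjTranspose_mul_mul_same (mulVec_injective_of_isUnit hU)
    rw [h2, posDef_diagonal_iff] at h5
    exact_mod_cast h5 i

namespace Fr

variable {G h U V : Mat n} {g : Fin n → ℝ} (F : Fr G h U V g)
include F

lemma uv' : Vᴴ * Uᴴ = 1 := by rw [← conjTranspose_mul, F.uv, conjTranspose_one]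

lemma vu' : Uᴴ * Vᴴ = 1 := by rw [← conjTranspose_mul, F.vu, conjTranspose_one]

lemma inv_dg {f : Fin n → ℝ} (hf : ∀ i, 0 < f i) :
    (Vᴴ * dg f * V)⁻¹ = U * dg (fun i => (f i)⁻¹) * Uᴴ := by
  refine inv_eq_right_inv ?_
  calc Vᴴ * dg f * V * (U * dg (fun i => (f i)⁻¹) * Uᴴ)
      = Vᴴ * (dg f * (V * U) * dg fun i => (f i)⁻¹) * Uᴴ := by simp only [Matrix.mul_assoc]
    _ = 1 := by
      rw [F.vu, Matrix.mul_one, dg_mul]
      simp only [mul_inv_cancel₀ (hf _).ne', dg_one, Matrix.mul_one, F.uv']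

lemma inv_G : G⁻¹ = U * dg (fun i => (g i)⁻¹) * Uᴴ := by rw [F.gg]; exact F.inv_dg F.pos

lemma inv_add {s : ℝ} (hs : 0 < s) : (G + s • h)⁻¹ = U * dg (fun i => (g i + s)⁻¹) * Uᴴ := by
  have : G + s • h = Vᴴ * dg (fun i => g i + s) * V := by
    rw [← dg_add_smul, F.gg, F.hh]
    simp [Matrix.mul_add, Matrix.add_mul]
  rw [this]
  exact F.inv_dg fun i => add_pos (F.pos i) hs

lemma wmat_eq {s : ℝ} (hs : 0 < s) : wmat G h s = U * dg (fun i => s * (g i + s)⁻¹) * V := by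
  rw [wmat, F.inv_add hs, ← dg_smul]
  conv_lhs => rw [F.hh]
  calc U * dg (fun i => (g i + s)⁻¹) * Uᴴ * s • (Vᴴ * V)
      = s • (U * dg (fun i => (g i + s)⁻¹) * (Uᴴ * Vᴴ) * V) := by
        simp only [Matrix.mul_assoc, Matrix.mul_smul]
    _ = _ := by rw [F.vu', Matrix.mul_one]; simp only [Matrix.mul_smul, Matrix.smul_mul]

lemma one_sub_wmat {s : ℝ} (hs : 0 < s) :
    1 - wmat G h s = U * dg (fun i => g i * (g i + s)⁻¹) * V := by
  have e : (fun i => g i * (g i + s)⁻¹) = fun i => 1 - s * (g i + s)⁻¹ := by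
    funext i
    have := add_pos (F.pos i) hs
    field_simp
    ring
  rw [F.wmat_eq hs, e, ← dg_sub, dg_one, Matrix.mul_sub, Matrix.sub_mul, Matrix.mul_one, F.uv]

lemma trace_conj (f : Fin n → ℝ) : (U * dg f * V).trace.re = ∑ i, f i := by
  rw [trace_mul_cycle, F.vu, Matrix.one_mul, dg_trace, Complex.ofReal_re]

lemma rho_eq {s : ℝ} (hs : 0 < s) : (wmat G h s - wmat G h s * wmat G h s).trace.re
    = ∑ i, s * (g i + s)⁻¹ * (g i * (g i + s)⁻¹) := by
  have e : wmat G h s - wmat G h s * wmat G h s = wmat G h s * (1 - wmat G h s) := by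
    rw [Matrix.mul_sub, Matrix.mul_one]
  rw [e, F.one_sub_wmat hs, F.wmat_eq hs, ← F.trace_conj,
    ← dg_mul (fun i => s * (g i + s)⁻¹) fun i => g i * (g i + s)⁻¹]
  congr 2
  calc U * dg (fun i => s * (g i + s)⁻¹) * V * (U * dg (fun i => g i * (g i + s)⁻¹) * V)
      = U * (dg (fun i => s * (g i + s)⁻¹) * (V * U) * dg fun i => g i * (g i + s)⁻¹) * V := by
        simp only [Matrix.mul_assoc]
    _ = _ := by rw [F.vu, Matrix.mul_one]

lemma tr_eq : (h⁻¹ * G).trace.re = ∑ i, g i := by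
  have e : h⁻¹ = U * Uᴴ := by
    have := F.inv_dg (f := fun _ => 1) fun _ => one_pos
    simpa only [dg_one, Matrix.mul_one, inv_one, ← F.hh] using this
  rw [e, ← F.trace_conj, F.gg]
  congr 2
  calc U * Uᴴ * (Vᴴ * dg g * V) = U * (Uᴴ * Vᴴ) * dg g * V := by simp only [Matrix.mul_assoc]
    _ = _ := by rw [F.vu', Matrix.mul_one]

omit F in
lemma nq_dg (f : Fin n → ℝ) (v : E n) :
    nq (Vᴴ * dg f * V) v = ∑ i, f i * ‖(V *ᵥ v) i‖ ^ 2 := by
  rw [nq, Matrix.mul_assoc, ← mulVec_mulVec, dotProduct_mulVec, vecMul_conjTranspose, star_star,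
    ← mulVec_mulVec, dotProduct, Complex.re_sum]
  refine sum_congr rfl fun i _ => ?_
  rw [dg_mulVec, Pi.star_apply, mul_left_comm, Complex.star_def, Complex.conj_mul',
    ← Complex.ofReal_pow, ← Complex.ofReal_mul, Complex.ofReal_re]

lemma nq_G (v : E n) : nq G v = ∑ i, g i * ‖(V *ᵥ v) i‖ ^ 2 := by
  rw [F.gg]; exact nq_dg g v

lemma nq_h (v : E n) : nq h v = ∑ i, ‖(V *ᵥ v) i‖ ^ 2 := by
  have := nq_dg (V := V) (fun _ => 1) v
  simpa only [dg_one, Matrix.mul_one, one_mul, ← F.hh] using this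

lemma nq_hU (y : E n) : nq h (U *ᵥ y) = ∑ i, ‖y i‖ ^ 2 := by
  rw [F.nq_h, mulVec_mulVec, F.vu, one_mulVec]

end Fr

/-- The family in the frame. -/
def xx (U V : Mat n) (D : Fin n → Mat n) (m : Fin n) : Mat n := V * (∑ k, U k m • D k) * U

lemma sum_frame {U V : Mat n} (D : Fin n → Mat n) (β : E n) :
    V * (∑ k, (U *ᵥ β) k • D k) * U = ∑ m, β m • xx U V D m := by
  have : ∑ k, (U *ᵥ β) k • D k = ∑ m, β m • ∑ k, U k m • D k := by
    simp only [mulVec, dotProduct, sum_smul, smul_sum, smul_smul]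
    rw [sum_comm]
    exact sum_congr rfl fun m _ => sum_congr rfl fun k _ => by rw [mul_comm]
  rw [this, Matrix.mul_sum, Matrix.sum_mul]
  simp only [xx, Matrix.mul_smul, Matrix.smul_mul]

lemma trace_dg (a b : Fin n → ℝ) (X : Mat n) :
    (dg a * X * dg b * Xᴴ).trace = ((∑ i, ∑ j, a i * b j * ‖X i j‖ ^ 2 : ℝ) : ℂ) := by
  rw [trace, Complex.ofReal_sum]
  refine sum_congr rfl fun i _ => ?_
  rw [diag_apply, mul_apply, Complex.ofReal_sum]
  refine sum_congr rfl fun j _ => ?_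
  rw [dg, dg, mul_diagonal, diagonal_mul, conjTranspose_apply, Complex.star_def]
  push_cast
  rw [← Complex.mul_conj']
  ring

lemma egr_eq {G h U V : Mat n} {g : Fin n → ℝ} (F : Fr G h U V g) {s : ℝ} (hs : 0 < s)
    (D : Fin n → Mat n) : (egr G h s D).re = ∑ i, g i * (g i + s)⁻¹ *
      ∑ m, ∑ j, (g m)⁻¹ * (s * (g j + s)⁻¹) * ‖xx U V D m i j‖ ^ 2 := by
  set A := G * wmat G h s with hA
  set B := (G + s • h)⁻¹ with hB
  have e1 : egr G h s D = ∑ m, ((g m)⁻¹ : ℝ) *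
      (A * (∑ k, U k m • D k) * B * (∑ k, U k m • D k)ᴴ).trace := by
    have e : ∀ k l, G⁻¹ k l = ∑ m, U k m * ((g m)⁻¹ : ℝ) * star (U l m) := by
      intro k l
      rw [F.inv_G, mul_apply]
      exact sum_congr rfl fun m _ => by rw [dg, mul_diagonal, conjTranspose_apply]
    simp only [egr, e, sum_mul, ← hA, ← hB, conjTranspose_sum, conjTranspose_smul,
      Matrix.mul_smul, Matrix.smul_mul, trace_sum, trace_smul, smul_eq_mul, mul_sum]
    rw [sum_comm]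
    refine (sum_congr rfl fun l _ => sum_comm).trans (sum_comm.trans ?_)
    refine sum_congr rfl fun m _ => sum_congr rfl fun l _ => sum_congr rfl fun k _ => ?_
    ring
  have eA : A = Vᴴ * dg (fun i => s * (g i * (g i + s)⁻¹)) * V := by
    rw [hA, F.wmat_eq hs]
    conv_lhs => rw [F.gg]
    calc Vᴴ * dg g * V * (U * dg (fun i => s * (g i + s)⁻¹) * V)
        = Vᴴ * (dg g * (V * U) * dg fun i => s * (g i + s)⁻¹) * V := by simp only [Matrix.mul_assoc]
      _ = _ := by rw [F.vu, Matrix.mul_one, dg_mul]; simp only [mul_left_comm]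
  have e2 : ∀ m, (A * (∑ k, U k m • D k) * B * (∑ k, U k m • D k)ᴴ).trace
      = ((∑ i, ∑ j, s * (g i * (g i + s)⁻¹) * (g j + s)⁻¹ * ‖xx U V D m i j‖ ^ 2 : ℝ) : ℂ) := by
    intro m
    rw [← trace_dg, eA, hB, F.inv_add hs, xx]
    generalize (∑ k, U k m • D k) = Y
    calc (Vᴴ * dg (fun i => s * (g i * (g i + s)⁻¹)) * V * Y * (U * dg (fun i => (g i + s)⁻¹) * Uᴴ)
          * Yᴴ).trace
        = (Vᴴ * (dg (fun i => s * (g i * (g i + s)⁻¹)) * V * Y * U * dg (fun i => (g i + s)⁻¹) * Uᴴ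
          * Yᴴ)).trace := by simp only [Matrix.mul_assoc]
      _ = _ := by
        rw [trace_mul_comm]
        simp only [conjTranspose_mul, Matrix.mul_assoc]
  rw [e1, sum_congr rfl fun m _ => by rw [e2 m, ← Complex.ofReal_mul], ← Complex.ofReal_sum,
    Complex.ofReal_re]
  simp only [mul_sum]
  rw [sum_comm]
  refine sum_congr rfl fun i _ => sum_congr rfl fun m _ => sum_congr rfl fun j _ => ?_
  ring

/-- Cauchy-Schwarz with weights. -/
lemma cs {X : Fin n → Fin n → ℂ} {β α : E n} {p q : Fin n → ℝ} (hp : ∀ m, 0 < p m)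
    (hq : ∀ j, 0 < q j) : ‖∑ m, β m * ∑ j, X m j * α j‖ ^ 2 ≤
      ((∑ m, p m * ‖β m‖ ^ 2) * ∑ j, q j * ‖α j‖ ^ 2) *
        ∑ m, ∑ j, (p m)⁻¹ * (q j)⁻¹ * ‖X m j‖ ^ 2 := by
  have h1 : ‖∑ m, β m * ∑ j, X m j * α j‖ ≤ ∑ x : Fin n × Fin n, ‖β x.1‖ * ‖α x.2‖ * ‖X x.1 x.2‖ := by
    rw [Fintype.sum_prod_type]
    refine (norm_sum_le _ _).trans (sum_le_sum fun m _ => ?_)
    rw [mul_sum]
    refine (norm_sum_le _ _).trans (sum_le_sum fun j _ => le_of_eq ?_)
    rw [norm_mul, norm_mul]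
    ring
  refine (pow_le_pow_left₀ (norm_nonneg _) h1 2).trans ?_
  rw [sum_mul_sum, ← Fintype.sum_prod_type', ← Fintype.sum_prod_type']
  refine sum_sq_le_sum_mul_sum_of_sq_le_mul _ (fun x _ => ?_) (fun x _ => ?_) fun x _ => le_of_eq ?_
  · have := hp x.1
    have := hq x.2
    positivity
  · have := hp x.1
    have := hq x.2
    positivity
  · have := hp x.1
    have := hq x.2
    field_simp

lemma apply_sum (X : Fin n → Mat n) (β α : E n) (i : Fin n) :
    ((∑ m, β m • X m) *ᵥ α) i = ∑ m, β m * ∑ j, X m i j * α j := by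
  rw [sum_mulVec, Finset.sum_apply]
  exact sum_congr rfl fun m _ => by rw [smul_mulVec, Pi.smul_apply, smul_eq_mul]; rfl

end G44

open G44 in
theorem st_GA2 : St_GA2 := by
  intro n G h s D hG hh hs
  obtain ⟨U, V, g, F⟩ := exists_fr hG hh
  have hg := F.pos
  have hgs : ∀ i, 0 < g i + s := fun i => add_pos (hg i) hs
  have hU : ∀ b : E n, b = U *ᵥ (V *ᵥ b) := fun b => by rw [mulVec_mulVec, F.uv, one_mulVec]
  have h1w : ∀ i, g i * (g i + s)⁻¹ ≤ 1 := fun i => by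
    rw [← div_eq_mul_inv, div_le_one (hgs i)]; linarith
  have hw1 : ∀ i, s * (g i + s)⁻¹ ≤ 1 := fun i => by
    rw [← div_eq_mul_inv, div_le_one (hgs i)]; linarith [hg i]
  refine ⟨?_, fun a b => ?_, fun a b => ?_⟩
  · rw [egr_eq F hs]
    refine sum_nonneg fun i _ => mul_nonneg (by have := hg i; have := hgs i; positivity)
      (sum_nonneg fun m _ => sum_nonneg fun j _ => ?_)
    have := hg m
    have := hgs j
    positivity
  · set β := V *ᵥ b with hβ
    set α := V *ᵥ a with hα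
    have e : ((1 - wmat G h s) * (∑ k, b k • D k) * wmat G h s) *ᵥ a
        = U *ᵥ (dg (fun i => g i * (g i + s)⁻¹) *ᵥ ((∑ m, β m • xx U V D m) *ᵥ
          (dg (fun i => s * (g i + s)⁻¹) *ᵥ α))) := by
      rw [← sum_frame, ← hU b, F.one_sub_wmat hs, F.wmat_eq hs, hα]
      simp only [mulVec_mulVec, Matrix.mul_assoc]
    rw [e, F.nq_hU, egr_eq F hs, F.nq_G, F.nq_h, ← hβ, ← hα, mul_right_comm, mul_sum]
    refine sum_le_sum fun i _ => ?_
    have hc := cs (X := fun m j => xx U V D m i j) (β := β)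
      (α := dg (fun i => s * (g i + s)⁻¹) *ᵥ α) (p := g) (q := fun j => (s * (g j + s)⁻¹)⁻¹) hg
      (fun j => by have := hgs j; positivity)
    simp only [inv_inv] at hc
    have h2 : ∑ j, (s * (g j + s)⁻¹)⁻¹ * ‖(dg (fun i => s * (g i + s)⁻¹) *ᵥ α) j‖ ^ 2
        ≤ ∑ j, ‖α j‖ ^ 2 := sum_le_sum fun j _ => by
      have h3 := hgs j
      have h4 : 0 < s * (g j + s)⁻¹ := by positivity
      rw [dg_mulVec, norm_mul, Complex.norm_real, Real.norm_of_nonneg h4.le]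
      calc _ = s * (g j + s)⁻¹ * ‖α j‖ ^ 2 := by
            generalize s * (g j + s)⁻¹ = w at h4
            field_simp
        _ ≤ 1 * ‖α j‖ ^ 2 := by gcongr; exact hw1 j
        _ = _ := one_mul _
    have h5 : 0 ≤ g i * (g i + s)⁻¹ := by have := hg i; have := hgs i; positivity
    have h6 : 0 ≤ ∑ m, g m * ‖β m‖ ^ 2 := sum_nonneg fun m _ => by have := hg m; positivity
    have h7 : 0 ≤ ∑ m, ∑ j, (g m)⁻¹ * (s * (g j + s)⁻¹) * ‖xx U V D m i j‖ ^ 2 :=
      sum_nonneg fun m _ => sum_nonneg fun j _ => by have := hg m; have := hgs j; positivity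
    rw [dg_mulVec, norm_mul, Complex.norm_real, Real.norm_of_nonneg h5, apply_sum, mul_pow]
    generalize ‖∑ m, β m * ∑ j, xx U V D m i j * (dg (fun i => s * (g i + s)⁻¹) *ᵥ α) j‖ ^ 2 = N
      at hc
    have h8 := h1w i
    generalize g i * (g i + s)⁻¹ = t at h5 h8
    calc t ^ 2 * N ≤ t ^ 2 * (((∑ m, g m * ‖β m‖ ^ 2) * ∑ j, ‖α j‖ ^ 2) *
          ∑ m, ∑ j, (g m)⁻¹ * (s * (g j + s)⁻¹) * ‖xx U V D m i j‖ ^ 2) := by
          refine mul_le_mul_of_nonneg_left (hc.trans ?_) (sq_nonneg t)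
          gcongr
      _ ≤ t * (((∑ m, g m * ‖β m‖ ^ 2) * ∑ j, ‖α j‖ ^ 2) *
          ∑ m, ∑ j, (g m)⁻¹ * (s * (g j + s)⁻¹) * ‖xx U V D m i j‖ ^ 2) := by
          refine mul_le_mul_of_nonneg_right (by nlinarith) (by positivity)
      _ = _ := by ring
  · set β := V *ᵥ b with hβ
    set α := V *ᵥ a with hα
    set γ := dg (fun i => s * (g i + s)⁻¹) *ᵥ α with hγ
    have e0 : wmat G h s *ᵥ a = U *ᵥ γ := by
      rw [F.wmat_eq hs, hγ, hα]; simp only [mulVec_mulVec, Matrix.mul_assoc]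
    have e : ((1 - wmat G h s) * ∑ k, (wmat G h s *ᵥ a) k • D k) *ᵥ b
        = U *ᵥ (dg (fun i => g i * (g i + s)⁻¹) *ᵥ ((∑ m, γ m • xx U V D m) *ᵥ β)) := by
      rw [← sum_frame, e0, F.one_sub_wmat hs]
      conv_lhs => rw [hU b, ← hβ]
      simp only [mulVec_mulVec, Matrix.mul_assoc]
    rw [e, F.nq_hU, egr_eq F one_pos, F.nq_h, F.nq_h, F.rho_eq hs, F.tr_eq, ← hβ, ← hα]
    set ρ := ∑ i, s * (g i + s)⁻¹ * (g i * (g i + s)⁻¹) with hρ
    have hρi : ∀ i, 0 ≤ s * (g i + s)⁻¹ * (g i * (g i + s)⁻¹) := fun i => by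
      have := hg i; have := hgs i; positivity
    have hρ1 : ∀ i, s * (g i + s)⁻¹ * (g i * (g i + s)⁻¹) ≤ ρ := fun i =>
      single_le_sum (fun i _ => hρi i) (mem_univ i)
    have hρ0 : 0 ≤ ρ := sum_nonneg fun i _ => hρi i
    have hρn : ρ ≤ n := by
      calc ρ ≤ ∑ _i : Fin n, (1 : ℝ) := sum_le_sum fun i _ =>
            mul_le_one₀ (hw1 i) (by have := hg i; have := hgs i; positivity) (h1w i)
        _ = n := by simp
    set τ := ∑ i, g i with hτ
    have hτi : ∀ i, g i ≤ τ := fun i => single_le_sum (fun i _ => (hg i).le) (mem_univ i)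
    have hτ0 : 0 ≤ τ := sum_nonneg fun i _ => (hg i).le
    set Na := ∑ i, ‖α i‖ ^ 2 with hNa
    set Nb := ∑ i, ‖β i‖ ^ 2 with hNb
    have hNa0 : 0 ≤ Na := by positivity
    have hNb0 : 0 ≤ Nb := by positivity
    have h2 : ∑ m, g m * ‖γ m‖ ^ 2 ≤ s * ρ * Na := by
      rw [hNa, mul_sum]
      refine sum_le_sum fun m _ => ?_
      have h3 := hgs m
      have h4 : 0 < s * (g m + s)⁻¹ := by positivity
      rw [hγ, dg_mulVec, norm_mul, Complex.norm_real, Real.norm_of_nonneg h4.le]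
      calc _ = s * (s * (g m + s)⁻¹ * (g m * (g m + s)⁻¹)) * ‖α m‖ ^ 2 := by ring
        _ ≤ _ := by gcongr; exact hρ1 m
    have h3 : ∑ j, (g j + 1) * ‖β j‖ ^ 2 ≤ (1 + τ) * Nb := by
      rw [hNb, mul_sum]
      exact sum_le_sum fun j _ =>
        mul_le_mul_of_nonneg_right (by linarith [hτi j]) (by positivity)
    rw [mul_assoc, mul_right_comm, mul_sum]
    refine sum_le_sum fun i _ => ?_
    have hc := cs (X := fun m j => xx U V D m i j) (β := γ) (α := β) (p := g)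
      (q := fun j => g j + 1) hg (fun j => by linarith [hg j])
    simp only [one_mul]
    set S := ∑ m, ∑ j, (g m)⁻¹ * (g j + 1)⁻¹ * ‖xx U V D m i j‖ ^ 2 with hS
    have h7 : 0 ≤ S :=
      sum_nonneg fun m _ => sum_nonneg fun j _ => by have := hg m; have := hg j; positivity
    have hgi := hg i
    have hgsi := hgs i
    have h5 : 0 ≤ g i * (g i + s)⁻¹ := by positivity
    rw [dg_mulVec, norm_mul, Complex.norm_real, Real.norm_of_nonneg h5, apply_sum, mul_pow]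
    generalize ‖∑ m, γ m * ∑ j, xx U V D m i j * β j‖ ^ 2 = N at hc
    have h8 : (g i * (g i + s)⁻¹) ^ 2 * (s * ρ) ≤ (n * s + ρ ^ 2) * (g i * (g i + 1)⁻¹) := by
      have e1 : (g i * (g i + s)⁻¹) ^ 2 * s = ((g i * (g i + s)⁻¹) ^ 2 * s
          + s * (g i + s)⁻¹ * (g i * (g i + s)⁻¹)) * (g i * (g i + 1)⁻¹) := by
        field_simp
      have e2 : (g i * (g i + s)⁻¹) ^ 2 ≤ 1 := pow_le_one₀ h5 (h1w i)
      have e3 : (g i * (g i + s)⁻¹) ^ 2 * s + s * (g i + s)⁻¹ * (g i * (g i + s)⁻¹) ≤ s + ρ := by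
        nlinarith [hρ1 i]
      calc (g i * (g i + s)⁻¹) ^ 2 * (s * ρ) = (g i * (g i + s)⁻¹) ^ 2 * s * ρ := by ring
        _ ≤ (s + ρ) * (g i * (g i + 1)⁻¹) * ρ := by rw [e1]; gcongr
        _ = (ρ * s + ρ ^ 2) * (g i * (g i + 1)⁻¹) := by ring
        _ ≤ _ := by gcongr
    calc (g i * (g i + s)⁻¹) ^ 2 * N
        ≤ (g i * (g i + s)⁻¹) ^ 2 * ((s * ρ * Na) * ((1 + τ) * Nb) * S) := by
          refine mul_le_mul_of_nonneg_left (hc.trans ?_) (sq_nonneg _)
          have : 0 ≤ ∑ j, (g j + 1) * ‖β j‖ ^ 2 :=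
            sum_nonneg fun j _ => by have := hg j; positivity
          gcongr
      _ = (g i * (g i + s)⁻¹) ^ 2 * (s * ρ) * (Na * ((1 + τ) * Nb) * S) := by ring
      _ ≤ (n * s + ρ ^ 2) * (g i * (g i + 1)⁻¹) * (Na * ((1 + τ) * Nb) * S) := by gcongr
      _ = _ := by ring

end Pool.Agent.Lib.GH
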