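import Pool.Agent.Lib.GH.Blue
import Pool.Agent.Lib.HS32.MAll
import Pool.Agent.Lib.HS.B_DETB

/-! Project gh32: the twisted class has positive volume. -/

open scoped Classical Topology ContDiff ComplexOrder Matrix
open Set MeasureTheory Complex Metric Filter

noncomputable section

namespace Pool.Agent.Lib.GH

open Pool.Agent.Lib.SV (E)
open Pool.Agent.Lib.HS32

namespace G92

variable {n : ℕ}

theorem det_mono' {A B : Mat n} (hA : A.PosSemidef) (hB : (B - A).PosSemidef) :
    A.det.re ≤ B.det.re := by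
  by_cases h0 : A.det = 0
  · have := hA.add hB
    rw [add_sub_cancel] at this
    rw [h0]
    exact (Complex.le_def.mp this.det_nonneg).1
  · exact HS76.det_mono (hA.posDef_iff_det_ne_zero.mpr h0) hB

theorem quot_mono {H A B : Mat n} (hH : H.PosDef) (hA : A.PosSemidef) (hB : (B - A).PosSemidef) :
    (A.det / H.det).re ≤ (B.det / H.det).re := by
  rw [HS76.det_eq_re hH.posSemidef, div_ofReal_re, div_ofReal_re]
  exact div_le_div_of_nonneg_right (det_mono' hA hB) (HS76.det_re_pos hH).le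

theorem fac (h P R : Mat n) (s : ℝ) (hP : P * P = P) (hR : R * P = 0) :
    s • h - R = (h * P - R + s • (h - h * P)) * (1 + (s - 1) • P) := by
  simp only [Matrix.mul_add, Matrix.add_mul, Matrix.sub_mul, Matrix.mul_smul, Matrix.smul_mul,
    Matrix.mul_one, Matrix.mul_assoc, hP, hR]
  module

variable {M : Mf n} [M.Cpt] {H : M.Fam (Mat n)}

theorem intg (hm : M.Met H) {T : M.Fam (Mat n)} (hT : M.Ten T) :
    Integrable (M.dq H T) (M.mu H) :=
  (mMU n M H hm).2.2.2.2.1 ℝ _ ((mINV n M H hm).1 _ hT).2.2.2.1.continuous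

theorem int_mono (hm : M.Met H) {S T : M.Fam (Mat n)} (hS : M.Ten S) (hT : M.Ten T)
    (h0 : M.All fun e z => (S e z).PosSemidef) (h1 : M.Le S T) :
    ∫ x, M.dq H S x ∂M.mu H ≤ ∫ x, M.dq H T x ∂M.mu H :=
  integral_mono (intg hm hS) (intg hm hT) fun x =>
    quot_mono (Mf.AllOn.ch hm.pos x) (Mf.AllOn.ch h0 x) (Mf.AllOn.ch h1 x)

theorem int_ric (hm : M.Met H) {h T : M.Fam (Mat n)} (hh : M.Met h) (hT : M.Clo T) :
    ∫ x, M.dq H (T - M.ric H) x ∂M.mu H = ∫ x, M.dq H (T - M.ric h) x ∂M.mu H := by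
  obtain ⟨h1, h2⟩ := (mHES n M).2.2.2.2.2.2.2.2.2 h H hh hm
  rw [← mCOH n M H _ _ hm (hT.sub ((mHES n M).2.2.2.2.2.2.2.2.1 H hm)) h1]
  refine integral_congr_ae (Eventually.of_forall fun x => ?_)
  have h3 := Mf.AllOn.ch h2 x
  beta_reduce at h3
  simp only [Mf.dq, Mf.ev, Pi.add_apply, Pi.sub_apply]
  rw [h3]
  congr 3
  abel

end G92

open G92 in
theorem st_GBIG (hPRD : St_GPRD) (hCL : St_GCL) : St_GBIG := by
  intro n M _ H h P k hK hh hg hf ho
  have hm : M.Met H := hK.toMet
  have hric : M.Clo (M.ric H) := (mHES n M).2.2.2.2.2.2.2.2.1 H hm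
  have hrich : M.Clo (M.ric h) := (mHES n M).2.2.2.2.2.2.2.2.1 h hh
  obtain ⟨-, hB, hB0, -, hRP⟩ := hPRD n M h P k hh hf
  have hη := (hCL n M h hh hg).1
  obtain ⟨-, -, -, -, -, -, hch⟩ := mMU n M H hm
  have pη : M.All fun e z => (-M.ric h e z).PosSemidef := fun e he z hz => by
    simpa using hη e he z hz
  have pω : M.All fun e z => (h e z * P e z).PosSemidef := fun e he z hz => by
    simpa using hB0 e he z hz
  have pS : ∀ t : ℝ, 0 ≤ t → M.All fun e z => ((t • H + h * P - M.ric h) e z).PosSemidef :=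
    fun t ht e he z hz => by
      simp only [Pi.add_apply, Pi.sub_apply, Pi.smul_apply, Pi.mul_apply, sub_eq_add_neg]
      exact ((Mf.psd_rsmul (hm.pos e he z hz).posSemidef ht).add (pω e he z hz)).add (pη e he z hz)
  have cS : ∀ t : ℝ, M.Clo (t • H + h * P) := fun t => (hK.toClo.smul t).add hB
  have mono : ∀ s t : ℝ, 0 ≤ s → s ≤ t → ∫ x, M.dq H (s • H + h * P - M.ric h) x ∂M.mu H ≤
      ∫ x, M.dq H (t • H + h * P - M.ric h) x ∂M.mu H := fun s t hs hst =>
    int_mono hm ((cS s).sub hrich).toTen ((cS t).sub hrich).toTen (pS s hs) fun e he z hz => by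
      have e1 : (t • H + h * P - M.ric h) e z - (s • H + h * P - M.ric h) e z =
          (t - s) • H e z := by
        simp only [Pi.add_apply, Pi.sub_apply, Pi.smul_apply, Pi.mul_apply]
        module
      beta_reduce
      rw [e1]
      exact Mf.psd_rsmul (hm.pos e he z hz).posSemidef (sub_nonneg.2 hst)
  have cls : ∀ (ε s : ℝ) u, M.Sm u → ∫ x, M.dq H (M.gB H (h * P) ε u + s • H) x ∂M.mu H =
      ∫ x, M.dq H ((ε + s) • H + h * P - M.ric h) x ∂M.mu H := fun ε s u hu => by
    have e1 : M.gB H (h * P) ε u + s • H = ((ε + s) • H + h * P - M.ric H) + M.hs u := by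
      simp only [Mf.gB, add_smul]; abel
    rw [e1, mCOH n M H _ u hm ((cS _).sub hric) hu, int_ric hm hh (cS _)]
  refine ⟨∫ x, M.dq H ((0 : ℝ) • H + h * P - M.ric h) x ∂M.mu H,
    ∫ x, M.dq H ((2 : ℝ) • H + h * P - M.ric h) x ∂M.mu H, ?_, fun ε hε u hu => ⟨?_, ?_⟩⟩
  · obtain ⟨C, hC, hHC, -⟩ := (mBD n M h hh).1 H hm.toForm
    obtain ⟨L, hL⟩ := HS.D54.interp_det n
    have tS : ∀ t : ℝ, M.Ten (h * P - M.ric h + t • (h - h * P)) := fun t =>
      (hB.toTen.sub hrich.toTen).add ((hh.toTen.sub hB.toTen).smul t)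
    set g : ℝ → ℝ := fun t => ∑ a : Fin (n + 1), (L a).eval t *
      ∫ x, M.dq H (h * P - M.ric h + ((a : ℝ) + 1) • (h - h * P)) x ∂M.mu H with hgd
    have hgc : Continuous g :=
      continuous_finsetSum _ fun a _ => (L a).continuous.mul continuous_const
    have hgv : ∀ t : ℝ, g t = ∫ x, M.dq H (h * P - M.ric h + t • (h - h * P)) x ∂M.mu H :=
      fun t => by
        have e2 : ∀ x, M.dq H (h * P - M.ric h + t • (h - h * P)) x = ∑ a : Fin (n + 1),
            (L a).eval t * M.dq H (h * P - M.ric h + ((a : ℝ) + 1) • (h - h * P)) x := fun x =>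
          hL (M.ev h x * M.ev P x - M.ev (M.ric h) x) (M.ev h x - M.ev h x * M.ev P x)
            (M.ev H x).det t
        simp only [e2]
        rw [integral_finsetSum _ fun a _ => (intg hm (tS _)).const_mul _]
        simp only [integral_const_mul, hgd]
    have up : ∀ ε : ℝ, 0 < ε → M.vol H ε / ε ^ k ≤ C ^ k * g (C * ε) := fun ε hε => by
      have e3 : ∀ x, M.dq H ((C * ε) • h - M.ric h) x =
          (C * ε) ^ k * M.dq H (h * P - M.ric h + (C * ε) • (h - h * P)) x := fun x => by
        have h1 := fac (M.ev h x) (M.ev P x) (M.ev (M.ric h) x) (C * ε) (Mf.AllOn.ch hf.idem x)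
          (Mf.AllOn.ch hRP x)
        have h2 : (1 + (C * ε - 1) • M.ev P x).det = _ := Mf.AllOn.ch (hf.det (C * ε - 1)) x
        change (((C * ε) • M.ev h x - M.ev (M.ric h) x).det / (M.ev H x).det).re = _ *
          ((M.ev h x * M.ev P x - M.ev (M.ric h) x +
            (C * ε) • (M.ev h x - M.ev h x * M.ev P x)).det / (M.ev H x).det).re
        rw [h1, Matrix.det_mul, h2, add_sub_cancel, mul_div_right_comm, ← ofReal_pow,
          re_mul_ofReal, mul_comm]
      have e4 : M.vol H ε ≤ ∫ x, M.dq H ((C * ε) • h - M.ric h) x ∂M.mu H := by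
        rw [Mf.vol, int_ric hm hh (hK.toClo.smul ε)]
        refine int_mono hm ((hK.toClo.smul ε).sub hrich).toTen
          ((hh.toTen.smul _).sub hrich.toTen) (fun e he z hz => ?_) fun e he z hz => ?_
        · simp only [Pi.sub_apply, Pi.smul_apply, sub_eq_add_neg]
          exact (Mf.psd_rsmul (hm.pos e he z hz).posSemidef hε.le).add (pη e he z hz)
        · have e1 : ((C * ε) • h - M.ric h) e z - (ε • H - M.ric h) e z =
              ε • ((C • h) e z - H e z) := by
            simp only [Pi.sub_apply, Pi.smul_apply]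
            module
          beta_reduce
          rw [e1]
          exact Mf.psd_rsmul (hHC e he z hz) hε.le
      simp only [e3] at e4
      rw [integral_const_mul, ← hgv, mul_pow] at e4
      rw [div_le_iff₀ (pow_pos hε k)]
      linarith
    obtain ⟨-, c, hc, hl⟩ := ho
    have l2 : Tendsto (fun ε : ℝ => C ^ k * g (C * ε)) (𝓝[>] 0) (𝓝 (C ^ k * g (C * 0))) :=
      ((continuous_const.mul (hgc.comp (continuous_const.mul continuous_id))).tendsto 0).mono_left
        nhdsWithin_le_nhds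
    have l3 := le_of_tendsto_of_tendsto hl l2
      (eventually_mem_nhdsWithin.mono fun ε hε => up ε hε)
    rw [mul_zero, hgv, zero_smul, add_zero] at l3
    rw [zero_smul, zero_add]
    exact (mul_pos_iff_of_pos_left (pow_pos hC k)).1 (hc.trans_le l3)
  · have e5 := (hch _ hu.kae.toMet).2.1 fun _ => 1
    simp only [integral_const, smul_eq_mul, mul_one] at e5
    have e6 := cls ε 0 u hu.sm
    rw [zero_smul, add_zero, add_zero] at e6
    rw [e5, e6]
    exact mono 0 ε le_rfl hε.1.le
  · have hF : M.Form (M.gB H (h * P) ε u + H) := hu.kae.toMet.toForm.add hm.toForm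
    rw [(hch _ hu.kae.toMet).2.1]
    simp only [← ((mINV n M H hm).2.2.2.2.2.2.2 _ hu.kae.toMet).2.2.1 _ hF]
    have e6 := cls ε 1 u hu.sm
    rw [one_smul] at e6
    rw [e6]
    exact mono _ _ (by linarith [hε.1]) (by linarith [hε.2])

end Pool.Agent.Lib.GH
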