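import Pool.Agent.Lib.RB.B_RCL

/-! Project gh32: the inequality of Chern and Lu for a Griffiths non-positive target. -/

open scoped Classical Topology ContDiff ComplexOrder Matrix
open Set MeasureTheory Complex Metric Filter

noncomputable section

namespace Pool.Agent.Lib.GH

open Pool.Agent.Lib.SV (E)
open Pool.Agent.Lib.HS32

/-- Non-positive curvature in the sense of Griffiths implies non-positive real bisectional
curvature. -/
theorem G53.rbc_of_grf (hA : St_GA3) {n : ℕ} {M : Mf n} {h : M.Fam (Mat n)} (hh : M.Met h)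
    (hg : M.Grf h) : M.Rbc h := by
  intro e he z hz ξ hξ
  have hp := hh.pos e he z hz
  have hu : IsUnit (h e z).det := (Matrix.isUnit_iff_isUnit_det _).1 hp.isUnit
  have h1 := (hA n (h e) z (hh.sm e he z hz) (hh.pos.ev he hz) (hg e he z hz)).1 (ξ * h e z)
    (by rw [Matrix.mul_assoc, Matrix.mul_nonsing_inv _ hu, Matrix.mul_one]; exact hξ)
  have h2 : qx (h e) ξ z = (ξ * phf (h e) (ξ * h e z) z).trace := by
    simp only [qx, phf, Matrix.trace, Matrix.diag_apply, Matrix.mul_apply (M := ξ),
      Matrix.of_apply, mul_neg, Finset.sum_neg_distrib]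
  rw [h2]
  exact (nonneg_iff.1 (HS76.tr_mul_nonneg hξ h1)).1

theorem st_GCL (hA : St_GA3) : St_GCL := by
  intro n M h hh hg
  refine ⟨fun e he z hz => ?_, fun G hG hn => RB.clh_of_rbc RB.st_RCL hn hh (G53.rbc_of_grf hA hh hg) G hG⟩
  simpa [Mf.ric] using
    (hA n (h e) z (hh.sm e he z hz) (hh.pos.ev he hz) (hg e he z hz)).2.1

end Pool.Agent.Lib.GH
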