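import Pool.Agent.Lib.GH.Blue
import Pool.Agent.Lib.HS32.MAll
import Pool.Agent.Lib.HS76.Diag

/-! Project gh32: the curvature vanishes on the image of the limit. -/

open scoped Classical Topology ContDiff ComplexOrder Matrix
open Set MeasureTheory Complex Metric Filter

noncomputable section

namespace Pool.Agent.Lib.GH

open Pool.Agent.Lib.SV (E)
open Pool.Agent.Lib.HS32

namespace G10

variable {n : ℕ}

theorem psd_proj {h P : Mat n} (hh : h.PosDef) (h1 : (h * P).IsHermitian) (h2 : P * P = P) :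
    (P * h⁻¹).PosSemidef := by
  have hu : IsUnit h.det := hh.det_pos.ne'.isUnit
  have a1 : Pᴴ * h = h * P := by
    have := h1.eq
    rwa [Matrix.conjTranspose_mul, hh.1.eq] at this
  have a2 : (h * P).PosSemidef := by
    have := hh.posSemidef.conjTranspose_mul_mul_same P
    rwa [a1, Matrix.mul_assoc, h2] at this
  have a3 := a2.conjTranspose_mul_mul_same h⁻¹
  rwa [hh.inv.1.eq, ← Matrix.mul_assoc, Matrix.nonsing_inv_mul _ hu, Matrix.one_mul] at a3

theorem cont_psi {h : E n → Mat n} {z : E n} (hs : SmM h z) (h0 : (h z).det ≠ 0) (A : Mat n) :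
    ContinuousAt (fun p : E n × Mat n => ((h p.1)⁻¹ * phf h p.2 p.1).trace.re) (z, A) := by
  refine Complex.continuous_re.continuousAt.comp ?_
  simp only [Matrix.trace, Matrix.diag_apply, Matrix.mul_apply, phf, Matrix.of_apply]
  refine tendsto_finsetSum _ fun i _ => tendsto_finsetSum _ fun j _ => ?_
  refine ContinuousAt.mul (f := fun p : E n × Mat n => (h p.1)⁻¹ i j)
    (((hs.inv h0) i j).continuousAt.comp_of_eq continuousAt_fst rfl) (ContinuousAt.neg ?_)
  refine tendsto_finsetSum _ fun a _ => tendsto_finsetSum _ fun b _ => ?_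
  refine ContinuousAt.mul (f := fun p : E n × Mat n => p.2 a b)
    (g := fun p : E n × Mat n => th h i j p.1 b a) ?_
    (((hs.th h0 i j) b a).continuousAt.comp_of_eq continuousAt_fst rfl)
  exact ((continuous_apply_apply a b).comp continuous_snd).continuousAt

end G10

theorem st_GFLT (hA3 : St_GA3) (hSUM : St_GSUM) (hME : St_GME) (hNT : St_GNT) (hLIM : St_GLIM) :
    St_GFLT := by
  intro n M _ H h P k ε s u l _ hn hH hh hg hs hl hP hL hid e he z hz
  have sm := fun j => hSUM n M _ h (s j) (hs.sol j).kae hh hg (hs.pos j)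
  obtain ⟨n1, -, n3, -⟩ := hNT n M H h k ε s u hn hH hh hg hs
  have : IsFiniteMeasure (M.mu H) := (mMU n M H hH.toMet).2.1
  have t0 : ∀ j x, 0 ≤ M.tr h (M.gE H (ε j) (u j)) x := fun j x =>
    HS76.tr_nonneg (Mf.AllOn.ch hh.pos x) (Mf.AllOn.ch (hs.sol j).kae.pos x).posSemidef
  have nb := ((hME M.X (M.mu H) _ _).2.2.2.2.1 (fun j x => ((sm j).2.2.2.2.2.2.2.1 x).1) t0).1 n1 n3
  have key := hLIM n M H h P (M.wsq H h ε s u) l _ hH.toMet hh hl (fun j => (sm j).2.1) hP.en hL nb
    e he (fun p => ((h e p.1)⁻¹ * phf (h e) p.2 p.1).trace.re)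
    (fun p hp => (G10.cont_psi (hh.sm e he p.1 hp.1)
      (hh.pos e he p.1 hp.1).det_pos.ne' p.2).continuousWithinAt)
    (fun j w hw => by
      obtain ⟨-, -, b3, b4, -⟩ := (sm j).2.2.2.2.2.2.2.2 e he w hw
      have b5 := HS76.tr_le_mul (hh.pos e he w hw) ((hs.sol j).kae.pos e he w hw) b3
      have b6 := ((mINV n M h hh).1 _ (hs.sol j).kae.toClo.toForm.toTen).1 e he w hw
      have b7 := t0 j (e.symm w)
      rw [b6] at b7 ⊢
      exact b5.trans ((mul_le_mul_of_nonneg_left b4 b7).trans_eq (mul_comm _ _))) z hz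
  obtain ⟨c1, -, c3⟩ := hA3 n (h e) z (hh.sm e he z hz) (hh.pos.ev he hz) (hg e he z hz)
  have c4 := c1 _ (G10.psd_proj (hh.pos e he z hz) (hP.herm e he z hz) (hid e he z hz))
  refine c3 _ (hP.herm e he z hz) (hid e he z hz) ?_
  rw [HS76.tr_eq_re (hh.pos e he z hz) c4.1,
    le_antisymm key (HS76.tr_nonneg (hh.pos e he z hz) c4), Complex.ofReal_zero]

end Pool.Agent.Lib.GH
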