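import Pool.Agent.Lib.GH.Blue
import Pool.Agent.Lib.HS32.MAll
import Pool.Agent.Lib.HS32.MKit
import Pool.Agent.Lib.HS76.Diag

/-! The canonical metric in the twisted class. -/

open scoped Classical Topology ContDiff ComplexOrder Matrix
open Set MeasureTheory Complex Metric Filter

noncomputable section

namespace Pool.Agent.Lib.GH

open Pool.Agent.Lib.SV (E)
open Pool.Agent.Lib.HS32 Pool.Agent.Lib.HS32.Mf

namespace K66

variable {n : ℕ}

theorem pd_sub {G H : Mat n} (hG : G.PosDef) (hH : H.PosDef) {ε : ℝ} (hε : 0 < ε)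
    (h : ε * (G⁻¹ * H).trace.re < 1) : (G - ε • H).PosDef := by
  set t : ℝ := (G⁻¹ * H).trace.re with ht
  have h1 : (t • G - H).PosSemidef := HS76.le_tr_smul hG hH.posSemidef le_rfl
  have h2 : G - ε • H = (1 - ε * t) • G + ε • (t • G - H) := by
    rw [sub_smul, one_smul, smul_sub, smul_smul]
    abel
  rw [h2]
  exact (pd_rsmul hG (sub_pos.2 h)).add_posSemidef (psd_rsmul h1 hε.le)

variable {M : Mf n}

/-- One application of the theorem of Aubin and Yau. -/
theorem solve [M.Cpt] (hA : HS.St_AUBIN) (hn : 0 < n) {h B : M.Fam (Mat n)} (hh : M.Met h)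
    {w : M.X → ℝ} (hw : M.Sm w) (hG : M.Kae (B + M.theta h w)) :
    ∃ v, M.Sm v ∧ M.Kae (B + M.theta h v) ∧ ∀ x, M.dq h (B + M.theta h v) x = Real.exp (v x) := by
  have h2 := (mINV n M h hh).2.2.2.2.2.2.2 _ hG.toMet
  have hsm := ((mHES n M).2.2.2.2.2.2.2.2.2 _ h hG.toMet hh).1
  obtain ⟨v, hv, hk, hd⟩ := hA n M (B + M.theta h w)
    (fun x => w x - Real.log (M.dq h (B + M.theta h w) x)) 1 hn hG (hw.sub hsm) one_pos
  have he : M.All fun e z =>
      (B + M.theta h fun x => w x + v x) e z = (B + M.theta h w + M.hs v) e z :=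
    fun e he z hz => by
      have h3 := ((mLAP n M w v hw hv).1 0 e he z hz).2.1
      simp only [Mf.theta, Pi.add_apply, Pi.sub_apply]
      rw [h3]
      abel
  refine ⟨fun x => w x + v x, hw.add hv, hk.congr he, fun x => ?_⟩
  have h4 : M.dq h (B + M.theta h fun x => w x + v x) x =
      M.dq h (B + M.theta h w + M.hs v) x := by
    unfold Mf.dq
    rw [ev_congr he]
  rw [h4, h2.2.2.1 _ hk.toForm x, hd x, one_mul, ← add_sub_assoc, Real.exp_sub,
    Real.exp_log (h2.1 x), add_comm (v x), mul_div_cancel₀ _ (h2.1 x).ne']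

end K66

open K66

theorem stGKE (hA : HS.St_AUBIN) : St_GKE := by
  intro n M _ H h B ε u hn hH hh hB hε hu ht
  obtain ⟨hφ, hr⟩ := (mHES n M).2.2.2.2.2.2.2.2.2 h H hh hH.toMet
  have hw : M.Sm fun x => u x - Real.log (M.dq H h x) := hu.sm.sub hφ
  have he : M.All fun e z => (B + M.theta h fun x => u x - Real.log (M.dq H h x)) e z =
      (M.gB H B ε u - ε • H) e z := fun e he z hz => by
    have h3 := ((mLAP n M u _ hu.sm hφ).1 0 e he z hz).2.2.1
    have h4 := hr e he z hz
    simp only [Mf.theta, Mf.gB, Pi.add_apply, Pi.sub_apply, Pi.smul_apply] at h4 ⊢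
    rw [h3, h4]
    abel
  have hc : M.Clo (M.gB H B ε u - ε • H) := hu.kae.toClo.sub (hH.toClo.smul ε)
  have hrep := ((mINV n M _ hu.kae.toMet).1 H hH.toTen).1
  have hk : M.Kae (M.gB H B ε u - ε • H) := ⟨hc, fun e he z hz => by
    have h5 := ht (e.symm z)
    rw [hrep e he z hz] at h5
    exact pd_sub (hu.kae.pos e he z hz) (hH.pos e he z hz) hε h5⟩
  exact solve hA hn hh hw (hk.congr he)

end Pool.Agent.Lib.GH
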