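import Pool.Agent.Lib.GH.Blue
import Pool.Agent.Lib.HS.B_LOCP
import Pool.Agent.Lib.HS32.MAll

/-! Project gh32: the local holomorphic limit of the diagonal sequence. -/

open scoped Classical Topology ContDiff ComplexOrder Matrix ENNReal
open Set MeasureTheory Complex Metric Filter

noncomputable section

namespace Pool.Agent.Lib.GH

open Pool.Agent.Lib.SV (E)
open Pool.Agent.Lib.HS32 Pool.Agent.Lib.HS.Locp

namespace G18

/-- Bounded fields whose `(0,1)` derivative is small for a weighted measure have a local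
holomorphic limit. -/
theorem core {n : ℕ} {M : Mf n} [M.Cpt] {H : M.Fam (Mat n)} (hM : M.Met H) {ι : Type}
    (l : Ultrafilter ι) {e : M.Ch} (he : e ∈ M.C) {c : E n} {ρ : ℝ}
    (hcρ : closedBall c ρ ⊆ e.target) {A : ι → E n → Mat n} {u t y v : ι → M.X → ℝ} {a τ : ι → ℝ}
    {C1 C2 : ℝ} (hC1 : 0 < C1) (hC2 : 0 < C2) (hτ : ∀ j, 0 < τ j) (hτ0 : Tendsto τ l (𝓝 0))
    (hu : ∀ j, M.Sm (u j)) (ht1 : ∀ j, Continuous (t j)) (hy1 : ∀ j, Continuous (y j))
    (hv1 : ∀ j, Continuous (v j)) (ht0 : ∀ j x, 0 ≤ t j x) (hy0 : ∀ j x, 0 ≤ y j x)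
    (ha : ∀ j x, u j x ≤ a j) (ha2 : ∀ j, ∫ x, (a j - u j x) ∂M.mu H ≤ C2)
    (hv : ∀ j x, Real.exp (u j x - a j) ≤ v j x)
    (hg : ∀ j (L : ℝ), 1 ≤ L →
      ∫ x, Real.exp ((u j x - a j) / L) * M.gr H (u j) (u j) x ∂M.mu H ≤ C2 * L)
    (ht : ∀ j, ∫ x, t j x ∂M.mu H ≤ C2) (hy : ∀ j, ∫ x, y j x * v j x ∂M.mu H ≤ τ j)
    (hsp : ∀ j, ∀ z ∈ closedBall c ρ, SmM (A j) z)
    (hd1 : ∀ j, ∀ z ∈ closedBall c ρ, ∀ m,
      ‖dzb m (M.lc (u j) e) z‖ ^ 2 ≤ C1 * M.gr H (u j) (u j) (e.symm z))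
    (hd2 : ∀ j, ∀ z ∈ closedBall c ρ, ∀ i k, ‖A j z i k‖ ≤ C1 ∧
      ∀ m, ‖dMb m (A j) z i k‖ ^ 2 ≤ C1 * (t j (e.symm z) * y j (e.symm z))) :
    ∃ P : E n → Mat n, (∀ i k, DifferentiableOn ℂ (fun z => P z i k) (ball c ρ)) ∧
      ∀ K : Set (E n), IsCompact K → K ⊆ ball c ρ → ∀ i k,
        Tendsto (fun j => ∫ z in K, ‖(A j z - P z) i k‖) l (𝓝 0) := by
  have hcont : ∀ f : M.X → ℝ, M.Sm f → Continuous f := fun f => ((mTR n M).2.2.2.1 ℝ f).1
  have hint : ∀ f : M.X → ℝ, Continuous f → Integrable f (M.mu H) :=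
    (mMU n M H hM).2.2.2.2.1 ℝ
  have hfin : IsFiniteMeasure (M.mu H) := (mMU n M H hM).2.1
  obtain ⟨C4, hC4, hc⟩ := chart_le mMU mBD hM he (isCompact_closedBall c ρ) hcρ
  obtain ⟨r, hr1, hr2, hr3⟩ := slow (l := l) hτ hτ0 fun r => r * Real.exp (r ^ 4 / 8)
  have hr0 : ∀ j, 0 < r j := fun j => one_pos.trans_le (hr1 j)
  have hsu : ∀ j, ∀ z ∈ closedBall c ρ, ContDiffAt ℝ ∞ (u j ∘ e.symm) z :=
    fun j z hz => hu j e he z (hcρ hz)
  have hcu : ∀ j, Continuous (u j) := fun j => hcont _ (hu j)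
  let Q : Fin n → Fin n → ι → E n → ℂ := fun i k j =>
    qf (u j) (a j) (r j ^ 2) e fun z => A j z i k
  have est1 : ∀ i k m, Tendsto (fun j => ∫⁻ z in closedBall c ρ, ‖dzb m (Q i k j) z‖ₑ) l (𝓝 0) := by
    intro i k m
    have lim : Tendsto (fun j => ENNReal.ofReal (C4 * (C1 * ((M.mu H).real univ + 8 * C1 * C2) *
        (r j)⁻¹ + (C2 * (r j)⁻¹ + C1 * (r j * Real.exp (r j ^ 4 / 8) * τ j)))))
        l (𝓝 0) := by
      have := ENNReal.tendsto_ofReal (((hr2.const_mul (C1 * ((M.mu H).real univ + 8 * C1 * C2))).add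
        ((hr2.const_mul C2).add (hr3.const_mul C1))).const_mul C4)
      simpa using this
    refine tendsto_of_tendsto_of_tendsto_of_le_of_le tendsto_const_nhds lim (fun _ => zero_le)
      fun j => ?_
    obtain ⟨-, hg1, hg2, -⟩ := (mLAP n M _ _ (hu j) (hu j)).2.2 H hM
    have hg0 : ∀ x, 0 ≤ M.gr H (u j) (u j) x := fun x => (hg2 x 0).2.2.2.2.2.2.1
    have hv0 : ∀ x, 0 ≤ v j x := fun x => (Real.exp_pos _).le.trans (hv j x)
    have c1 : Continuous fun x => Real.exp ((u j x - a j) / r j ^ 2) * M.gr H (u j) (u j) x :=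
      (((hcu j).sub continuous_const).div_const _).rexp.mul (hcont _ hg1)
    have c2 : Continuous fun x => y j x * v j x := (hy1 j).mul (hv1 j)
    have c3 := ht1 j
    have hr := hr0 j
    refine (hc (fun x => C1 * (1 / r j + r j * (8 * C1 / r j ^ 4 *
        (Real.exp ((u j x - a j) / r j ^ 2) * M.gr H (u j) (u j) x))) +
        (t j x / r j + r j * (Real.exp (r j ^ 4 / 8) * C1 * (y j x * v j x)))) _
      (by fun_prop) (fun x => by
        have := hg0 x; have := ht0 j x; have := hy0 j x; have := hv0 x; positivity)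
      fun z hz => qf_dzb m (hsu j z hz) (hsp j z hz i k) hr hC1.le (hg0 _) (ht0 j _) (hy0 j _)
        (hd1 j z hz m) (hd2 j z hz i k).1 ((hd2 j z hz i k).2 m) (hv j _)).trans
      (ENNReal.ofReal_le_ofReal (mul_le_mul_of_nonneg_left ?_ hC4))
    rw [integral_add (hint _ (by fun_prop)) (hint _ (by fun_prop)), integral_const_mul,
      integral_add (hint _ (by fun_prop)) (hint _ (by fun_prop)),
      integral_add (hint _ (by fun_prop)) (hint _ (by fun_prop)), integral_const,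
      integral_const_mul, integral_const_mul, integral_div, integral_const_mul,
      integral_const_mul]
    have i1 := hg j (r j ^ 2) (one_le_pow₀ (hr1 j))
    have i2 := hy j
    have i3 := ht j
    rw [smul_eq_mul]
    refine add_le_add ?_ (add_le_add ?_ ?_)
    · calc _ ≤ C1 * ((M.mu H).real univ * (1 / r j) + r j * (8 * C1 / r j ^ 4 * (C2 * r j ^ 2))) := by
            gcongr
        _ = _ := by field_simp
    · rw [div_eq_mul_inv]; gcongr
    · calc _ ≤ r j * (Real.exp (r j ^ 4 / 8) * C1 * τ j) := by gcongr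
        _ = _ := by ring
  have est2 : ∀ i k, Tendsto (fun j => ∫⁻ z in closedBall c ρ,
      ‖A j z i k - Q i k j z‖ₑ) l (𝓝 0) := by
    intro i k
    have lim : Tendsto (fun j => ENNReal.ofReal (C4 * (C1 * C2 * (r j)⁻¹ ^ 2))) l (𝓝 0) := by
      have := ENNReal.tendsto_ofReal (((hr2.pow 2).const_mul (C1 * C2)).const_mul C4)
      simpa using this
    refine tendsto_of_tendsto_of_tendsto_of_le_of_le tendsto_const_nhds lim (fun _ => zero_le)
      fun j => ?_
    have hr := hr0 j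
    have := hcu j
    have h2 := ha2 j
    refine (hc (fun x => C1 / r j ^ 2 * (a j - u j x)) _ (by fun_prop)
      (fun x => mul_nonneg (by positivity) (sub_nonneg.2 (ha j x)))
      fun z hz => qf_sub (p := fun z => A j z i k) (by positivity) (ha j _)
        (hd2 j z hz i k).1).trans
      (ENNReal.ofReal_le_ofReal (mul_le_mul_of_nonneg_left ?_ hC4))
    rw [integral_const_mul]
    calc _ ≤ C1 / r j ^ 2 * C2 := by gcongr
      _ = _ := by field_simp
  have hQ : ∀ i k j, ∀ z ∈ closedBall c ρ, ContDiffAt ℝ ∞ (Q i k j) z :=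
    fun i k j z hz => qf_cd (hsu j z hz) (hsp j z hz i k)
  have main : ∀ i k, ∃ P : E n → ℂ, DifferentiableOn ℂ P (ball c ρ) ∧ (∀ z ∈ ball c ρ, ‖P z‖ ≤ C1) ∧
      ∀ K, IsCompact K → K ⊆ ball c ρ →
        Tendsto (fun j => ∫⁻ z in K, ‖Q i k j z - P z‖ₑ) l (𝓝 0) := fun i k =>
    HS66.limHol l isOpen_ball (fun j z hz => cd_le (hQ i k j z (ball_subset_closedBall hz)) 1)
      (fun j z hz => qf_norm.trans (hd2 j z (ball_subset_closedBall hz) i k).1)
      fun K _ hKb m => tendsto_of_tendsto_of_tendsto_of_le_of_le tendsto_const_nhds (est1 i k m)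
        (fun _ => zero_le) fun j => lintegral_mono_set (hKb.trans ball_subset_closedBall)
  choose P hP1 _ hP3 using main
  refine ⟨fun z => Matrix.of fun i k => P i k z, hP1, fun K hKc hKb i k => ?_⟩
  have hKs : K ⊆ closedBall c ρ := hKb.trans ball_subset_closedBall
  have t1 : Tendsto (fun j => ∫⁻ z in K, ‖A j z i k - P i k z‖ₑ) l (𝓝 0) := by
    have := (est2 i k).add (hP3 i k K hKc hKb)
    rw [add_zero] at this
    refine tendsto_of_tendsto_of_tendsto_of_le_of_le tendsto_const_nhds this (fun _ => zero_le)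
      fun j => ?_
    have hm : AEMeasurable (fun z => ‖Q i k j z - P i k z‖ₑ) (volume.restrict K) :=
      (ContinuousOn.aestronglyMeasurable (ContinuousOn.sub
        (fun z hz => (hQ i k j z (hKs hz)).continuousAt.continuousWithinAt)
        ((hP1 i k).continuousOn.mono hKb)) hKc.measurableSet).enorm
    calc _ ≤ ∫⁻ z in K, (‖A j z i k - Q i k j z‖ₑ + ‖Q i k j z - P i k z‖ₑ) :=
          lintegral_mono fun z => by
            rw [← sub_add_sub_cancel _ (Q i k j z)]; exact enorm_add_le _ _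
      _ = _ := lintegral_add_right' _ hm
      _ ≤ _ := add_le_add (lintegral_mono_set hKs) le_rfl
  refine ((ENNReal.tendsto_toReal ENNReal.zero_ne_top).comp t1).congr fun j => ?_
  have hm : AEStronglyMeasurable (fun z => A j z i k - P i k z) (volume.restrict K) :=
    ContinuousOn.aestronglyMeasurable (ContinuousOn.sub
      (fun z hz => (hsp j z (hKs hz) i k).continuousAt.continuousWithinAt)
      ((hP1 i k).continuousOn.mono hKb)) hKc.measurableSet
  have := (integral_norm_eq_lintegral_enorm hm).symm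
  simp only [Function.comp, this]
  simp only [Matrix.sub_apply, Matrix.of_apply]

end G18

theorem st_GLOC (hPHI : St_GPHI) (hSUM : St_GSUM) (hDB : St_GDB) : St_GLOC := by
  intro n M _ H h k ε s u l hn hK hh hg hs hl e he c ρ hcρ
  have hM : M.Met H := hK.toMet
  have hcont : ∀ f : M.X → ℝ, M.Sm f → Continuous f := fun f => ((mTR n M).2.2.2.1 ℝ f).1
  obtain ⟨C1, hC1, hd1, hd2⟩ := hDB n M H h hK hh hg e he _ (isCompact_closedBall c ρ) hcρ
  obtain ⟨C2, hC2, hp⟩ := hPHI n M H hn hK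
  choose a ha using fun j => (hp (ε j) (hs.eps j) (u j) (hs.sol j)).2.2
  have hS := fun j => hSUM n M _ h (s j) (hs.sol j).kae hh hg (hs.pos j)
  set η : ℕ → ℝ := fun j => M.av H (ε j) (u j) (M.yw (M.gE H (ε j) (u j)) h (s j)) with hη
  have hτ0 : Tendsto (fun j => C2 * |η j| + s j) l (𝓝 0) := by
    simpa using ((hs.y0.abs.const_mul C2).add hs.s0).mono_left hl
  refine G18.core hM l he hcρ (A := fun j => M.wsq H h ε s u j e) (u := u)
    (t := fun j => M.tr H (M.gE H (ε j) (u j)))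
    (y := fun j => M.yw (M.gE H (ε j) (u j)) h (s j))
    (v := fun j x => C2 * (Real.exp (u j x) / M.vol H (ε j))) (a := a) hC1 hC2
    (fun j => add_pos_of_nonneg_of_pos (by positivity) (hs.pos j)) hτ0 (fun j => (hs.sol j).sm)
    (fun j => hcont _ ((mINV n M H hM).1 _ (hs.sol j).kae.toTen).2.1)
    (fun j => hcont _ (hS j).2.2.2.2.1)
    (fun j => continuous_const.mul ((hcont _ (hs.sol j).sm).rexp.div_const _))
    (fun j x => ?_) (fun j x => ((hS j).2.2.2.2.2.2.2.1 x).1) (fun j => (ha j).1)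
    (fun j => (ha j).2.1) (fun j => (ha j).2.2.2.1) (fun j L hL => ((ha j).2.2.2.2 L hL).2)
    (fun j => (hp (ε j) (hs.eps j) (u j) (hs.sol j)).2.1) (fun j => ?_)
    (fun j z hz => (hS j).2.1.sm e he z (hcρ hz)) (fun j z hz => hd1 _ (hs.sol j).sm z hz)
    fun j z hz => hd2 _ _ (hs.sol j).kae (hs.pos j) z hz
  · obtain ⟨h1, h2⟩ := (mTR n M).1 x
    exact HS76.tr_nonneg (hM.pos _ h1 _ ((M.ch x).map_source h2))
      ((hs.sol j).kae.pos _ h1 _ ((M.ch x).map_source h2)).posSemidef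
  · have i2 : ∫ x, M.yw (M.gE H (ε j) (u j)) h (s j) x * (C2 * (Real.exp (u j x) / M.vol H (ε j)))
        ∂M.mu H = C2 * η j := by
      simp only [hη, Mf.av]
      rw [← integral_div, ← integral_const_mul]
      exact integral_congr_ae (Eventually.of_forall fun x => by ring)
    rw [i2]
    have := mul_le_mul_of_nonneg_left (le_abs_self (η j)) hC2.le
    have := hs.pos j
    linarith

end Pool.Agent.Lib.GH
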