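import Pool.Agent.Lib.GH.Blue
import Pool.Agent.Lib.HS.B_PAR

/-! A holomorphic self-adjoint field of endomorphisms is parallel for a Hermitian metric. -/

open scoped Classical Topology ContDiff ComplexOrder Matrix
open Set Complex Metric Filter

noncomputable section

namespace Pool.Agent.Lib.GH

open Pool.Agent.Lib.SV (E)
open Pool.Agent.Lib.HS32

namespace G72

variable {n : ℕ} {P : E n → Mat n} {z : E n}

theorem fdtr (hP : SmM P z) (h3 : ∀ l, dMb l P z = 0) (g : Fin n → Mat n)
    (h4 : ∀ k, dM k P z = P z * g k - g k * P z) :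
    fderiv ℝ (fun w => (P w).trace) z = 0 := by
  ext v
  rw [fderiv_eq_sum]
  refine Finset.sum_eq_zero fun j _ => ?_
  have a : dz j (fun w => (P w).trace) z = (dM j P z).trace := by
    simp only [Matrix.trace, Matrix.diag]
    rw [dz_sum fun i _ => hP.diff i i]
    rfl
  have b : dzb j (fun w => (P w).trace) z = (dMb j P z).trace := by
    simp only [Matrix.trace, Matrix.diag]
    rw [dzb_sum fun i _ => hP.diff i i]
    rfl
  rw [a, b, h3, h4, Matrix.trace_sub, Matrix.trace_mul_comm (g j)]
  simp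

theorem realtr {A B : Mat n} (hA : A.IsHermitian) (h0 : A.det ≠ 0) (hB : (A * B).IsHermitian) :
    ((B.trace.re : ℝ) : ℂ) = B.trace := by
  have hu : IsUnit A.det := Ne.isUnit h0
  have a : Bᴴ * A = A * B := by
    have := hB.eq
    rwa [Matrix.conjTranspose_mul, hA.eq] at this
  have b : Bᴴ = A * B * A⁻¹ := by
    rw [← a, Matrix.mul_nonsing_inv_cancel_right _ _ hu]
  have c := congrArg Matrix.trace b
  rw [Matrix.trace_conjTranspose, Matrix.trace_mul_cycle, Matrix.nonsing_inv_mul _ hu,
    Matrix.one_mul] at c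
  exact conj_eq_iff_re.1 c

end G72

open Pool.Agent.Lib.HS.BPAR G72 in
theorem st_GPAR : St_GPAR := by
  intro n M _ H P hH hP
  have h0 : M.All fun e z => (H e z).det ≠ 0 := fun e he z hz => (hH.pos e he z hz).det_pos.ne'
  have ev : ∀ {p : M.Ch → E n → Prop}, M.All p → M.All fun e z => ∀ᶠ w in 𝓝 z, p e w :=
    fun h e he z hz => (e.open_target.eventually_mem hz).mono (h e he)
  have h1 : M.All fun e z => ∀ i, dM i (P e) z = P e z * gam (H e) i z - gam (H e) i z * P e z :=
    fun e he z hz => par (hH.sm e he z hz) (hP.en.sm e he z hz) (h0 e he z hz)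
      (ev hH.herm e he z hz) (ev hP.herm e he z hz) (hP.hol e he z hz)
  refine ⟨h1, fun e he z hz => comm (hH.sm e he z hz) (hP.en.sm e he z hz) (h0 e he z hz)
      (ev hP.hol e he z hz) (ev h1 e he z hz), ?_⟩
  obtain ⟨c, hc⟩ := const (M := M) (Φ := fun e z => (P e z).trace)
    (fun e he e' he' x hx hx' => by
      have a : (H e' (e' x)).det ≠ 0 := h0 e' he' _ (e'.map_source hx')
      rw [hH.cmp e he e' he' x hx hx', Matrix.det_mul] at a
      have hu : IsUnit (M.J e e' x).det := Ne.isUnit (right_ne_zero_of_mul a)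
      have b := congrArg (fun A => Matrix.trace ((M.J e e' x)⁻¹ * A))
        (hP.en.cmp e he e' he' x hx hx')
      simp only [Matrix.nonsing_inv_mul_cancel_left _ _ hu] at b
      rw [← Matrix.mul_assoc, Matrix.trace_mul_cycle, Matrix.mul_nonsing_inv _ hu,
        Matrix.one_mul] at b
      exact b)
    (fun e he z hz => ⟨cd_diff (hP.en.sm e he z hz).trace,
      fdtr (hP.en.sm e he z hz) (hP.hol e he z hz) _ (h1 e he z hz)⟩)
  refine ⟨c.re, fun e he z hz => ?_⟩
  rw [← hc e he z hz]
  exact (realtr (hH.herm e he z hz) (h0 e he z hz) (hP.herm e he z hz)).symm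

end Pool.Agent.Lib.GH
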