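import Pool.Agent.Lib.GH.Blue
import Pool.Agent.Lib.HS32.MAll
import Pool.Agent.Lib.HS.B_SB

/-! Project gh32: the normalized potentials. -/

open scoped Topology ComplexOrder Matrix
open Set MeasureTheory Filter

namespace Pool.Agent.Lib.GH

open Pool.Agent.Lib.HS32 Pool.Agent.Lib.HS32.Mf Pool.Agent.Lib.HS76

namespace G91

/-- The bounds that need no hypothesis on the curvature. -/
theorem base (n : ℕ) (M : Mf n) [M.Cpt] (H : M.Fam (Mat n)) (hK : M.Kae H) :
    ∃ C₀ : ℝ, 0 < C₀ ∧ ∀ ε ∈ Ioc (0 : ℝ) 1, ∀ u, M.Sol H ε u →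
      M.Le 0 (C₀ • H + M.hs u) ∧ ∫ x, M.tr H (M.gE H ε u) x ∂M.mu H ≤
        (M.mu H).real univ * (C₀ * n) := by
  obtain ⟨c, hc, -, hr⟩ := (mBD n M H hK.toMet).1 _
    ((mHES n M).2.2.2.2.2.2.2.2.1 H hK.toMet).toForm
  obtain ⟨-, hf, -, hv, hi, -⟩ := mMU n M H hK.toMet
  refine ⟨1 + c, by linarith, fun ε hε u hu => ?_⟩
  have h1 : M.Le (ε • H - M.ric H) ((1 + c) • H) := fun e he z hz => by
    have := (hr e he z hz).add (hK.toMet.le_smul hε.2 e he z hz)
    simp only [Pi.neg_apply, Pi.smul_apply, Pi.sub_apply, add_smul] at this ⊢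
    rwa [show (1 : ℝ) • H e z + c • H e z - (ε • H e z - M.ric H e z) =
      M.ric H e z - -(c • H e z) + ((1 : ℝ) • H e z - ε • H e z) by abel]
  refine ⟨hu.kae.toMet.nonneg.trans (h1.add (Le.refl (M.hs u))), ?_⟩
  have hs := ((mLAP n M _ _ hu.sm hu.sm).2.2 _ hK.toMet).1
  have h3 := integral_mono (μ := M.mu H) (g := fun x => (1 + c) * n + M.lap H u x)
    (hi ℝ _ ((mINV n M H hK.toMet).1 _ hu.kae.toTen).2.1.continuous)
    (hi ℝ _ ((sm_const _).add hs).continuous) fun x => by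
      have := hK.toMet.tr_mono h1 x
      rw [tr_smul, hK.toMet.tr_self] at this
      beta_reduce
      rw [gE, tr_add, lap]
      linarith
  rw [integral_add (integrable_const _) (hi ℝ _ hs.continuous), integral_const,
    ((mGRN n M).2 H u u hK hu.sm hu.sm).1, smul_eq_mul] at h3
  linarith

end G91

theorem st_GPHI (hV : HS.St_VOL) : St_GPHI := by
  intro n M _ H hn hK
  have hL := mLAP
  obtain ⟨C₀, h0, hC₀⟩ := G91.base n M H hK
  obtain ⟨C₁, h1, hC₁, -⟩ := mPSH n M H C₀ hK.toMet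
  obtain ⟨-, hf, -, hv, hi, -⟩ := mMU n M H hK.toMet
  obtain ⟨m, hm⟩ : ∃ m, m = (M.mu H).real univ := ⟨_, rfl⟩
  rw [← hm] at hv hC₀
  have p1 : 0 < (Real.exp (-C₁ / m) * m)⁻¹ := by positivity
  have p2 : 0 ≤ C₀ * n * m := by positivity
  refine ⟨C₁ + (Real.exp (-C₁ / m) * m)⁻¹ + m + C₀ * n * m, by positivity, fun ε hε u hu => ?_⟩
  obtain ⟨y, hy⟩ := hu.sm.exists_max
  obtain ⟨hle, htr⟩ := hC₀ ε hε u hu
  obtain ⟨-, he, -, hp, -⟩ := (hV n M H hK).1 ε u hu
  have s1 : M.Sm fun x => u x - u y := hu.sm.sub (sm_const _)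
  have i1 := hi ℝ _ s1.continuous
  have i2 := hi ℝ _ hu.sm.exp.continuous
  have a1 : -C₁ ≤ ∫ x, (u x - u y) ∂M.mu H := by
    refine hC₁ _ s1 (fun e he z hz => ?_) (fun x => sub_nonpos.2 (hy x)) ⟨y, sub_self _⟩
    have := (hL n M u _ hu.sm (sm_const (u y))).1 (u y) e he z hz
    have h2 := hle e he z hz
    simp only [Pi.add_apply] at h2 ⊢
    rwa [this.2.2.1, this.1, sub_zero (M.hs u e z)]
  have a2 : ∫ x, (u y - u x) ∂M.mu H ≤ C₁ := by
    have := integral_neg (μ := M.mu H) fun x => u x - u y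
    simp only [neg_sub] at this
    linarith
  have a3 : Real.exp (u y) * (Real.exp (-C₁ / m) * m) ≤ M.vol H ε := by
    have h2 := integral_mono (μ := M.mu H) (f := fun x => Real.exp (u y) * Real.exp (-C₁ / m) *
      ((u x - u y) + (C₁ / m + 1))) ((i1.add (integrable_const _)).const_mul _) i2 fun x => by
        have := mul_le_mul_of_nonneg_left (Real.add_one_le_exp (u x - u y + C₁ / m))
          (Real.exp_pos (u y + -C₁ / m)).le
        rwa [← Real.exp_add, show u y + -C₁ / m + (u x - u y + C₁ / m) = u x by ring,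
          Real.exp_add, add_assoc] at this
    rw [he, integral_const_mul, integral_add i1 (integrable_const _), integral_const, ← hm,
      smul_eq_mul, mul_add m, mul_div_cancel₀ _ hv.ne', mul_assoc] at h2
    exact le_trans (mul_le_mul_of_nonneg_left (mul_le_mul_of_nonneg_left (by linarith)
      (Real.exp_pos _).le) (Real.exp_pos _).le) h2
  have a4 : M.vol H ε ≤ m * Real.exp (u y) := by
    have h2 := integral_mono (μ := M.mu H) i2 (integrable_const (Real.exp (u y)))
      fun x => Real.exp_le_exp.2 (hy x)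
    rwa [he, integral_const, ← hm] at h2
  refine ⟨HS.sol_ric mHES hK hu, by nlinarith, u y, hy, by linarith, fun x => ?_, fun x => ?_,
    fun L hL1 => ⟨?_, ?_⟩⟩
  · refine le_trans ?_ (show (Real.exp (-C₁ / m) * m)⁻¹ ≤ _ by linarith)
    rw [div_le_iff₀ hp, le_inv_mul_iff₀ (by positivity), mul_comm]
    exact (mul_le_mul_of_nonneg_right (Real.exp_le_exp.2 (hy x)) (by positivity)).trans a3
  · refine le_trans ?_ (mul_le_mul_of_nonneg_right (show m ≤ _ by linarith) (by positivity))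
    rw [Real.exp_sub, ← mul_div_assoc, div_le_div_iff₀ (Real.exp_pos _) hp, mul_comm m, mul_assoc]
    exact mul_le_mul_of_nonneg_left a4 (Real.exp_pos _).le
  · have h2 := mul_meas_ge_le_integral_of_nonneg (μ := M.mu H) (f := fun x => u y - u x)
      (Filter.Eventually.of_forall fun x => sub_nonneg.2 (hy x))
      (hi ℝ _ ((sm_const _).sub hu.sm).continuous) L
    rw [le_div_iff₀' (by linarith), show {x | u x - u y ≤ -L} = {x | L ≤ u y - u x} from
      Set.ext fun x => le_neg.trans (congrArg (L ≤ ·) (neg_sub (u x) (u y))).to_iff]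
    linarith
  · have hL0 : 0 < L := by linarith
    have c1 : ∀ x, ContDiffAt ℝ (⊤ : ℕ∞) (fun s => Real.exp ((s - u y) / L)) (u x) :=
      fun x => ((contDiffAt_id.sub contDiffAt_const).div_const L).exp
    have s2 : M.Sm fun x => Real.exp ((u x - u y) / L) := ((hL n M u u hu.sm hu.sm).2.1 _ c1).1
    have hu2 := (hL n M u u hu.sm hu.sm).2.2 H hK.toMet
    have h2 := ((mGRN n M).2 H u _ hK hu.sm s2).2.1
    have h3 : ∀ x, M.gr H u (fun x => Real.exp ((u x - u y) / L)) x =
        L⁻¹ * (Real.exp ((u x - u y) / L) * M.gr H u u x) := fun x => by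
      rw [(((hL n M u _ hu.sm s2).2.2 H hK.toMet).2.2.1 x 0).2.2.2.2.2.1, (hu2.2.2.2.1 _ c1 x).2,
        ((((hasDerivAt_id' (u x)).sub_const (u y)).div_const L).exp).deriv]
      ring
    simp only [h3, integral_const_mul] at h2
    have h4 := integral_mono (μ := M.mu H) (integrable_const (-(C₀ * n)))
      (hi ℝ _ (s2.mul hu2.1).continuous) fun x => by
        have h5 := hK.toMet.tr_nonneg hle x
        rw [tr_add, tr_smul, hK.toMet.tr_self] at h5
        have h6 : Real.exp ((u x - u y) / L) ≤ 1 :=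
          Real.exp_le_one_iff.2 (div_nonpos_of_nonpos_of_nonneg (sub_nonpos.2 (hy x)) hL0.le)
        have h7 : 0 ≤ C₀ * n := by positivity
        beta_reduce
        rw [lap]
        nlinarith [Real.exp_pos ((u x - u y) / L)]
    rw [h2, integral_const, ← hm, smul_eq_mul, mul_neg, neg_le_neg_iff, inv_mul_le_iff₀ hL0] at h4
    nlinarith

end Pool.Agent.Lib.GH
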