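import Pool.Agent.Lib.GH.Defs

/-! Project gh32: blueprint. -/

open scoped Classical Topology ContDiff ComplexOrder Matrix Manifold
open Set MeasureTheory Complex Metric Filter

noncomputable section

namespace Pool.Agent.Lib.GH

open Pool.Agent.Lib.SV (E Pluri)
open Pool.Agent.Lib.HS32

/-- From the statement to the manifold layer and back. -/
def St_GBR : Prop := ∀ (n : ℕ) (X : Type) [TopologicalSpace X] [ChartedSpace (E n) X]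
  [IsManifold 𝓘(ℂ, E n) ω X] [CompactSpace X] [T2Space X] [ConnectedSpace X] (g h : X → Mat n),
  Kaehler g → Hermitian h → (∀ x a v, curvAt h x a v ≤ 0) →
  ∃ (M : Mf n) (_ : M.Cpt) (H h' : M.Fam (Mat n)), M.Kae H ∧ M.Met h' ∧ M.Grf h' ∧
    (M.Semi → ∃ m : ℕ, 0 < m ∧ ∀ x : X, ∃ s ∈ Pluri n X m, s x ≠ 0)

/-! ### Linear algebra -/

/-- Inequalities between eigenvalues. -/
def St_GA1 : Prop := ∀ (n : ℕ) (G h : Mat n) (s : ℝ), G.PosDef → h.PosDef → 0 < s →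
  (G + s • h).PosDef ∧ (h * wmat G h s).PosSemidef ∧ (h - h * wmat G h s).PosSemidef ∧
  (G * wmat G h s).PosSemidef ∧ 1 - wmat G h s = (G + s • h)⁻¹ * G ∧
  0 ≤ (wmat G h s).trace.re ∧ (wmat G h s).trace.re ≤ n ∧
  0 ≤ (wmat G h s - wmat G h s * wmat G h s).trace.re ∧
  (wmat G h s - wmat G h s * wmat G h s).trace.re ≤ n ∧
  (wmat G h s - wmat G h s * wmat G h s).trace.re ≤
    2 * ((wmat G h (2 * s)).trace.re - (wmat G h s).trace.re) ∧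
  (∀ T : ℝ, 1 ≤ T → Real.log T * (wmat G h s).trace.re ≤
    Real.log ((G + (T * s) • h).det / G.det).re) ∧
  (∀ v, nq h ((wmat G h s - wmat G h s * wmat G h s) *ᵥ v) ≤
    (wmat G h s - wmat G h s * wmat G h s).trace.re * nq h v) ∧
  ∀ (A : Mat n) (c : ℝ), A.PosSemidef →
    ((G + s • h)⁻¹ * A).trace.re ≤ (G⁻¹ * A).trace.re ∧
    ((c • h - A).PosSemidef → s * ((G + s • h)⁻¹ * A).trace.re ≤ c * n)

/-- The gradient term controls the derivative of `W` and the torsion. -/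
def St_GA2 : Prop := ∀ (n : ℕ) (G h : Mat n) (s : ℝ) (D : Fin n → Mat n), G.PosDef → h.PosDef →
  0 < s → 0 ≤ (egr G h s D).re ∧
  (∀ a b, nq h (((1 - wmat G h s) * (∑ k, b k • D k) * wmat G h s) *ᵥ a) ≤
    nq G b * (egr G h s D).re * nq h a) ∧
  ∀ a b, nq h (((1 - wmat G h s) * ∑ k, (wmat G h s *ᵥ a) k • D k) *ᵥ b) ≤
    (n * s + (wmat G h s - wmat G h s * wmat G h s).trace.re ^ 2) * (1 + (h⁻¹ * G).trace.re) *
      (egr G h 1 D).re * nq h a * nq h b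

/-- Consequences of the sign of the curvature at a point. -/
def St_GA3 : Prop := ∀ (n : ℕ) (h : E n → Mat n) (z : E n), SmM h z → (∀ᶠ w in 𝓝 z, (h w).PosDef) →
  (∀ a v, (rm h z a a v v).re ≤ 0) →
  (∀ A : Mat n, (A * (h z)⁻¹).PosSemidef → (phf h A z).PosSemidef) ∧
  (hess (ld h) z).PosSemidef ∧
  ∀ P : Mat n, (h z * P).IsHermitian → P * P = P → ((h z)⁻¹ * phf h P z).trace = 0 →
    ∀ a b, th h a b z * P = 0

/-! ### Calculus -/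

/-- The curvature of a sum of two metrics, in coordinates. -/
def St_GSE : Prop := ∀ (n : ℕ) (G h : E n → Mat n) (s : ℝ) (z : E n), 0 < s → SmM G z → SmM h z →
  (∀ᶠ w in 𝓝 z, (G w).PosDef ∧ (h w).PosDef ∧ ClM G w) →
  ((G z)⁻¹ * (hess (ld fun w => G w + s • h w) z - hess (ld G) z)).trace =
    ((G z)⁻¹ * -hess (ld G) z).trace - ((G z + s • h z)⁻¹ * -hess (ld G) z).trace +
      ((G z)⁻¹ * phf h (wmat (G z) (h z) s) z).trace + egr (G z) (h z) s (fun k => df G h k z) ∧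
  SmM (fun w => wmat (G w) (h w) s) z ∧
  (∀ l, h z * dMb l (fun w => wmat (G w) (h w) s) z =
    -((1 - wmat (G z) (h z) s) * df G h l z * wmat (G z) (h z) s)ᴴ * h z) ∧
  ∀ a b, tors h z a b = -asy (fun k => df G h k z) a b

/-- The same on the manifold. -/
def St_GSUM : Prop := ∀ (n : ℕ) (M : Mf n) (G h : M.Fam (Mat n)) (s : ℝ), M.Kae G → M.Met h →
  M.Grf h → 0 < s →
  M.Met (G + s • h) ∧ M.End (M.ww G h s) ∧
  (M.All fun e z => (h e z * M.ww G h s e z).IsHermitian) ∧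
  M.Sm (M.ll G h s) ∧ M.Sm (M.yw G h s) ∧ M.Sm (M.tw G h s) ∧ M.Sm (M.rho G h s) ∧
  (∀ x, 0 ≤ M.yw G h s x ∧ 0 ≤ M.tw G h s x ∧ M.tw G h s x ≤ n ∧ 0 ≤ M.rho G h s x ∧
    M.rho G h s x ≤ n ∧ M.rho G h s x ≤ 2 * (M.tw G h (2 * s) x - M.tw G h s x)) ∧
  M.All fun e z => M.tw G h s (e.symm z) = (M.ww G h s e z).trace.re ∧
    M.rho G h s (e.symm z) = (M.ww G h s e z - M.ww G h s e z * M.ww G h s e z).trace.re ∧
    (phf (h e) (M.ww G h s e z) z).PosSemidef ∧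
    ((G e z)⁻¹ * phf (h e) (M.ww G h s e z) z).trace.re ≤ M.yw G h s (e.symm z) ∧
    (egr (G e z) (h e z) s fun k => df (G e) (h e) k z).re ≤ M.yw G h s (e.symm z)

/-- The inequality of Chern and Lu for a Hermitian target, and the sign of the Ricci form. -/
def St_GCL : Prop := ∀ (n : ℕ) (M : Mf n) (h : M.Fam (Mat n)), M.Met h → M.Grf h →
  M.Le 0 (-M.ric h) ∧ ∀ G, M.Kae G → 0 < n → M.Sm (M.tr G h) ∧ (∀ x, 0 < M.tr G h x) ∧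
    ∀ x, M.ip G h (M.ric G) x / M.tr G h x ≤ M.lap G (fun y => Real.log (M.tr G h y)) x

/-- Existence. -/
def St_GEX : Prop := ∀ (n : ℕ) (M : Mf n) [M.Cpt] (H h : M.Fam (Mat n)), 0 < n → M.Kae H →
  M.Met h → M.Grf h → (∀ ε : ℝ, 0 < ε → ∃ u, M.Sol H ε u) ∧
  ∀ B, M.Clo B → M.Le 0 B → ∀ ε : ℝ, 0 < ε → ∃ u, M.SolB H B ε u

/-- The normalized potentials, without any hypothesis on the curvature. -/
def St_GPHI : Prop := ∀ (n : ℕ) (M : Mf n) [M.Cpt] (H : M.Fam (Mat n)), 0 < n → M.Kae H →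
  ∃ C : ℝ, 0 < C ∧ ∀ ε ∈ Ioc (0 : ℝ) 1, ∀ u, M.Sol H ε u →
    (M.All fun e z => M.ric (M.gE H ε u) e z = ε • H e z - M.gE H ε u e z) ∧
    ∫ x, M.tr H (M.gE H ε u) x ∂M.mu H ≤ C ∧ ∃ a : ℝ, (∀ x, u x ≤ a) ∧
    ∫ x, (a - u x) ∂M.mu H ≤ C ∧ (∀ x, Real.exp (u x) / M.vol H ε ≤ C) ∧
    (∀ x, Real.exp (u x - a) ≤ C * (Real.exp (u x) / M.vol H ε)) ∧
    ∀ L : ℝ, 1 ≤ L → (M.mu H).real {x | u x - a ≤ -L} ≤ C / L ∧
      ∫ x, Real.exp ((u x - a) / L) * M.gr H u u x ∂M.mu H ≤ C * L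

/-! ### Moments and the limit -/

/-- The mean of the trace of `W` is at most `k` in the limit. -/
def St_GUP : Prop := ∀ (n : ℕ) (M : Mf n) [M.Cpt] (H h : M.Fam (Mat n)) (k : ℕ), M.Kae H →
  M.Met h → M.Ord H k → ∀ t κ : ℝ, 0 < t → 0 < κ → ∀ᶠ ε in 𝓝[>] (0 : ℝ), ∀ u, M.Sol H ε u →
    M.av H ε u (M.tw (M.gE H ε u) h (t * ε)) ≤ k + κ

/-- The integrated identity. -/
def St_GKEY : Prop := ∀ (n : ℕ) (M : Mf n) [M.Cpt] (H h : M.Fam (Mat n)) (k : ℕ), 0 < n →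
  M.Kae H → M.Met h → M.Grf h → M.Ord H k → ∃ C : ℝ, 0 < C ∧
  (∀ ε ∈ Ioc (0 : ℝ) 1, ∀ u, M.Sol H ε u → M.av H ε u (M.yw (M.gE H ε u) h 1) ≤ n) ∧
  ∀ κ : ℝ, 0 < κ → ∀ᶠ ε in 𝓝[>] (0 : ℝ), ∀ u, M.Sol H ε u → ∀ t : ℝ, 0 < t →
    M.av H ε u (M.yw (M.gE H ε u) h (t * ε)) ≤
      M.av H ε u (M.tw (M.gE H ε u) h (t * ε)) - k + κ + C / t

/-- The diagonal sequence. -/
def St_GSQ : Prop := ∀ (n : ℕ) (M : Mf n) [M.Cpt] (H h : M.Fam (Mat n)), 0 < n → M.Kae H →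
  M.Met h → M.Grf h → ∃ k ε s u, M.Ord H k ∧ M.Sq H h k ε s u

/-- Calculus of null and tight sequences. -/
def St_GME : Prop := ∀ (X : Type) [MeasurableSpace X] (μ : Measure X) [IsFiniteMeasure μ]
  (a b : ℕ → X → ℝ),
  (Nl μ b → (∀ j x, a j x ≤ b j x) → Nl μ a) ∧ (Tg μ b → (∀ j x, a j x ≤ b j x) → Tg μ a) ∧
  (Nl μ a → Nl μ b → Nl μ fun j x => a j x + b j x) ∧
  (Tg μ a → Tg μ b → Tg μ fun j x => a j x + b j x) ∧
  ((∀ j x, 0 ≤ a j x) → (∀ j x, 0 ≤ b j x) → (Nl μ a → Tg μ b → Nl μ fun j x => a j x * b j x) ∧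
    (Tg μ a → Tg μ b → Tg μ fun j x => a j x * b j x)) ∧
  (∀ c : ℕ → ℝ, Tendsto c atTop (𝓝 0) → Nl μ fun j _ => c j) ∧ (∀ c : ℝ, Tg μ fun _ _ => c) ∧
  ((∀ j x, 0 ≤ a j x) → (∀ j, Integrable (a j) μ) →
    (Tendsto (fun j => ∫ x, a j x ∂μ) atTop (𝓝 0) → Nl μ a) ∧
    ∀ C : ℝ, (∀ j, ∫ x, a j x ∂μ ≤ C) → Tg μ a)

/-- The null and tight quantities of the diagonal sequence. -/
def St_GNT : Prop := ∀ (n : ℕ) (M : Mf n) [M.Cpt] (H h : M.Fam (Mat n)) (k : ℕ) (ε s : ℕ → ℝ)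
  (u : ℕ → M.X → ℝ), 0 < n → M.Kae H → M.Met h → M.Grf h → M.Sq H h k ε s u →
  Nl (M.mu H) (fun j => M.yw (M.gE H (ε j) (u j)) h (s j)) ∧
  Nl (M.mu H) (fun j => M.rho (M.gE H (ε j) (u j)) h (s j)) ∧
  Tg (M.mu H) (fun j => M.tr h (M.gE H (ε j) (u j))) ∧
  Tg (M.mu H) (fun j => M.yw (M.gE H (ε j) (u j)) h 1)

/-- Local bounds for the fields and their `(0,1)` derivatives. -/
def St_GDB : Prop := ∀ (n : ℕ) (M : Mf n) [M.Cpt] (H h : M.Fam (Mat n)), M.Kae H → M.Met h →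
  M.Grf h → ∀ e ∈ M.C, ∀ K : Set (E n), IsCompact K → K ⊆ e.target → ∃ C : ℝ, 0 < C ∧
    (∀ f, M.Sm f → ∀ z ∈ K, ∀ l, ‖dzb l (M.lc f e) z‖ ^ 2 ≤ C * M.gr H f f (e.symm z)) ∧
    ∀ G s, M.Kae G → 0 < s → ∀ z ∈ K, ∀ i j, ‖M.ww G h s e z i j‖ ≤ C ∧
      ∀ l, ‖dMb l (M.ww G h s e) z i j‖ ^ 2 ≤ C * (M.tr H G (e.symm z) * M.yw G h s (e.symm z))

/-- The local holomorphic limit. -/
def St_GLOC : Prop := ∀ (n : ℕ) (M : Mf n) [M.Cpt] (H h : M.Fam (Mat n)) (k : ℕ) (ε s : ℕ → ℝ)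
  (u : ℕ → M.X → ℝ) (l : Ultrafilter ℕ), 0 < n → M.Kae H → M.Met h → M.Grf h →
  M.Sq H h k ε s u → (l : Filter ℕ) ≤ atTop → ∀ e ∈ M.C, ∀ (c : E n) (ρ : ℝ),
  closedBall c ρ ⊆ e.target →
  ∃ P : E n → Mat n, (∀ i j, DifferentiableOn ℂ (fun z => P z i j) (ball c ρ)) ∧
    ∀ K : Set (E n), IsCompact K → K ⊆ ball c ρ → ∀ i j,
      Tendsto (fun a => ∫ z in K, ‖(M.wsq H h ε s u a e z - P z) i j‖) l (𝓝 0)

/-- A null continuous expression vanishes in the limit. -/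
def St_GLIM : Prop := ∀ (n : ℕ) (M : Mf n) [M.Cpt] (H h P : M.Fam (Mat n))
  (A : ℕ → M.Fam (Mat n)) (l : Filter ℕ) [l.NeBot] (b : ℕ → M.X → ℝ), M.Met H → M.Met h →
  l ≤ atTop → (∀ j, M.End (A j)) → M.End P → M.L1c h l A P → Nl (M.mu H) b →
  ∀ e ∈ M.C, ∀ (Ψ : E n × Mat n → ℝ), ContinuousOn Ψ (e.target ×ˢ univ) →
  (∀ j, ∀ z ∈ e.target, Ψ (z, A j e z) ≤ b j (e.symm z)) → ∀ z ∈ e.target, Ψ (z, P e z) ≤ 0

/-- A holomorphic self-adjoint field is parallel. -/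
def St_GPAR : Prop := ∀ (n : ℕ) (M : Mf n) [M.Cpt] (h P : M.Fam (Mat n)), M.Met h → M.HolSA h P →
  (M.All fun e z => ∀ i, dM i (P e) z = P e z * gam (h e) i z - gam (h e) i z * P e z) ∧
  (M.All fun e z => ∀ a b, th (h e) a b z * P e z = P e z * th (h e) a b z) ∧
  ∃ c : ℝ, M.All fun e z => (P e z).trace = c

/-- The limit is a projection of rank `k`. -/
def St_GPRJ : Prop := ∀ (n : ℕ) (M : Mf n) [M.Cpt] (H h P : M.Fam (Mat n)) (k : ℕ) (ε s : ℕ → ℝ)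
  (u : ℕ → M.X → ℝ) (l : Filter ℕ) [l.NeBot], 0 < n → M.Kae H → M.Met h → M.Grf h →
  M.Sq H h k ε s u → l ≤ atTop → M.HolSA h P → M.L1c h l (M.wsq H h ε s u) P →
  (M.All fun e z => P e z * P e z = P e z) ∧
    ∀ t : ℝ, M.All fun e z => (1 + t • P e z).det = ((1 + t : ℝ) : ℂ) ^ k

/-- The curvature vanishes on the image of the limit. -/
def St_GFLT : Prop := ∀ (n : ℕ) (M : Mf n) [M.Cpt] (H h P : M.Fam (Mat n)) (k : ℕ) (ε s : ℕ → ℝ)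
  (u : ℕ → M.X → ℝ) (l : Filter ℕ) [l.NeBot], 0 < n → M.Kae H → M.Met h → M.Grf h →
  M.Sq H h k ε s u → l ≤ atTop → M.HolSA h P → M.L1c h l (M.wsq H h ε s u) P →
  (M.All fun e z => P e z * P e z = P e z) → M.All fun e z => ∀ a b, th (h e) a b z * P e z = 0

/-- The component of the torsion orthogonal to the image. -/
def St_GT2 : Prop := ∀ (n : ℕ) (M : Mf n) [M.Cpt] (H h P : M.Fam (Mat n)) (k : ℕ) (ε s : ℕ → ℝ)
  (u : ℕ → M.X → ℝ) (l : Filter ℕ) [l.NeBot], 0 < n → M.Kae H → M.Met h → M.Grf h →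
  M.Sq H h k ε s u → l ≤ atTop → M.HolSA h P → M.L1c h l (M.wsq H h ε s u) P →
  M.All fun e z => ∀ a b, (1 - P e z) *ᵥ tors (h e) z (P e z *ᵥ a) b = 0

/-- The component of the torsion in the image. -/
def St_GT1 : Prop := ∀ (n : ℕ) (M : Mf n) [M.Cpt] (H h P : M.Fam (Mat n)) (k : ℕ), M.Kae H →
  M.Met h → M.Fl0 h P k → M.All fun e z => ∀ a b, P e z *ᵥ tors (h e) z a b = 0

/-! ### Product structure and positivity -/

/-- Product charts for a Hermitian metric. -/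
def St_GPRD : Prop := ∀ (n : ℕ) (M : Mf n) (h P : M.Fam (Mat n)) (k : ℕ), M.Met h →
  M.Fl1 h P k → M.PA h P k ∧ M.Clo (h * P) ∧ M.Le 0 (h * P) ∧ M.Le (h * P) h ∧
    M.All fun e z => M.ric h e z * P e z = 0

/-- The twisted class has positive volume. -/
def St_GBIG : Prop := ∀ (n : ℕ) (M : Mf n) [M.Cpt] (H h P : M.Fam (Mat n)) (k : ℕ), M.Kae H →
  M.Met h → M.Grf h → M.Fl1 h P k → M.Ord H k → ∃ c C : ℝ, 0 < c ∧
    ∀ ε ∈ Ioc (0 : ℝ) 1, ∀ u, M.SolB H (h * P) ε u →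
      c ≤ (M.mu (M.gB H (h * P) ε u)).real univ ∧
      ∫ x, M.dq (M.gB H (h * P) ε u) (M.gB H (h * P) ε u + H) x ∂M.mu (M.gB H (h * P) ε u) ≤ C

/-- The Schwarz lemma and polynomial bounds for the twisted equation. -/
def St_GSB : Prop := ∀ (n : ℕ) (M : Mf n) [M.Cpt] (H h B : M.Fam (Mat n)), 0 < n → M.Kae H →
  M.Met h → M.Grf h → M.Clo B → M.Le 0 B → ∃ C : ℝ, 1 ≤ C ∧ ∀ ε ∈ Ioc (0 : ℝ) 1, ∀ u,
    M.SolB H B ε u →
    (M.All fun e z => M.ric (M.gB H B ε u) e z = ε • H e z + B e z - M.gB H B ε u e z) ∧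
    (∀ x, -1 ≤ M.lap (M.gB H B ε u) (fun y => Real.log (M.tr (M.gB H B ε u) h y)) x) ∧
    M.Le ((ε / C) • H) (M.gB H B ε u) ∧ M.Le (M.gB H B ε u) ((C * ε⁻¹ ^ n) • H) ∧
    (∀ x, n * Real.log (ε / C) ≤ u x ∧ u x ≤ C) ∧
    ∀ f : M.X → ℝ, ∫ x, f x ∂M.mu (M.gB H B ε u) = ∫ x, f x * Real.exp (u x) ∂M.mu H

/-- Polynomial bound for the gradient of the trace. -/
def St_GGR : Prop := ∀ (n : ℕ) (M : Mf n) [M.Cpt] (H h B : M.Fam (Mat n)), 0 < n → M.Kae H →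
  M.Met h → M.Grf h → M.Clo B → M.Le 0 B → ∃ (C : ℝ) (N : ℕ), 1 ≤ C ∧ ∀ ε ∈ Ioc (0 : ℝ) 1, ∀ u,
    M.SolB H B ε u → ∀ x, M.gr H (M.tr (M.gB H B ε u) h) (M.tr (M.gB H B ε u) h) x ≤
      (C * ε⁻¹ ^ N) ^ 2

/-- The trace is small. -/
def St_GSM : Prop := ∀ (n : ℕ) (M : Mf n) [M.Cpt] (H h B : M.Fam (Mat n)) (c C : ℝ), 0 < n →
  M.Kae H → M.Met h → M.Grf h → M.Clo B → M.Le 0 B → 0 < c →
  (∀ ε ∈ Ioc (0 : ℝ) 1, ∀ u, M.SolB H B ε u → c ≤ (M.mu (M.gB H B ε u)).real univ ∧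
    ∫ x, M.dq (M.gB H B ε u) (M.gB H B ε u + H) x ∂M.mu (M.gB H B ε u) ≤ C) →
  ∀ᶠ ε in 𝓝[>] (0 : ℝ), ∀ u, M.SolB H B ε u → ∀ x, ε * M.tr (M.gB H B ε u) H x < 1

/-- The canonical metric in the twisted class. -/
def St_GKE : Prop := ∀ (n : ℕ) (M : Mf n) [M.Cpt] (H h B : M.Fam (Mat n)) (ε : ℝ) (u : M.X → ℝ),
  0 < n → M.Kae H → M.Met h → M.Clo B → 0 < ε → M.SolB H B ε u →
  (∀ x, ε * M.tr (M.gB H B ε u) H x < 1) →
  ∃ v, M.Sm v ∧ M.Kae (B + M.theta h v) ∧ ∀ x, M.dq h (B + M.theta h v) x = Real.exp (v x)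

/-- The potential is constant along the flat directions. -/
def St_GUT : Prop := ∀ (n : ℕ) (M : Mf n) [M.Cpt] (h P : M.Fam (Mat n)) (k : ℕ) (v : M.X → ℝ),
  M.Met h → M.Fl1 h P k → M.PA h P k → M.Sm v → M.Kae (h * P + M.theta h v) →
  (∀ x, M.dq h (h * P + M.theta h v) x = Real.exp (v x)) →
  M.All fun e z => M.hs v e z * P e z = 0

/-- The input of sections 4 and 5 of the project hs9. -/
def St_GPOS : Prop := ∀ (n : ℕ) (M : Mf n) [M.Cpt] (h P : M.Fam (Mat n)) (k : ℕ) (v : M.X → ℝ),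
  M.Met h → M.Fl1 h P k → M.PA h P k → M.Sm v → M.Kae (h * P + M.theta h v) →
  (∀ x, M.dq h (h * P + M.theta h v) x = Real.exp (v x)) →
  (M.All fun e z => M.theta h v e z * P e z = 0) →
  ∃ G, M.Pos (h * P + M.theta h v) P k (fun _ => 0) G

/-- The flat field. -/
theorem fl1_of (hSQ : St_GSQ) (hSUM : St_GSUM) (hLOC : St_GLOC) (hGLUE : HS.St_GLUE)
    (hPAR : St_GPAR) (hPRJ : St_GPRJ) (hFLT : St_GFLT) (hT1 : St_GT1) (hT2 : St_GT2) {n : ℕ}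
    (M : Mf n) [M.Cpt] {H h : M.Fam (Mat n)} (hn : 0 < n) (hH : M.Kae H) (hh : M.Met h)
    (hg : M.Grf h) : ∃ P k, M.Ord H k ∧ M.Fl1 h P k := by
  obtain ⟨k, ε, s, u, ho, hs⟩ := hSQ n M H h hn hH hh hg
  have hl : (hyperfilter ℕ : Filter ℕ) ≤ atTop := Nat.hyperfilter_le_atTop
  obtain ⟨P, hP, hL⟩ := hGLUE n M h ℕ (hyperfilter ℕ) (M.wsq H h ε s u) hh
    (Eventually.of_forall fun j =>
      let a := hSUM n M _ h (s j) (hs.sol j).kae hh hg (hs.pos j)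
      ⟨a.2.1, a.2.2.1⟩)
    (hLOC n M H h k ε s u (hyperfilter ℕ) hn hH hh hg hs hl)
  obtain ⟨p1, p2, -⟩ := hPAR n M h P hh hP
  obtain ⟨p3, p4⟩ := hPRJ n M H h P k ε s u _ hn hH hh hg hs hl hP hL
  have p5 := hFLT n M H h P k ε s u _ hn hH hh hg hs hl hP hL p3
  have f0 : M.Fl0 h P k := ⟨hP, ho.1, p1, p3, p4, p5, fun e he z hz a b =>
    (p2 e he z hz a b).symm.trans (p5 e he z hz a b)⟩
  have p6 := hT1 n M H h P k hH hh f0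
  refine ⟨P, k, ho, f0, p6, fun e he z hz a b => ?_⟩
  have p7 := hT2 n M H h P k ε s u _ hn hH hh hg hs hl hP hL e he z hz a b
  rwa [Matrix.sub_mulVec, Matrix.one_mulVec, p6 e he z hz, sub_zero] at p7

theorem semi_of (hFL : ∀ {n : ℕ} (M : Mf n) [M.Cpt] {H h : M.Fam (Mat n)}, 0 < n → M.Kae H →
      M.Met h → M.Grf h → ∃ P k, M.Ord H k ∧ M.Fl1 h P k)
    (hEX : St_GEX) (hPRD : St_GPRD) (hBIG : St_GBIG) (hSM : St_GSM) (hKE : St_GKE) (hUT : St_GUT)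
    (hPOS : St_GPOS) (h4 : HS.St_SEC4) (h5 : HS.St_PEAK) {n : ℕ} (M : Mf n) [M.Cpt]
    {H h : M.Fam (Mat n)} (hn : 0 < n) (hH : M.Kae H) (hh : M.Met h) (hg : M.Grf h) : M.Semi := by
  obtain ⟨P, k, ho, hf⟩ := hFL M hn hH hh hg
  obtain ⟨a1, a2, a3, -, a4⟩ := hPRD n M h P k hh hf
  obtain ⟨c, C, hc, hb⟩ := hBIG n M H h P k hH hh hg hf ho
  obtain ⟨ε, h1, hε⟩ :=
    ((hSM n M H h _ c C hn hH hh hg a2 a3 hc hb).and self_mem_nhdsWithin).exists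
  obtain ⟨u, hu⟩ := (hEX n M H h hn hH hh hg).2 _ a2 a3 ε hε
  obtain ⟨v, v1, v2, v3⟩ := hKE n M H h _ ε u hn hH hh a2 hε hu (h1 u hu)
  have v4 := hUT n M h P k v hh hf a1 v1 v2 v3
  obtain ⟨G, hG⟩ := hPOS n M h P k v hh hf a1 v1 v2 v3 fun e he z hz => by
    simp only [Mf.theta, Pi.sub_apply]
    rw [sub_mul, v4 e he z hz, a4 e he z hz, sub_self]
  exact h5 n M _ _ hn hG.kH hG.sm hG.psd (h4 n M _ P G k _ hn hG)

theorem main_of (hBR : St_GBR) (hS : ∀ {n : ℕ} (M : Mf n) [M.Cpt] {H h : M.Fam (Mat n)}, 0 < n →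
      M.Kae H → M.Met h → M.Grf h → M.Semi)
    (n : ℕ) (X : Type) [TopologicalSpace X] [ChartedSpace (E n) X] [IsManifold 𝓘(ℂ, E n) ω X]
    [CompactSpace X] [T2Space X] [ConnectedSpace X] (g h : X → Mat n) (hg : Kaehler g)
    (hh : Hermitian h) (hc : ∀ x a v, curvAt h x a v ≤ 0) :
    ∃ m : ℕ, 0 < m ∧ ∀ x : X, ∃ s ∈ Pluri n X m, s x ≠ 0 := by
  obtain ⟨M, hM, H, h', h1, h2, h3, h4⟩ := hBR n X g h hg hh hc
  refine h4 ?_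
  rcases Nat.eq_zero_or_pos n with rfl | hn
  · refine ⟨1, one_pos, fun x => ⟨fun _ _ => 1, ⟨⟨fun _ _ _ _ => contDiffAt_const,
      fun _ _ _ _ _ _ _ => by simp⟩, fun _ _ _ _ => differentiableAt_const _⟩, one_ne_zero⟩⟩
  · exact hS M hn h1 h2 h3

end Pool.Agent.Lib.GH
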