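import Pool.Agent.Lib.HS85.Prod

/-! The local product structure given by a flat parallel projection for a Hermitian metric whose
torsion vanishes along the image of the projection. -/

open scoped Topology ComplexOrder Matrix
open Set Filter Metric

noncomputable section

namespace Pool.Agent.GH85

open Pool.Agent.Lib.SV (E)
open Pool.Agent.Lib.HS32 Pool.Agent.HS85

variable {n : ℕ}

/-- The hypotheses at a point of the coordinate space. -/
structure FlH (H P : E n → Mat n) (z : E n) : Prop where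
  sH : SmM H z
  sP : SmM P z
  pos : (H z).PosDef
  ta : ∀ i j k, (P z * gam H k z) i j = (P z * gam H j z) i k
  tb : ∀ i j l, ∑ k, gam H k z i j * P z k l = (gam H j z * P z) i l
  hol : ∀ l, dMb l P z = 0
  herm : (H z * P z).IsHermitian
  par : ∀ i, dM i P z = P z * gam H i z - gam H i z * P z
  idem : P z * P z = P z
  flat : ∀ a b, th H a b z * P z = 0

variable {H P : E n → Mat n} {z : E n}

theorem FlH.det (h : FlH H P z) : (H z).det ≠ 0 := h.pos.det_pos.ne'

theorem FlH.dMH (h : FlH H P z) (k : Fin n) : dM k H z = H z * gam H k z := by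
  rw [gam, Matrix.mul_nonsing_inv_cancel_left _ _ h.det.isUnit]

theorem flat_op (h' : ∀ᶠ w in 𝓝 z, FlH H P w) :
    FlatAt (fun w => lin fun k => op (P w * gam H k w)) (fun w => op (P w)) z ∧
    op (P z) * op (P z) = op (P z) ∧
    (∀ ξ η, (lin fun k => op (P z * gam H k z)) ξ η = (lin fun k => op (P z * gam H k z)) η ξ) ∧
    ∀ ξ η, fderiv ℂ (fun w => op (P w)) z (op (P z) ξ) (op (P z) η) =
      fderiv ℂ (fun w => op (P w)) z (op (P z) η) (op (P z) ξ) := by
  have h := h'.self_of_nhds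
  have hg : ∀ k, SmM (gam H k) z := h.sH.gam h.det
  have hb : ∀ k l, dMb l (fun w => P w * gam H k w) z = 0 := by
    intro k l
    have a1 : dMb l (dM k P) z = 0 := by
      rw [← dM_dMb h.sP, dM_congr (T := fun _ => 0) (h'.mono fun w hw => hw.hol l), dM_const]
    have a2 := h.flat k l
    rw [th, neg_mul, neg_eq_zero] at a2
    rw [dMb_congr (h'.mono fun w hw => hw.par k), dMb_sub (h.sP.mul (hg k)) ((hg k).mul h.sP),
      dMb_mul (hg k) h.sP, a2, h.hol, mul_zero, add_zero, sub_zero] at a1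
    exact a1
  have hL := hasFDerivAt_lin fun k => hasFDerivAt_op (h.sP.mul (hg k)) (hb k)
  have hP := hasFDerivAt_op h.sP h.hol
  have hpp : op (P z) * op (P z) = op (P z) := by rw [← map_mul, h.idem]
  set Γ : E n →L[ℂ] E n →L[ℂ] E n := lin fun k => op (gam H k z) with hΓ
  have hΓs : ∀ ξ η, Γ (op (P z) ξ) η = Γ η (op (P z) ξ) := by
    intro ξ η
    funext i
    have a1 : ∀ j l, ∑ k, gam H k z i j * P z k l = ∑ k, gam H j z i k * P z k l := fun j l =>
      h.tb i j l
    have a2 : Γ (op (P z) ξ) η i = ∑ j, ∑ l, η j * ξ l * ∑ k, gam H k z i j * P z k l := by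
      simp only [hΓ, lin_apply, sum_apply, smul_apply, op_apply, Finset.sum_apply, Pi.smul_apply,
        Matrix.mulVec, dotProduct, smul_eq_mul, Finset.mul_sum, Finset.sum_mul]
      rw [Finset.sum_comm]
      refine Finset.sum_congr rfl fun j _ => ?_
      rw [Finset.sum_comm]
      exact Finset.sum_congr rfl fun k _ => Finset.sum_congr rfl fun l _ => by ring
    rw [a2]
    simp only [a1, hΓ, lin_apply, sum_apply, smul_apply, op_apply, Finset.sum_apply, Pi.smul_apply,
      Matrix.mulVec, dotProduct, smul_eq_mul, Finset.mul_sum]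
    refine Finset.sum_congr rfl fun j _ => ?_
    rw [Finset.sum_comm]
    exact Finset.sum_congr rfl fun k _ => Finset.sum_congr rfl fun l _ => by ring
  have e1 : ∀ ξ, (lin fun k => op (P z * gam H k z)) ξ = op (P z) * Γ ξ := fun ξ => by
    simp only [hΓ, lin_apply, map_mul, Finset.mul_sum, mul_smul']
  have e2 : ∀ ξ, fderiv ℂ (fun w => op (P w)) z ξ = op (P z) * Γ ξ - Γ ξ * op (P z) := fun ξ => by
    simp only [hP.fderiv, hΓ, lin_apply, h.par, map_sub, map_mul, Finset.mul_sum, Finset.sum_mul,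
      mul_smul', smul_mul', smul_sub, Finset.sum_sub_distrib]
  have e3 : ∀ l k, P z * (dM l (fun w => P w * gam H k w) z + P z * gam H l z * (P z * gam H k z)) =
      P z * ((H z)⁻¹ * dM l (dM k H) z) := by
    intro l k
    rw [dM_congr (h'.mono fun w hw => hw.dMH k), dM_mul h.sH (hg k), h.dMH, Matrix.mul_assoc (H z),
      ← Matrix.mul_add (H z), Matrix.nonsing_inv_mul_cancel_left _ _ h.det.isUnit,
      dM_mul h.sP (hg k), h.par]
    have a1 : ∀ A : Mat n, P z * (P z * A) = P z * A := fun A => by rw [← Matrix.mul_assoc, h.idem]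
    simp only [Matrix.mul_add, Matrix.sub_mul, Matrix.mul_sub, Matrix.mul_assoc, a1]
    abel
  have e4 : ∀ ξ η, op (P z) * (fderiv ℂ (fun w => lin fun k => op (P w * gam H k w)) z ξ η +
      (lin fun k => op (P z * gam H k z)) ξ * (lin fun k => op (P z * gam H k z)) η) =
      ∑ l, ∑ k, (ξ l * η k) • op (P z * ((H z)⁻¹ * dM l (dM k H) z)) := by
    intro ξ η
    rw [hL.fderiv]
    simp only [← e3, lin_apply, sum_apply, smul_apply, map_mul, map_add, Finset.sum_mul,
      Finset.mul_sum, Finset.smul_sum, mul_add, smul_add, Finset.sum_add_distrib, mul_smul',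
      smul_mul', smul_smul]
    congr 1
    rw [Finset.sum_comm]
  refine ⟨⟨hL.differentiableAt, hP.differentiableAt, fun ξ => ?_, fun ξ η => ?_⟩, hpp,
    fun ξ η => ?_, fun ξ η => ?_⟩
  · rw [e1, e2, mul_sub, mul_sub, mul_one]
    simp only [← mul_assoc, hpp]
  · rw [e4, e4, Finset.sum_comm]
    simp only [dM_dM h.sH, mul_comm (η _)]
  · beta_reduce
    funext i
    simp only [lin_apply, sum_apply, smul_apply, op_apply, Finset.sum_apply, Pi.smul_apply,
      Matrix.mulVec, dotProduct, smul_eq_mul, Finset.mul_sum]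
    rw [Finset.sum_comm]
    exact Finset.sum_congr rfl fun k _ => Finset.sum_congr rfl fun j _ => by rw [h.ta]; ring
  · have a1 : ∀ v, op (P z) (op (P z) v) = op (P z) v := fun v => DFunLike.congr_fun hpp v
    simp only [e2, sub_apply, mul_apply_eq_comp, a1]
    rw [hΓs]

/-- The product chart in coordinates. -/
theorem prod_loc (hC : St_CHN) {x : E n} {k : ℕ} (hk : k ≤ n) (h : ∀ᶠ z in 𝓝 x, FlH H P z)
    (hd : (1 + (1 : ℝ) • P x).det = ((1 + 1 : ℝ) : ℂ) ^ k) :
    ∃ χ : E n → E n, IsUnit (fderiv ℂ χ x) ∧ ∀ᶠ z in 𝓝 x, DifferentiableAt ℂ χ z ∧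
      jm χ z * P z = pr k * jm χ z ∧ H z * P z = (jm χ z)ᴴ * pr k * jm χ z := by
  have hx := h.self_of_nhds
  obtain ⟨U, hU1, hU2⟩ := adapt hk hx.pos hx.herm hx.idem hd
  have hU0 : U.det ≠ 0 := fun h0 => hx.det (by rw [← hU1, Matrix.det_mul, h0, mul_zero])
  have hUu : IsUnit (op U) := ((Matrix.isUnit_iff_isUnit_det U).2 hU0.isUnit).map op
  obtain ⟨χ, hχx, hχ⟩ := chart (h.eventually_nhds.mono fun _ hz => flat_op hz) (π := op (pr k)) hUu
    (by rw [← map_mul, pr_mul_pr]) (by rw [← map_mul, ← map_mul, hU2])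
  refine ⟨χ, hχx ▸ hUu, ?_⟩
  set K := jm χ with hK
  have hKx : K x = U := op.injective (by rw [op_jm, hχx])
  have h1 : ∀ᶠ z in 𝓝 x, SmM K z ∧ (∀ l, dMb l K z = 0) ∧ K z * P z = pr k * K z ∧
      ∀ i, dM i (fun w => pr k * K w) z = pr k * K z * (P z * gam H i z) := by
    filter_upwards [hχ, hχ.eventually_nhds] with z h1 h2
    obtain ⟨-, a1, -, a2, -⟩ := hC n χ z (h2.mono fun w hw => hw.1)
    refine ⟨a1, a2, op.injective (by simpa only [map_mul, hK, op_jm] using h1.2.1), fun i => ?_⟩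
    have a3 := hasFDerivAt_op ((smM_const (pr k)).mul a1) fun l => by
      rw [dMb_mul (smM_const _) a1, a2, dMb_const, zero_mul, mul_zero, add_zero]
    have a4 := h1.2.2 (Pi.single i 1)
    simp only [map_mul, op_jm] at a3
    rw [a3.fderiv, lin_single, lin_single] at a4
    exact op.injective (by simpa only [map_mul, hK, op_jm] using a4)
  have h2 : ∀ᶠ z in 𝓝 x, (K z).det ≠ 0 := h1.self_of_nhds.1.ev_det (hKx ▸ hU0)
  set e : E n → Mat n := fun w => (K w)⁻¹ * pr k with he
  have h3 : ∀ᶠ z in 𝓝 x, SmM e z ∧ K z * e z = pr k ∧ pr k * K z * e z = pr k ∧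
      e z * (pr k * K z) = P z ∧ P z * e z = e z := by
    filter_upwards [h1, h2] with z a1 a2
    have a3 : K z * e z = pr k := Matrix.mul_nonsing_inv_cancel_left _ _ a2.isUnit
    have a4 : pr k * K z * e z = pr k := by rw [Matrix.mul_assoc, a3, pr_mul_pr]
    have a5 : e z * (pr k * K z) = P z := by
      simp only [he]
      rw [Matrix.mul_assoc, ← Matrix.mul_assoc (pr k), pr_mul_pr, ← a1.2.2.1,
        Matrix.nonsing_inv_mul_cancel_left _ _ a2.isUnit]
    refine ⟨(a1.1.inv a2).mul (smM_const _), a3, a4, a5, ?_⟩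
    rw [← a5, Matrix.mul_assoc, a4]
    simp only [he]
    rw [Matrix.mul_assoc, pr_mul_pr]
  have hex : U * e x = pr k := hKx ▸ h3.self_of_nhds.2.1
  clear_value e
  have h4 : ∀ᶠ z in 𝓝 x, SmM (fun w => (e w)ᴴ * (H w * e w)) z ∧
      ∀ i, dM i (fun w => (e w)ᴴ * (H w * e w)) z = 0 := by
    filter_upwards [h, h1, h2, h3, h3.eventually_nhds] with z a0 a1 a2 a3 a4
    refine ⟨a3.1.ct.mul (a0.sH.mul a3.1), fun i => ?_⟩
    have b1 : dMb i e z = 0 := by
      have := dMb_mul (k := i) a1.1 a3.1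
      rw [dMb_congr (a4.mono fun w hw => hw.2.1), dMb_const, a1.2.1, zero_mul, zero_add] at this
      rw [← Matrix.nonsing_inv_mul_cancel_left _ (dMb i e z) a2.isUnit, ← this, mul_zero]
    have b2 : P z * (gam H i z * e z + dM i e z) = 0 := by
      have := dM_mul (k := i) ((smM_const (pr k)).mul a1.1) a3.1
      rw [dM_congr (a4.mono fun w hw => hw.2.2.1), dM_const, a1.2.2.2] at this
      have b3 := congrArg (fun A => e z * A) this
      simp only [Matrix.mul_add, mul_zero] at b3
      rw [← Matrix.mul_assoc (e z), ← Matrix.mul_assoc (e z), ← Matrix.mul_assoc (e z) _ (dM i e z),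
        a3.2.2.2.1, ← Matrix.mul_assoc (P z), a0.idem] at b3
      rw [Matrix.mul_add, ← Matrix.mul_assoc, b3]
    have b3 : (e z)ᴴ * H z = (e z)ᴴ * H z * P z := by
      rw [Matrix.mul_assoc, ← a0.herm.eq, Matrix.conjTranspose_mul, ← Matrix.mul_assoc,
        ← Matrix.conjTranspose_mul, a3.2.2.2.2, a0.pos.1.eq]
    rw [dM_mul a3.1.ct (a0.sH.mul a3.1), dM_ct a3.1, b1, dM_mul a0.sH a3.1, a0.dMH,
      Matrix.mul_assoc (H z), ← Matrix.mul_add (H z), ← Matrix.mul_assoc (e z)ᴴ, b3,
      Matrix.mul_assoc _ (P z), b2]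
    simp
  have h5 : ∀ᶠ z in 𝓝 x, (e z)ᴴ * (H z * e z) = pr k := by
    have a0 : ∀ᶠ z in 𝓝 x, ((e z)ᴴ * (H z * e z)).IsHermitian := by
      filter_upwards [h] with z hz
      rw [← Matrix.mul_assoc]
      exact Matrix.isHermitian_conjTranspose_mul_mul _ hz.pos.1
    obtain ⟨r, hr, hb⟩ := Metric.mem_nhds_iff.1 (h4.and a0.eventually_nhds)
    filter_upwards [ball_mem_nhds x hr] with z hz
    have a1 : (e x)ᴴ * (H x * e x) = pr k := by
      rw [← hU1, Matrix.mul_assoc, hex, ← Matrix.mul_assoc, ← Matrix.conjTranspose_mul, hex, pr_ct,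
        pr_mul_pr]
    rw [← a1]
    ext i j
    refine isOpen_ball.is_const_of_fderiv_eq_zero (𝕜 := ℝ)
      (f := fun w => ((e w)ᴴ * (H w * e w)) i j) (convex_ball x r).isPreconnected
      (fun w hw => ((hb hw).1.1.diff i j).differentiableWithinAt) (fun w hw => ?_) hz
      (mem_ball_self hr)
    ext1 v
    have b1 : ∀ l, dz l (fun w => ((e w)ᴴ * (H w * e w)) i j) w = 0 := fun l =>
      congrFun (congrFun ((hb hw).1.2 l) i) j
    have b2 : ∀ l, dzb l (fun w => ((e w)ᴴ * (H w * e w)) i j) w = 0 := fun l => by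
      have := dMb_herm (k := l) (hb hw).1.1 (hb hw).2
      rw [(hb hw).1.2, Matrix.conjTranspose_zero] at this
      exact congrFun (congrFun this i) j
    simp [fderiv_eq_sum, b1, b2]
  filter_upwards [hχ, h, h1, h3, h5] with z a0 a1 a2 a3 a4
  refine ⟨a0.1, a2.2.2.1, ?_⟩
  calc H z * P z = (P z)ᴴ * H z * P z := by
        rw [← a1.pos.1.eq, ← Matrix.conjTranspose_mul, a1.herm.eq, a1.pos.1.eq, Matrix.mul_assoc,
          a1.idem]
    _ = (pr k * K z)ᴴ * ((e z)ᴴ * (H z * e z)) * (pr k * K z) := by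
        rw [← a3.2.2.2.1, Matrix.conjTranspose_mul]; simp only [Matrix.mul_assoc]
    _ = _ := by
        rw [a4, Matrix.conjTranspose_mul, pr_ct, Matrix.mul_assoc _ (pr k) (pr k), pr_mul_pr,
          Matrix.mul_assoc, ← Matrix.mul_assoc (pr k), pr_mul_pr, Matrix.mul_assoc]

theorem ta_of {H P : E n → Mat n} {z : E n} (sH : SmM H z) (sP : SmM P z) (hd : (H z).det ≠ 0)
    (par : ∀ i, dM i P z = P z * gam H i z - gam H i z * P z) (cl : ClM (H * P) z) (i j k : Fin n) :
    (P z * gam H k z) i j = (P z * gam H j z) i k := by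
  have a1 : ∀ k, P z * gam H k z = (H z)⁻¹ * dM k (H * P) z := fun k => by
    have a2 : dM k (H * P) z = dM k H z * P z + H z * dM k P z := dM_mul sH sP
    rw [a2, par, Matrix.mul_add, Matrix.nonsing_inv_mul_cancel_left _ _ hd.isUnit,
      ← Matrix.mul_assoc (H z)⁻¹, ← gam]
    abel
  rw [a1, a1]
  simp only [Matrix.mul_apply, cl _ j k]

/-- Product charts for a Hermitian metric. -/
theorem prod_herm (hC : St_CHN) (hT : St_TR) {n : ℕ} (M : Mf n) {H P : M.Fam (Mat n)} {k : ℕ}
    (hH : M.Met H) (hP : M.Flat H P k)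
    (hb : M.All fun e z => ∀ i j l, ∑ k, gam (H e) k z i j * P e z k l =
      (gam (H e) j z * P e z) i l) : M.PA H P k := by
  intro x
  obtain ⟨e, he, hx⟩ := M.cov x
  have ht := e.open_target.mem_nhds (e.map_source hx)
  obtain ⟨χ, hu, hχ⟩ := prod_loc (H := H e) (P := P e) hC hP.le (by
    filter_upwards [ht] with z hz
    exact ⟨hH.sm e he z hz, hP.en.sm e he z hz, hH.pos e he z hz,
      ta_of (hH.sm e he z hz) (hP.en.sm e he z hz) (hH.pos e he z hz).det_pos.ne'
        (hP.par e he z hz) (hP.clo.cl e he z hz), hb e he z hz,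
      hP.hol e he z hz, hP.herm e he z hz, hP.par e he z hz, hP.idem e he z hz,
      hP.flat e he z hz⟩) (hP.det 1 e he _ (e.map_source hx))
  obtain ⟨φ, rfl, h0, hs, hd, hi, hun⟩ := loc_inv (hχ.mono fun _ h => h.1) hu hχ
  have he' := M.sat e he φ hd hi
  have key : ∀ z ∈ (e.trans φ).target, P (e.trans φ) z = pr k ∧ H (e.trans φ) z * pr k = pr k := by
    intro z hz
    have hy := (e.trans φ).map_target hz
    have hz' := (e.trans φ).right_inv hz
    set y := (e.trans φ).symm z
    have a1 := ((hT n M).2.2.2.2.2 e he φ hd hi y hy).1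
    have a2 := hP.en.cmp _ he' e he y hy hy.1
    have a3 := hH.cmp _ he' e he y hy hy.1
    obtain ⟨-, a4, a5⟩ := hs hy.2
    have a6 : IsUnit (jm φ (e y)) := by
      have := (hun _ hy.2).map op.symm
      rwa [← op_jm, op.symm_apply_apply] at this
    beta_reduce at a2 a3
    rw [a1, hz'] at a2 a3
    simp only [OpenPartialHomeomorph.symm_symm] at a4 a5
    refine ⟨a6.mul_right_cancel (a2.symm.trans a4), ?_⟩
    rw [a3, Matrix.mul_assoc, a4, Matrix.mul_assoc, Matrix.mul_assoc, ← Matrix.mul_assoc (H _ _)]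
      at a5
    exact a6.mul_right_cancel (a6.star.mul_left_cancel a5)
  refine ⟨e.trans φ, ⟨he', fun z hz => (key z hz).1, fun z hz => (key z hz).2, fun z hz i hi => ?_⟩,
    hx, h0⟩
  ext a b
  have b0 : ∀ l, dM l (H (e.trans φ)) z = H (e.trans φ) z * gam (H (e.trans φ)) l z := fun l => by
    rw [gam, Matrix.mul_nonsing_inv_cancel_left _ _ (hH.pos _ he' z hz).det_pos.ne'.isUnit]
  have b1 : ∀ c, gam (H (e.trans φ)) i z c b = gam (H (e.trans φ)) b z c i := fun c => by
    have := hb _ he' z hz c b i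
    rw [(key z hz).1, pr, Matrix.mul_diagonal] at this
    simpa [Matrix.diagonal_apply, hi] using this
  have b2 : dM i (H (e.trans φ)) z a b = dM b (H (e.trans φ)) z a i := by
    simp only [b0, Matrix.mul_apply, b1]
  rw [b2]
  refine (dz_congr (g := fun _ => pr k a i) ?_).trans (by simp)
  filter_upwards [(e.trans φ).open_target.mem_nhds hz] with w hw
  rw [← (key w hw).2, pr, Matrix.mul_diagonal, if_pos hi, mul_one]

end Pool.Agent.GH85
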