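import Pool.Agent.Lib.HS32.MAll
import Pool.Agent.Lib.HS76.Pt
import Pool.Agent.Lib.HS.B_PAR

/-! The form attached to a flat holomorphic projection of a Hermitian metric on a compact Kähler
manifold is closed. -/

open scoped Topology ComplexOrder Matrix ContDiff
open Set Filter MeasureTheory

noncomputable section

namespace Pool.Agent.GH85

open Pool.Agent.Lib.SV (E)
open Pool.Agent.Lib.HS32 Pool.Agent.Lib.HS76

variable {n : ℕ}

/-- Antisymmetrisation in the form index and the column index. -/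
def alt (A : Fin n → Mat n) (k : Fin n) : Mat n := Matrix.of fun i j => A k i j - A j i k

theorem alt_apply (A : Fin n → Mat n) (k i j : Fin n) : alt A k i j = A k i j - A j i k := rfl

theorem alt_mul (L : Mat n) (A : Fin n → Mat n) (k : Fin n) :
    alt (fun k => L * A k) k = L * alt A k := by
  ext i j
  simp only [alt_apply, Matrix.mul_apply, mul_sub, Finset.sum_sub_distrib]

theorem alt_add (A B : Fin n → Mat n) (k : Fin n) :
    alt (fun k => A k + B k) k = alt A k + alt B k := by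
  ext i j
  simp only [alt_apply, Matrix.add_apply]
  ring

theorem alt_zero {A : Fin n → Mat n} (h : ∀ i j k, A k i j = A j i k) (k : Fin n) :
    alt A k = 0 := by
  ext i j
  rw [alt_apply, h, sub_self, Matrix.zero_apply]

theorem alt_pb (J : Mat n) (A : Fin n → Mat n) (k : Fin n) :
    alt (fun k => (∑ a, J a k • A a) * J) k = (∑ a, J a k • alt A a) * J := by
  ext i j
  simp only [alt_apply, Matrix.mul_apply, Matrix.sum_apply, Matrix.smul_apply, smul_eq_mul,
    Finset.sum_mul, mul_sub, sub_mul, Finset.sum_sub_distrib]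
  congr 1
  rw [Finset.sum_comm]
  exact Finset.sum_congr rfl fun a _ => Finset.sum_congr rfl fun b _ => by ring

/-- The pairing with an alternating family. -/
def pair (K : Mat n) (τ A : Fin n → Mat n) : ℂ := ∑ k, ∑ l, K k l * (A k * K * (τ l)ᴴ).trace

theorem pair_eq (K : Mat n) (τ A : Fin n → Mat n) : pair K τ A =
    ∑ p : Fin n × Fin n, ∑ q : Fin n × Fin n, ∑ i,
      K p.1 p.2 * K q.1 q.2 * A p.1 i q.1 * star (τ p.2 i q.2) := by
  simp only [pair, Fintype.sum_prod_type, Matrix.trace, Matrix.diag_apply, Matrix.mul_apply,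
    Matrix.conjTranspose_apply, Finset.mul_sum, Finset.sum_mul]
  refine Finset.sum_congr rfl fun k _ => Finset.sum_congr rfl fun l _ => ?_
  rw [Finset.sum_comm, eq_comm, Finset.sum_comm]
  refine Finset.sum_congr rfl fun m _ => ?_
  rw [Finset.sum_comm]
  exact Finset.sum_congr rfl fun i _ => Finset.sum_congr rfl fun b _ => by ring

theorem pair_alt (K : Mat n) {τ : Fin n → Mat n} (hτ : ∀ i j k, τ k i j = -τ j i k)
    (A : Fin n → Mat n) : pair K τ (alt A) = 2 * pair K τ A := by
  rw [pair_eq, pair_eq, two_mul]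
  simp only [alt_apply, mul_sub, sub_mul, Finset.sum_sub_distrib]
  rw [sub_eq_add_neg, add_right_inj, Finset.sum_comm, ← Finset.sum_neg_distrib]
  refine Finset.sum_congr rfl fun p _ => ?_
  rw [← Finset.sum_neg_distrib]
  refine Finset.sum_congr rfl fun q _ => ?_
  rw [← Finset.sum_neg_distrib]
  refine Finset.sum_congr rfl fun i _ => ?_
  rw [hτ i p.2 q.2, star_neg]
  ring

theorem ip3_zero {C A H : Mat n} (hC : C.PosDef) (hA : A.PosDef) (hH : H.PosDef)
    {T : Fin n → Mat n} (h : (ip3 C A H T T).re = 0) (k : Fin n) : T k = 0 := by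
  have u : ∀ {B W : Mat n}, B.PosDef → B = W * Wᴴ → IsUnit W.det ∧ IsUnit Wᴴ.det := by
    intro B W hB e
    have := hB.det_pos.ne'
    rw [e, Matrix.det_mul] at this
    exact ⟨(left_ne_zero_of_mul this).isUnit, (right_ne_zero_of_mul this).isUnit⟩
  obtain ⟨W, hW⟩ := psd_eq_mul hC.posSemidef
  obtain ⟨V, hV⟩ := psd_eq_mul hA.posSemidef
  obtain ⟨Y, hY⟩ := psd_eq_mul hH.posSemidef
  rw [hW, hV, hY, ip3_eq_inner] at h
  have h1 : vec3 W V Y T = 0 := by
    rw [← inner_self_eq_zero (𝕜 := ℂ), ← inner_self_ofReal_re]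
    exact Complex.ofReal_eq_zero.2 h
  have h2 : ∀ a, ∑ k, W k a • T k = 0 := by
    intro a
    have h3 : Yᴴ * (∑ k, W k a • T k) * V = 0 := by
      ext i j
      exact congrArg (fun v : EuclideanSpace ℂ (Fin n × Fin n × Fin n) => v (a, i, j)) h1
    rw [← Matrix.nonsing_inv_mul_cancel_left _ (∑ k, W k a • T k) (u hH hY).2,
      ← Matrix.mul_nonsing_inv_cancel_right _ (Yᴴ * _) (u hA hV).1, h3]
    simp
  have h3 : ∑ a, W⁻¹ a k • ∑ j, W j a • T j = T k := by
    simp only [Finset.smul_sum, smul_smul]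
    rw [Finset.sum_comm]
    simp only [← Finset.sum_smul, mul_comm (W⁻¹ _ _), ← Matrix.mul_apply,
      Matrix.mul_nonsing_inv _ (u hC hW).1, Matrix.one_apply, ite_smul, one_smul, zero_smul,
      Finset.sum_ite_eq', Finset.mem_univ, if_true]
  rw [← h3]
  simp [h2]

/-- The torsion projected by `P`. -/
def tau (h P : E n → Mat n) (k : Fin n) (w : E n) : Mat n := alt (fun k => P w * gam h k w) k

/-- The vector field whose divergence is the squared norm of the projected torsion. -/
def vv (H h P : E n → Mat n) (w : E n) : E n :=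
  (H w)⁻¹ *ᵥ fun l => (h w * P w * (H w)⁻¹ * (tau h P l w)ᴴ).trace

variable {H h P : E n → Mat n} {z : E n}

theorem sm_tau (sh : SmM h z) (sP : SmM P z) (h0 : (h z).det ≠ 0) (k : Fin n) :
    SmM (tau h P k) z := fun i j => (sP.mul (sh.gam h0 k) i j).sub (sP.mul (sh.gam h0 j) i k)

theorem dv_vv (sH : SmM H z) (cH : ClM H z) (H0 : (H z).det ≠ 0) (sh : SmM h z) (sP : SmM P z)
    (h0 : (h z).det ≠ 0) (hol : ∀ l, dMb l P z = 0)
    (par : ∀ i, dM i P z = P z * gam h i z - gam h i z * P z)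
    (flat : ∀ a b, P z * th h a b z = 0) :
    dv (fun w => (H w).det • vv H h P w) z / (H z).det =
      ip3 (H z)⁻¹ (H z)⁻¹ (h z) (fun k => tau h P k z) (fun k => tau h P k z) / 2 := by
  obtain ⟨-, sA, -, hA, hI, -⟩ := mCOF n H z sH
  obtain ⟨sI, dI⟩ := hI H0
  have sτ := sm_tau sh sP h0
  have hg := sh.gam h0
  have b0 : ∀ k l, dMb l (fun w => P w * gam h k w) z = 0 := fun k l => by
    have := flat k l
    rw [th, Matrix.mul_neg, neg_eq_zero] at this
    rw [dMb_mul sP (hg k), hol, this, Matrix.zero_mul, add_zero]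
  have b1 : ∀ k l, dMb l (tau h P k) z = 0 := fun k l => by
    ext i j
    have := dzb_sub (j := l) ((sP.mul (hg k)).diff i j) ((sP.mul (hg j)).diff i k)
    have e1 : dzb l (fun w => (P w * gam h k w) i j) z = 0 := congrFun (congrFun (b0 k l) i) j
    have e2 : dzb l (fun w => (P w * gam h j w) i k) z = 0 := congrFun (congrFun (b0 j l) i) k
    rw [e1, e2, sub_zero] at this
    exact this
  have b2 : ∀ k, dM k (fun w => h w * P w) z = h z * (P z * gam h k z) := fun k => by
    rw [dM_mul sh sP, par, ← Matrix.mul_nonsing_inv_cancel_left _ (dM k h z) h0.isUnit, ← gam,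
      Matrix.mul_assoc, ← Matrix.mul_add]
    congr 1
    abel
  set c : Fin n → E n → ℂ := fun l w => (h w * P w * (H w)⁻¹ * (tau h P l w)ᴴ).trace with hc
  have sc : ∀ l, SmM (fun w => h w * P w * (H w)⁻¹ * (tau h P l w)ᴴ) z := fun l =>
    ((sh.mul sP).mul sI).mul (sτ l).ct
  have b3 : ∀ k l, dz k (c l) z =
      (h z * (P z * gam h k z) * (H z)⁻¹ * (tau h P l z)ᴴ).trace -
        (h z * P z * (H z)⁻¹ * dM k H z * (H z)⁻¹ * (tau h P l z)ᴴ).trace := fun k l => by
    rw [hc, dz_trace (sc l), dM_mul ((sh.mul sP).mul sI) (sτ l).ct, dM_ct (sτ l), b1,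
      dM_mul (sh.mul sP) sI, b2, (dI k).1, ← Matrix.trace_sub]
    congr 1
    simp only [Matrix.conjTranspose_zero, Matrix.mul_zero, add_zero, Matrix.add_mul,
      Matrix.mul_neg, Matrix.neg_mul, Matrix.mul_assoc, sub_eq_add_neg]
  have b4 : ∀ {A : Mat n}, A.det ≠ 0 → ∀ k l, A.adjugate k l = A.det * A⁻¹ k l := by
    intro A hA k l
    rw [Matrix.inv_def, Matrix.smul_apply, smul_eq_mul, Ring.inverse_eq_inv',
      mul_inv_cancel_left₀ hA]
  have b5 : ∀ k, dz k (fun w => ((H w).det • vv H h P w) k) z =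
      ∑ l, (dM k (fun w => (H w).adjugate) z k l * c l z + (H z).adjugate k l * dz k (c l) z) := by
    intro k
    rw [dz_congr (g := fun w => ∑ l, (H w).adjugate k l * c l w),
      dz_sum (f := fun l w => (H w).adjugate k l * c l w)
        fun l _ => (sA.diff k l).mul (cd_diff (sc l).trace)]
    · exact Finset.sum_congr rfl fun l _ => dz_mul (sA.diff k l) (cd_diff (sc l).trace)
    · filter_upwards [sH.ev_det H0] with w hw
      simp only [vv, Pi.smul_apply, smul_eq_mul, Matrix.mulVec, dotProduct, Finset.mul_sum, b4 hw,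
        mul_assoc, hc]
  have hτ : ∀ i j k, tau h P k z i j = -tau h P j z i k := fun i j k => (neg_sub _ _).symm
  have b6 := pair_alt (H z)⁻¹ hτ fun k => h z * (P z * gam h k z)
  have b7 := pair_alt (H z)⁻¹ hτ fun k => h z * P z * (H z)⁻¹ * dM k H z
  have b8 : alt (fun k => h z * P z * (H z)⁻¹ * dM k H z) = fun _ => 0 := funext fun k => by
    rw [alt_mul, alt_zero cH, Matrix.mul_zero]
  have b9 : alt (fun k => h z * (P z * gam h k z)) = fun k => h z * tau h P k z :=
    funext fun k => alt_mul _ _ k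
  rw [b8] at b7
  rw [b9] at b6
  have b10 : pair (H z)⁻¹ (fun k => tau h P k z) (fun _ => 0) = 0 := by simp [pair]
  rw [ip3_cyc, ← pair, b6, dv, div_eq_iff H0]
  simp only [b5, Finset.sum_add_distrib]
  rw [Finset.sum_comm]
  simp only [← Finset.sum_mul, hA cH, zero_mul, Finset.sum_const_zero, zero_add, b3, b4 H0,
    mul_assoc (H z).det, mul_sub, Finset.sum_sub_distrib, ← Finset.mul_sum]
  rw [← pair, ← pair]
  linear_combination (H z).det / 2 * b7 - (H z).det / 2 * b10

theorem vec_vv (M : Mf n) {H h P : M.Fam (Mat n)} (hH : M.Met H) (hh : M.Met h) (hP : M.End P) :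
    M.Vec fun e => vv (H e) (h e) (P e) := by
  refine ⟨fun e he z hz => ?_, fun e he e' he' x hx hx' => ?_⟩
  · have sI := (hH.sm e he z hz).inv (hH.det_ne e he z hz)
    exact sI.mulVec (contDiffAt_pi.2 fun l => ((((hh.sm e he z hz).mul (hP.sm e he z hz)).mul sI).mul
      (sm_tau (hh.sm e he z hz) (hP.sm e he z hz) (hh.det_ne e he z hz) l).ct).trace)
  · obtain ⟨a1, a2, -, -, -⟩ := (mTR n M).2.1 e he e' he' x hx hx'
    have a3 : (e ∘ e'.symm) (e' x) = e x := by rw [Function.comp, e'.left_inv hx']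
    have a4 := ((mPB n _ _ (h e) (h e') a1 a2 (a3 ▸ hh.sm.at he hx)
      (BINV.ev_pb mTR hh.toTen he he' hx hx')).2.2 (a3 ▸ hh.det_ne.at he hx)).1
    have a5 : ClM (jm (e ∘ e'.symm)) (e' x) := (mCHN n _ _ a1).2.2.1
    have a6 := hP.cmp e he e' he' x hx hx'
    have a7 := hH.cmp e he e' he' x hx hx'
    have a8 := hh.cmp e he e' he' x hx hx'
    rw [a3] at a4
    change ∀ k, _ = (M.J e e' x)⁻¹ * (∑ a, M.J e e' x a k • _) * M.J e e' x +
      (M.J e e' x)⁻¹ * _ at a4
    set J := M.J e e' x with hJ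
    have b0 : P e' (e' x) * J⁻¹ = J⁻¹ * P e (e x) := by
      rw [← Matrix.nonsing_inv_mul_cancel_left _ (P e' (e' x)) a2.isUnit, a6, Matrix.mul_assoc,
        Matrix.mul_nonsing_inv_cancel_right _ _ a2.isUnit]
    have b1 : ∀ k, tau (h e') (P e') k (e' x) =
        J⁻¹ * ((∑ a, J a k • tau (h e) (P e) a (e x)) * J) := fun k => by
      have : (fun k => P e' (e' x) * gam (h e') k (e' x)) = fun k =>
          J⁻¹ * ((∑ a, J a k • (P e (e x) * gam (h e) a (e x))) * J) +
            J⁻¹ * P e (e x) * dM k (jm (e ∘ e'.symm)) (e' x) := funext fun k => by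
        rw [a4, Matrix.mul_add, ← Matrix.mul_assoc, ← Matrix.mul_assoc, ← Matrix.mul_assoc, b0]
        simp only [Matrix.mul_assoc, Matrix.mul_sum, Matrix.sum_mul, Matrix.mul_smul,
          Matrix.smul_mul]
      rw [tau, this, alt_add, alt_mul, alt_mul, alt_pb, alt_zero a5, Matrix.mul_zero, add_zero]
      rfl
    have b2 : (fun l => (h e' (e' x) * P e' (e' x) * (H e' (e' x))⁻¹ *
        (tau (h e') (P e') l (e' x))ᴴ).trace) = Jᴴ *ᵥ fun l =>
          (h e (e x) * P e (e x) * (H e (e x))⁻¹ * (tau (h e) (P e) l (e x))ᴴ).trace := by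
      funext l
      have c1 := fun B : Mat n => Matrix.nonsing_inv_mul_cancel_left Jᴴ B (BINV.ct_det a2).isUnit
      have c2 := fun B : Mat n => Matrix.mul_nonsing_inv_cancel_left J B a2.isUnit
      rw [a7, a8, b1, Matrix.mul_inv_rev, Matrix.mul_inv_rev, Matrix.mul_assoc (_ * _ * J),
        ← Matrix.mul_assoc (P e' (e' x)), b0, Matrix.conjTranspose_mul, Matrix.conjTranspose_mul,
        Matrix.conjTranspose_nonsing_inv, ← Matrix.mul_assoc, Matrix.trace_mul_comm]
      simp only [Matrix.mul_assoc, c1, c2, Matrix.conjTranspose_sum, Matrix.conjTranspose_smul,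
        Matrix.mul_sum, Matrix.mul_smul, Matrix.trace_sum, Matrix.trace_smul, smul_eq_mul,
        Matrix.mulVec, dotProduct, Matrix.conjTranspose_apply]
    rw [vv, vv, b2, a7, Matrix.mul_inv_rev, Matrix.mul_inv_rev, Matrix.mulVec_mulVec,
      Matrix.mulVec_mulVec, Matrix.mul_nonsing_inv_cancel_left _ _ a2.isUnit,
      Matrix.nonsing_inv_mul_cancel_right _ _ (BINV.ct_det a2).isUnit]

/-- The form `h P` is closed. -/
theorem clo_herm (M : Mf n) [M.Cpt] {H h P : M.Fam (Mat n)} (hH : M.Kae H) (hh : M.Met h)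
    (hP : M.HolSA h P) (flat : M.All fun e z => ∀ a b, th (h e) a b z * P e z = 0) :
    M.Clo (h * P) := by
  have par : M.All fun e z => ∀ i, dM i (P e) z = P e z * gam (h e) i z - gam (h e) i z * P e z :=
    fun e he z hz => Pool.Agent.Lib.HS.BPAR.par (hh.sm e he z hz) (hP.en.sm e he z hz)
      (hh.det_ne e he z hz) (hh.herm.ev he hz) (hP.herm.ev he hz) (hP.hol e he z hz)
  obtain ⟨d1, d2, -⟩ := mDIV n M H hH.toMet
  obtain ⟨i1, i2, i3⟩ := d2 _ (d1 _ (vec_vv M hH.toMet hh hP.en))
  obtain ⟨-, -, m1, -, m2, -⟩ := mMU n M H hH.toMet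
  have r : M.All fun e z => M.ev (fun e z => dv (fun w => (H e w).det • vv (H e) (h e) (P e) w) z /
      (H e z).det) (e.symm z) = ip3 (H e z)⁻¹ (H e z)⁻¹ (h e z) (fun k => tau (h e) (P e) k z)
        (fun k => tau (h e) (P e) k z) / 2 := fun e he z hz =>
    (i1.rep e he z hz).trans (dv_vv (hH.sm e he z hz) (hH.cl e he z hz) (hH.toMet.det_ne e he z hz)
      (hh.sm e he z hz) (hP.en.sm e he z hz) (hh.det_ne e he z hz) (hP.hol e he z hz)
      (par e he z hz) fun a b => by
        rw [← Pool.Agent.Lib.HS.BPAR.comm (hh.sm e he z hz) (hP.en.sm e he z hz)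
          (hh.det_ne e he z hz) (hP.hol.ev he hz) (par.ev he hz), flat e he z hz])
  set f := M.ev (fun e z => dv (fun w => (H e w).det • vv (H e) (h e) (P e) w) z / (H e z).det)
  have p0 : ∀ x, 0 ≤ (f x).re := fun x => by
    have := r.ch x
    rw [Mf.ch_symm] at this
    rw [this, Complex.div_ofNat_re]
    exact div_nonneg (ip3_nonneg (hH.pos.ch x).inv.posSemidef (hH.pos.ch x).inv.posSemidef
      (hh.pos.ch x).posSemidef _) zero_le_two
  have c0 : Continuous fun x => (f x).re := Complex.continuous_re.comp i2.continuous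
  have z0 : (fun x => (f x).re) = 0 := by
    rw [← c0.ae_eq_iff_eq (M.mu H) continuous_zero]
    refine (integral_eq_zero_iff_of_nonneg p0 (m2 ℝ _ c0)).1 ?_
    have := integral_re (m2 ℂ f i2.continuous)
    rw [i3 inferInstance] at this
    exact this
  refine ⟨⟨(mINV n M h hh).2.2.2.2.2.1 P hP.en, hP.herm⟩, fun e he z hz i j k => ?_⟩
  have t0 : tau (h e) (P e) k z = 0 := by
    refine ip3_zero (hH.pos e he z hz).inv (hH.pos e he z hz).inv (hh.pos e he z hz)
      (T := fun k => tau (h e) (P e) k z) ?_ k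
    have := congrFun z0 (e.symm z)
    rw [r e he z hz, Complex.div_ofNat_re] at this
    simpa using this
  have b2 : ∀ k, dM k (fun w => h e w * P e w) z = h e z * (P e z * gam (h e) k z) := fun k => by
    rw [dM_mul (hh.sm e he z hz) (hP.en.sm e he z hz), par e he z hz,
      ← Matrix.mul_nonsing_inv_cancel_left _ (dM k (h e) z) (hh.det_ne e he z hz).isUnit, ← gam,
      Matrix.mul_assoc, ← Matrix.mul_add]
    congr 1
    abel
  have b3 := congrFun (congrFun (alt_mul (h e z) (fun k => P e z * gam (h e) k z) k) i) j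
  rw [← tau, t0, Matrix.mul_zero, alt_apply, ← b2, ← b2] at b3
  exact sub_eq_zero.1 b3

end Pool.Agent.GH85
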