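import Pool.Agent.Lib.HS32.MAll
import Pool.Agent.Lib.HS.B_UT
import Pool.Agent.Lib.HS.B_PAR
import Pool.Agent.Lib.GH.Prod85
import Pool.Agent.Lib.GH.Tor85
import Pool.Agent.Lib.GH.Blue

/-! From the Kähler class given by a flat projection of a Hermitian metric to the data of the
last sections of the project hs9. -/

open scoped Classical Topology ContDiff ComplexOrder Matrix
open Set MeasureTheory Complex Metric Filter

noncomputable section

namespace Pool.Agent.GH85

open Pool.Agent.Lib.SV (E)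
open Pool.Agent.Lib.HS32 Pool.Agent.Lib.HS32.Mf Pool.Agent.Lib.HS.UT
open Pool.Agent.Lib

variable {n : ℕ}

theorem dz_ld {U : Set (E n)} (hU : IsOpen U) {H : E n → Mat n} {i : Fin n}
    (hH : ∀ w ∈ U, SmM H w ∧ (H w).PosDef ∧ dM i H w = 0) {w : E n} (hw : w ∈ U) :
    ContDiffAt ℝ ∞ (ld H) w ∧ dz i (ld H) w = 0 := by
  have cH := (mCOF n H w (hH w hw).1).2.2.2.2.2
    (mem_of_superset (hU.mem_nhds hw) fun v hv => (hH v hv).2.1)
  refine ⟨cH.1, ?_⟩
  rw [cH.2.2 i, gam, (hH w hw).2.2]
  simp

/-- The linearized equation. -/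
theorem lin' {U : Set (E n)} {z : E n} (hU : IsOpen U) {H G : E n → Mat n} {u : E n → ℝ}
    {B : Mat n} {i : Fin n} (hH : ∀ w ∈ U, SmM H w ∧ (H w).PosDef ∧ dM i H w = 0)
    (hu : ∀ w ∈ U, ContDiffAt ℝ ∞ u w) (hG : ∀ w ∈ U, SmM G w ∧ (G w).PosDef)
    (he : ∀ w ∈ U, G w = B + hess (ld H) w + hess (fun w => (u w : ℂ)) w)
    (hd : ∀ w ∈ U, (G w).det.re = Real.exp (u w) * (H w).det.re) (hz : z ∈ U) :
    ((G z)⁻¹ * hess (dz i fun w => (u w : ℂ)) z).trace = dz i (fun w => (u w : ℂ)) z := by
  have cH := fun w (hw : w ∈ U) => dz_ld hU hH hw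
  have cG := (mCOF n G z (hG z hz).1).2.2.2.2.2
    (mem_of_superset (hU.mem_nhds hz) fun v hv => (hG v hv).2)
  have huc : ∀ w ∈ U, ContDiffAt ℝ ∞ (fun w => (u w : ℂ)) w := fun w hw => cd_ofReal (hu w hw)
  have e1 : ld G =ᶠ[𝓝 z] fun w => (u w : ℂ) + ld H w := by
    filter_upwards [hU.mem_nhds hz] with w hw
    have hp : 0 < (H w).det.re := (Complex.pos_iff.1 (hH w hw).2.1.det_pos).1
    rw [ld, ld, hd w hw, Real.log_mul (Real.exp_pos _).ne' hp.ne', Real.log_exp]
    simp
  have e2 : dM i G z = hess (dz i fun w => (u w : ℂ)) z := by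
    have s1 : SmM (fun _ => B) z := smM_const B
    have s2 := smM_hess (cH z hz).1
    have s3 := smM_hess (huc z hz)
    rw [dM_congr (T := fun w => (B + hess (ld H) w) + hess (fun w => (u w : ℂ)) w)
        (mem_of_superset (hU.mem_nhds hz) he),
      dM_add (s1.add s2) s3, dM_add s1 s2, dM_const,
      dM_hess hU (fun w hw => (cH w hw).1) hz, dM_hess hU huc hz,
      hess_congr (g := fun _ => 0) (mem_of_superset (hU.mem_nhds hz) fun w hw => (cH w hw).2)]
    simp
  rw [← e2, ← gam, ← cG.2.2 i, dz_congr e1, dz_add (cd_diff (huc z hz)) (cd_diff (cH z hz).1),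
    (cH z hz).2, add_zero]

theorem hess_pr {U : Set (E n)} (hU : IsOpen U) {f : E n → ℂ} {k : ℕ}
    (h : ∀ w ∈ U, ∀ i : Fin n, i.val < k → dz i f w = 0) {z : E n} (hz : z ∈ U) :
    hess f z * pr k = 0 := by
  ext a b
  rw [pr, Matrix.mul_diagonal]
  by_cases hb : b.val < k
  · rw [show hess f z a b = dzb a (fun _ => (0 : ℂ)) z from
      dzb_congr (mem_of_superset (hU.mem_nhds hz) fun v hv => h v hv b hb)]
    simp
  · simp [hb]

variable {M : Mf n} {h P : M.Fam (Mat n)} {k : ℕ}

/-- A tensor that kills the projection in the product charts kills it in all charts. -/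
theorem kill {T : M.Fam (Mat n)} (hT : M.Ten T) (hP : M.End P) (hA : M.PA h P k)
    (h0 : ∀ e, M.Prod h P k e → ∀ z ∈ e.target, T e z * pr k = 0) :
    M.All fun e z => T e z * P e z = 0 := by
  intro e' he' z hz
  obtain ⟨e, he, hx⟩ := hA (e'.symm z)
  have hy := e.map_source hx
  have h1 := hT.cmp e he.mem e' he' _ hx (e'.map_target hz)
  have h2 := hP.cmp e he.mem e' he' _ hx (e'.map_target hz)
  simp only [e'.right_inv hz] at h1 h2
  rw [h1, Matrix.mul_assoc, h2, he.prj _ hy, ← Matrix.mul_assoc, Matrix.mul_assoc _ _ (pr k),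
    h0 e he _ hy]
  simp

/-- The Ricci form of the Hermitian metric kills the projection. -/
theorem ric_kill (hM : M.Met h) (hP : M.End P) (hA : M.PA h P k) :
    M.All fun e z => M.ric h e z * P e z = 0 :=
  kill ((mHES n M).2.2.2.2.2.2.2.2.1 h hM).toTen hP hA fun e he z hz => by
    rw [ric, Matrix.neg_mul, hess_pr e.open_target (fun w hw i hi => (dz_ld e.open_target
      (fun v hv => ⟨hM.sm e he.mem v hv, hM.pos e he.mem v hv, he.cst v hv i hi⟩) hw).2) hz,
      neg_zero]

/-- The potential is constant along the flat directions. -/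
theorem ut [M.Cpt] (hM : M.Met h) (hP : M.End P) (hA : M.PA h P k) {u : M.X → ℝ} (hu : M.Sm u)
    (hG : M.Met (h * P + M.theta h u))
    (hd' : ∀ x, M.dq h (h * P + M.theta h u) x = Real.exp (u x)) :
    ∀ e, M.Prod h P k e → ∀ z ∈ e.target, ∀ i : Fin n, i.val < k → dz i (M.lc u e) z = 0 := by
  have hd := ((mHES n M).2.1 u u hu hu).1
  have hT : M.Ten (h * P) := (mINV n M h hM).2.2.2.2.2.1 P hP
  obtain ⟨hr, hw, -⟩ := (mINV n M h hM).2.2.1 _ _ hT hd
  set w := M.ip h (h * P) (M.ds u u)
  have huc : ∀ e ∈ M.C, ∀ z ∈ e.target, ContDiffAt ℝ ∞ (M.lc u e) z := fun e he z hz =>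
    cd_ofReal (hu e he z hz)
  have key : ∀ e, M.Prod h P k e → ∀ z ∈ e.target,
      (w (e.symm z) : ℂ) = ∑ i : Fin n with i.val < k,
        dz i (M.lc u e) z * star (dz i (M.lc u e) z) ∧
      w (e.symm z) = ∑ i : Fin n with i.val < k, normSq (dz i (M.lc u e) z) := by
    intro e he z hz
    have h2 : w (e.symm z) = ∑ i : Fin n with i.val < k, normSq (dz i (M.lc u e) z) := by
      rw [hr e he.mem z hz]
      simp only [Pi.mul_apply, he.prj z hz]
      rw [tr_pr (hM.pos e he.mem z hz) (he.blk z hz), re_sum]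
      refine Finset.sum_congr rfl fun i _ => ?_
      have := star_dz_ofReal (j := i) (cd_diff (huc e he.mem z hz))
      show (dzb i (M.lc u e) z * dz i (M.lc u e) z).re = _
      rw [show dzb i (M.lc u e) z = star (dz i (M.lc u e) z) from this.symm, mul_comm,
        Complex.star_def, Complex.mul_conj]
      simp
    refine ⟨?_, h2⟩
    rw [h2, ofReal_sum]
    exact Finset.sum_congr rfl fun i _ => by rw [Complex.star_def, Complex.mul_conj]
  obtain ⟨x₀, hx₀⟩ := hw.exists_max
  have h0 : w x₀ ≤ 0 := by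
    obtain ⟨e, he, hx⟩ := hA x₀
    have hz := e.map_source hx
    have hmax : IsLocalMax (w ∘ e.symm) (e x₀) := Eventually.of_forall fun y => by
      simpa [e.left_inv hx] using hx₀ (e.symm y)
    have h1 := HS76.tr_nonneg (hG.pos e he.mem _ hz)
      (mMAXE n _ _ (hw e he.mem _ hz) hmax).1
    have h2 : ∀ i : Fin n, i.val < k → _ := fun i hi => one (hG.pos e he.mem _ hz)
      (cd_dz (huc e he.mem _ hz) i) (lin' (B := pr k) (u := u ∘ e.symm) (H := h e) e.open_target
        (fun z hz => ⟨hM.sm e he.mem z hz, hM.pos e he.mem z hz, he.cst z hz i hi⟩)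
        (hu e he.mem) (fun z hz => ⟨hG.sm e he.mem z hz, hG.pos e he.mem z hz⟩)
        (fun z hz => by
          simp only [Pi.add_apply, Pi.sub_apply, Pi.mul_apply, he.prj z hz, he.blk z hz, Mf.ric,
            Mf.theta, sub_neg_eq_add, add_assoc, add_comm (hess (ld (h e)) z)]
          rfl)
        (fun z hz => by
          rw [(((mINV n M h hM).2.1 _ hG.toForm) e he.mem z hz).2.2, hd']; rfl) hz)
    simp only [Function.comp_apply] at h1
    rw [hess_congr (g := fun z => ∑ i : Fin n with i.val < k,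
        dz i (M.lc u e) z * star (dz i (M.lc u e) z))
        (mem_of_superset (e.open_target.mem_nhds hz) fun z hz => (key e he z hz).1),
      hess_sum fun i _ => (cd_dz (huc e he.mem _ hz) i).mul (cd_star (cd_dz (huc e he.mem _ hz) i)),
      Matrix.mul_neg, Matrix.trace_neg, neg_re, Matrix.mul_sum, Matrix.trace_sum, re_sum] at h1
    have h3 := Finset.sum_le_sum (s := Finset.univ.filter fun i : Fin n => i.val < k)
      fun i hi => h2 i (Finset.mem_filter.1 hi).2
    have h4 := (key e he _ hz).2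
    rw [e.left_inv hx] at h4
    rw [← Finset.mul_sum, ← h4] at h3
    linarith
  intro e he z hz i hi
  have h1 : w (e.symm z) ≤ 0 := (hx₀ _).trans h0
  rw [(key e he z hz).2] at h1
  exact normSq_eq_zero.1 (le_antisymm ((Finset.single_le_sum
    (f := fun i => normSq (dz i (M.lc u e) z)) (fun _ _ => normSq_nonneg _)
    (Finset.mem_filter.2 ⟨Finset.mem_univ i, hi⟩)).trans h1) (normSq_nonneg _))

/-- A metric that agrees with `h` on the image of the projection is flat there. -/
theorem flat_of {G : M.Fam (Mat n)} (hM : M.Met h) (hG : M.Met G) (hP : M.Flat h P k)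
    (he : M.All fun e z => G e z * P e z = h e z * P e z) : M.Flat G P k := by
  have herm : M.All fun e z => (G e z * P e z).IsHermitian := fun e a z hz => by
    beta_reduce
    rw [he e a z hz]; exact hP.herm e a z hz
  have par : M.All fun e z => ∀ i, dM i (P e) z = P e z * gam (G e) i z - gam (G e) i z * P e z :=
    fun e a z hz => HS.BPAR.par (hG.sm e a z hz) (hP.en.sm e a z hz) (hG.det_ne e a z hz)
      (hG.herm.ev a hz) (herm.ev a hz) (hP.hol e a z hz)
  have g1 : M.All fun e z => ∀ i, gam (G e) i z * P e z = gam (h e) i z * P e z := by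
    intro e a z hz i
    have u := (hG.det_ne e a z hz).isUnit
    have u' := (hM.det_ne e a z hz).isUnit
    have sP := hP.en.sm e a z hz
    have b1 : dM i (fun w => G e w * P e w) z = dM i (fun w => h e w * P e w) z :=
      dM_congr (he.ev a hz)
    rw [dM_mul (hG.sm e a z hz) sP, dM_mul (hM.sm e a z hz) sP, hP.par e a z hz,
      ← Matrix.mul_nonsing_inv_cancel_left _ (dM i (h e) z) u', ← gam,
      ← Matrix.mul_nonsing_inv_cancel_left _ (dM i (G e) z) u, ← gam] at b1
    have b2 : G e z * (gam (G e) i z * P e z - gam (h e) i z * P e z) = 0 := by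
      have b3 : G e z * (P e z * gam (h e) i z) = h e z * (P e z * gam (h e) i z) := by
        rw [← Matrix.mul_assoc, he e a z hz, Matrix.mul_assoc]
      simp only [Matrix.mul_sub, Matrix.mul_assoc, b3] at b1 ⊢
      rw [sub_eq_zero]
      linear_combination (norm := abel) b1
    rw [← sub_eq_zero, ← Matrix.nonsing_inv_mul_cancel_left _ (_ - _) u, b2, Matrix.mul_zero]
  refine ⟨⟨hP.en, hP.hol, herm⟩, hP.le, par, hP.clo.congr he, hP.idem, hP.det,
    fun e a z hz i j => ?_⟩
  have b1 : dMb j (fun w => gam (G e) i w * P e w) z = dMb j (fun w => gam (h e) i w * P e w) z :=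
    dMb_congr ((g1.ev a hz).mono fun w hw => hw i)
  rw [dMb_mul ((hG.sm e a z hz).gam (hG.det_ne e a z hz) i) (hP.en.sm e a z hz),
    dMb_mul ((hM.sm e a z hz).gam (hM.det_ne e a z hz) i) (hP.en.sm e a z hz),
    hP.hol e a z hz, Matrix.mul_zero, Matrix.mul_zero, add_zero, add_zero] at b1
  rw [← hP.flat e a z hz i j, th, th, Matrix.neg_mul, Matrix.neg_mul, b1]

theorem psd_compl {H P : Mat n} (hH : H.PosDef) (h : (H * P).IsHermitian) (hP : P * P = P) :
    (H - H * P).PosSemidef := by
  have a : Pᴴ * H = H * P := by rw [← h.eq, Matrix.conjTranspose_mul, hH.isHermitian.eq]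
  have := hH.posSemidef.conjTranspose_mul_mul_same (1 - P)
  rwa [Matrix.conjTranspose_sub, Matrix.conjTranspose_one, Matrix.sub_mul, Matrix.one_mul, a,
    Matrix.mul_sub, Matrix.mul_one, Matrix.sub_mul, Matrix.mul_assoc, hP, sub_self, sub_zero] at this

theorem tors_single (h : E n → Mat n) (z : E n) (a : E n) (j i : Fin n) :
    tors h z a (Pi.single j 1) i = ∑ k, gam h k z i j * a k - (gam h j z *ᵥ a) i := by
  simp [tors, asy, Pi.single_apply, Matrix.sum_apply, mul_comm]

theorem clo_fl (hM : M.Met h) (hP : M.Fl1 h P k) : M.Clo (h * P) := by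
  refine ⟨⟨(mINV n M h hM).2.2.2.2.2.1 P hP.en, hP.herm⟩, fun e he z hz i j l => ?_⟩
  have b2 : ∀ k, dM k (fun w => h e w * P e w) z = h e z * (P e z * gam (h e) k z) := fun k => by
    rw [dM_mul (hM.sm e he z hz) (hP.en.sm e he z hz), hP.par e he z hz,
      ← Matrix.mul_nonsing_inv_cancel_left _ (dM k (h e) z) (hM.det_ne e he z hz).isUnit, ← gam,
      Matrix.mul_assoc, ← Matrix.mul_add]
    congr 1
    abel
  have b3 : ∀ c, (P e z * gam (h e) l z) c j = (P e z * gam (h e) j z) c l := fun c => by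
    have := congrFun (hP.t1 e he z hz (Pi.single l 1) (Pi.single j 1)) c
    simp only [Matrix.mulVec, dotProduct, tors_single, Pi.single_apply, mul_ite, mul_one, mul_zero,
      Finset.sum_ite_eq', Finset.mem_univ, if_true, mul_sub, Finset.sum_sub_distrib,
      Pi.zero_apply, sub_eq_zero] at this
    exact this
  change dM l (fun w => h e w * P e w) z i j = dM j (fun w => h e w * P e w) z i l
  rw [b2, b2, Matrix.mul_apply, Matrix.mul_apply]
  simp only [b3]

theorem flat_fl (hM : M.Met h) (hP : M.Fl1 h P k) : M.Flat h P k :=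
  ⟨hP.toHolSA, hP.le, hP.par, clo_fl hM hP, hP.idem, hP.det, hP.flat⟩

end Pool.Agent.GH85

namespace Pool.Agent.Lib.GH

open Pool.Agent.Lib.SV (E)
open Pool.Agent.Lib.HS32 Pool.Agent.Lib.HS32.Mf Pool.Agent.GH85

theorem st_GPRD : St_GPRD := by
  intro n M h P k hM hP
  have hA : M.PA h P k := prod_herm mCHN mTR M hM (flat_fl hM hP) fun e he z hz i j l => by
    have := congrFun (hP.t2 e he z hz (Pi.single l 1) (Pi.single j 1)) i
    rw [tors_single, Matrix.mulVec_mulVec, Pi.zero_apply, sub_eq_zero] at this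
    simpa using this
  refine ⟨hA, clo_fl hM hP, fun e he z hz => ?_, fun e he z hz =>
    psd_compl (hM.pos e he z hz) (hP.herm e he z hz) (hP.idem e he z hz), ric_kill hM hP.en hA⟩
  have a : (P e z)ᴴ * h e z = h e z * P e z := by
    rw [← (hP.herm e he z hz).eq, Matrix.conjTranspose_mul, (hM.herm e he z hz).eq]
  have := (hM.pos e he z hz).posSemidef.conjTranspose_mul_mul_same (P e z)
  rw [a, Matrix.mul_assoc, hP.idem e he z hz] at this
  simpa using this

theorem st_GT1' : St_GT1 := by
  intro n M _ H h P k hH hM hP e he z hz a b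
  have c := ta_of (hM.sm e he z hz) (hP.en.sm e he z hz) (hM.det_ne e he z hz) (hP.par e he z hz)
    ((clo_herm M hH hM hP.toHolSA hP.flat).cl e he z hz)
  funext i
  simp only [tors, asy, Matrix.mulVec_sub, Matrix.mulVec_mulVec, Matrix.mul_sum, Matrix.mul_smul,
    Pi.sub_apply, Pi.zero_apply, sub_eq_zero]
  simp only [Matrix.mulVec, dotProduct, Matrix.sum_apply, Matrix.smul_apply, smul_eq_mul,
    Finset.sum_mul]
  rw [Finset.sum_comm]
  exact Finset.sum_congr rfl fun j _ => Finset.sum_congr rfl fun l _ => by rw [c i l j]; ring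

theorem st_GUT' : St_GUT := fun n M _ _ _ _ u hM hP hA hu hK hD =>
  kill ((mHES n M).1 u hu).toTen hP.en hA fun e he _ hz =>
    hess_pr e.open_target (ut hM hP.en hA hu hK.toMet hD e he) hz

theorem st_GPOS' : St_GPOS := by
  intro n M _ h P k u hM hP _ hu hK hD k1
  have r1 := ((mHES n M).2.2.2.2.2.2.2.2.2 _ h hK.toMet hM).2
  simp only [hD, Real.log_exp] at r1
  set G := h * P + M.theta h u with hGd
  have s0 : M.Sm fun _ => (0 : ℝ) := sm_const 0
  have c0 : ∀ c : ℝ, M.All fun e z => M.hs (fun _ => c) e z = 0 := fun c e he z hz =>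
    ((mLAP n M _ _ s0 s0).1 c e he z hz).1
  have k3 : M.All fun e z => G e z * P e z = h e z * P e z := fun e he z hz => by
    simp only [hGd, Pi.add_apply, Pi.mul_apply]
    rw [Matrix.add_mul, k1 e he z hz, Matrix.mul_assoc, hP.idem e he z hz, add_zero]
  have hF := flat_of hM hK.toMet (flat_fl hM hP) k3
  have t1 : M.All fun e z => M.theta G (fun _ => 0) e z = -M.ric G e z := fun e he z hz => by
    simp only [theta, Pi.sub_apply]
    rw [c0 0 e he z hz, zero_sub]
  have t2 : M.All fun e z => M.theta G (fun _ => 0) e z = G e z - G e z * P e z :=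
    fun e he z hz => by
      beta_reduce
      rw [t1 e he z hz, r1 e he z hz, k3 e he z hz]
      simp only [hGd, theta, Pi.add_apply, Pi.sub_apply, Pi.mul_apply, add_sub_cancel_left, neg_sub]
  have t3 : M.Le 0 (M.theta G fun _ => 0) := fun e he z hz => by
    beta_reduce
    rw [t2 e he z hz, Pi.zero_apply, Pi.zero_apply, sub_zero]
    exact psd_compl (hK.pos e he z hz) (hF.herm e he z hz) (hF.idem e he z hz)
  have t4 : M.Clo (M.theta G fun _ => 0) :=
    ((mHES n M).1 _ s0).sub ((mHES n M).2.2.2.2.2.2.2.2.1 G hK.toMet)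
  have t5 : M.Kae (G + M.theta G fun _ => 0) := ⟨hK.toClo.add t4, fun e he z hz =>
    (hK.pos e he z hz).add_posSemidef (by simpa using t3 e he z hz)⟩
  have t6 : M.dq G (G + M.theta G fun _ => 0) = fun _ => 2 ^ n * (1 + -(1 / 2)) ^ k := by
    funext x
    have a1 := t2.ch x
    have a2 := (hF.det (-(1 / 2))).ch x
    have a3 := hK.toMet.ev_det x
    simp only [dq, ev, Pi.add_apply] at a3 ⊢
    rw [a1, show ∀ A B : HS32.Mat n, A + (A - A * B) = A * ((2 : ℂ) • (1 + (-(1 / 2) : ℝ) • B)) from
      fun A B => by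
        rw [Matrix.mul_smul, Matrix.mul_add, Matrix.mul_smul, Matrix.mul_one,
          ← Complex.coe_smul]
        push_cast
        module, Matrix.det_mul, Matrix.det_smul, a2, mul_div_cancel_left₀ _ a3, Fintype.card_fin]
    norm_cast
  refine ⟨G + M.theta G fun _ => 0, hK, t5, s0, hF,
    Pool.Agent.HS85.st_PROD mCHN mTR n M G P k hK hF, fun e he z hz => ?_,
    fun e _ z _ i _ => dz_const _, fun e he z hz => ?_, hK.toMet.congr fun e he z hz => ?_, t3,
    1, one_pos, fun e he z hz => by simp only [one_smul, Pi.add_apply]⟩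
  · beta_reduce
    rw [((mHES n M).2.2.2.2.2.2.2.2.2 _ G t5.toMet hK.toMet).2 e he z hz, t6, c0 _ e he z hz,
      t1 e he z hz, sub_zero, neg_neg]
  · beta_reduce
    rw [t2 e he z hz, Matrix.sub_mul, Matrix.mul_assoc, hF.idem e he z hz, sub_self]
  · simp only [Pi.add_apply, Pi.mul_apply]
    rw [t2 e he z hz, sub_add_cancel]

end Pool.Agent.Lib.GH
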