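import Pool.Agent.Lib.GH.Blue
import Pool.Agent.Lib.HS32.MAll

/-! Project gh32: the diagonal sequence (row GSQ). -/

open scoped Classical Topology ContDiff ComplexOrder Matrix
open Set MeasureTheory Complex Metric Filter

noncomputable section

namespace Pool.Agent.Lib.GH

open Pool.Agent.Lib.HS32

namespace G6

variable {n : ℕ} {M : Mf n} {H : M.Fam (Mat n)} {ε : ℝ} {u f g p : M.X → ℝ}

theorem av_nn (hv : 0 < M.vol H ε) (hf : ∀ x, 0 ≤ f x) : 0 ≤ M.av H ε u f :=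
  div_nonneg (integral_nonneg fun x => mul_nonneg (hf x) (Real.exp_pos _).le) hv.le

theorem av_le [M.Cpt] (hH : M.Met H) (hv : 0 < M.vol H ε) (hu : M.Sm u) (hf : M.Sm f)
    (hg : M.Sm g) (hp : M.Sm p) (h : ∀ x, f x ≤ 2 * (g x - p x)) :
    M.av H ε u f ≤ 2 * (M.av H ε u g - M.av H ε u p) := by
  have hi : ∀ q : M.X → ℝ, M.Sm q → Integrable (fun x => q x * Real.exp (u x)) (M.mu H) :=
    fun q hq => (mMU n M H hH).2.2.2.2.1 ℝ _
      (hq.continuous.mul (Real.continuous_exp.comp hu.continuous))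
  unfold Mf.av
  rw [← sub_div, ← mul_div_assoc, ← integral_sub (hi g hg) (hi p hp), ← integral_const_mul]
  refine div_le_div_of_nonneg_right (integral_mono (hi f hf)
    (((hi g hg).sub (hi p hp)).const_mul 2) fun x => ?_) hv.le
  have := mul_le_mul_of_nonneg_right (h x) (Real.exp_pos (u x)).le
  simp only
  linarith

end G6

theorem st_GSQ (hVOL : HS.St_VOL) (hEX : St_GEX) (hUP : St_GUP) (hKEY : St_GKEY)
    (hSUM : St_GSUM) : St_GSQ := by
  intro n M _ H h hn hH hh hg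
  have hex := (hEX n M H h hn hH hh hg).1
  have hvol : ∀ ε : ℝ, 0 < ε → 0 < M.vol H ε := fun ε hε => by
    obtain ⟨u, hu⟩ := hex ε hε
    exact ((hVOL n M H hH).1 ε u hu).2.2.2.1
  obtain ⟨k, ho⟩ := (hVOL n M H hH).2 hvol
  obtain ⟨C, hC, hy1, hK⟩ := hKEY n M H h k hn hH hh hg ho
  have hp : ∀ j : ℕ, (0 : ℝ) < j + 1 := fun j => by positivity
  have hch : ∀ j : ℕ, ∃ ε : ℝ, ε ∈ Ioc (0 : ℝ) 1 ∧ (j + 1) * ε ≤ 1 / (j + 1) ∧
      (∀ u, M.Sol H ε u → M.av H ε u (M.tw (M.gE H ε u) h ((j + 1) * ε)) ≤ k + 1 / (j + 1)) ∧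
      (∀ u, M.Sol H ε u →
        M.av H ε u (M.tw (M.gE H ε u) h ((2 * (j + 1)) * ε)) ≤ k + 1 / (j + 1)) ∧
      ∀ u, M.Sol H ε u → ∀ t : ℝ, 0 < t → M.av H ε u (M.yw (M.gE H ε u) h (t * ε)) ≤
        M.av H ε u (M.tw (M.gE H ε u) h (t * ε)) - k + 1 / (j + 1) + C / t := fun j => by
    have hk : (0 : ℝ) < 1 / (j + 1) := one_div_pos.2 (hp j)
    have e1 : ∀ᶠ ε in 𝓝[>] (0 : ℝ), ε ∈ Ioc (0 : ℝ) 1 := Ioc_mem_nhdsGT one_pos
    have e2 : ∀ᶠ ε in 𝓝[>] (0 : ℝ), ε ∈ Ioc (0 : ℝ) (1 / (j + 1) / (j + 1)) :=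
      Ioc_mem_nhdsGT (div_pos hk (hp j))
    obtain ⟨ε, a1, a2, a3, a4, a5⟩ := (e1.and (e2.and ((hUP n M H h k hH hh ho _ _ (hp j) hk).and
      ((hUP n M H h k hH hh ho _ _ (mul_pos two_pos (hp j)) hk).and (hK _ hk))))).exists
    exact ⟨ε, a1, (le_div_iff₀' (hp j)).1 a2.2, a3, a4, a5⟩
  choose ε h1 h2 h3 h4 h5 using hch
  choose u hu using fun j => hex (ε j) (h1 j).1
  have hs : ∀ j : ℕ, (0 : ℝ) < (j + 1) * ε j := fun j => mul_pos (hp j) (h1 j).1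
  have hv : ∀ j, 0 < M.vol H (ε j) := fun j => hvol _ (h1 j).1
  have S := fun j => hSUM n M _ h _ (hu j).kae hh hg (hs j)
  have S2 := fun j => hSUM n M _ h _ (hu j).kae hh hg (mul_pos two_pos (hs j))
  have d0 : Tendsto (fun j : ℕ => 1 / ((j : ℝ) + 1)) atTop (𝓝 0) :=
    tendsto_one_div_add_atTop_nhds_zero_nat
  have dc : ∀ a b : ℝ, Tendsto (fun j : ℕ => a + b * (1 / ((j : ℝ) + 1))) atTop (𝓝 a) :=
    fun a b => by simpa using (d0.const_mul b).const_add a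
  have y0 : ∀ j : ℕ, 0 ≤ M.av H (ε j) (u j) (M.yw (M.gE H (ε j) (u j)) h ((j + 1) * ε j)) :=
    fun j => G6.av_nn (hv j) fun x => ((S j).2.2.2.2.2.2.2.1 x).1
  have y1 := fun j => h5 j (u j) (hu j) _ (hp j)
  have t1 := fun j => h3 j (u j) (hu j)
  have t2 := fun j => h4 j (u j) (hu j)
  have r1 := fun j => G6.av_le hH.toMet (hv j) (hu j).sm (S j).2.2.2.2.2.2.1
    (S2 j).2.2.2.2.2.1 (S j).2.2.2.2.2.1 fun x => ((S j).2.2.2.2.2.2.2.1 x).2.2.2.2.2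
  have cd : ∀ j : ℕ, C / ((j : ℝ) + 1) = C * (1 / (j + 1)) := fun j => by ring
  refine ⟨k, ε, fun j => (j + 1) * ε j, u, ho, h1, hs, hu,
    squeeze_zero (fun j => (hs j).le) h2 d0, squeeze_zero y0 (fun j => ?_) (dc 0 (2 + C)),
    tendsto_of_tendsto_of_tendsto_of_le_of_le (dc k (-(1 + C))) (dc k 1) (fun j => ?_)
      fun j => ?_,
    squeeze_zero (fun j => G6.av_nn (hv j) fun x => ((S j).2.2.2.2.2.2.2.1 x).2.2.2.1)
      (fun j => ?_) (dc 0 (2 * (2 + C))), fun j => hy1 _ (h1 j) _ (hu j)⟩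
  · have := y1 j
    have := t1 j
    have := cd j
    linarith
  · have := y1 j
    have := y0 j
    have := cd j
    simp only
    linarith
  · have := t1 j
    simp only
    linarith
  · have := y1 j
    have := y0 j
    have := cd j
    have := r1 j
    have a := t2 j
    rw [mul_assoc] at a
    linarith

end Pool.Agent.Lib.GH
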