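import Pool.Agent.Lib.GH.Blue
import Pool.Agent.Lib.HS32.MAll

/-! The curvature of a sum of two metrics, on the manifold. -/

open scoped Classical Topology ContDiff ComplexOrder Matrix
open Set MeasureTheory Complex Metric Filter

noncomputable section

namespace Pool.Agent.Lib.GH

open Pool.Agent.Lib.SV (E)
open Pool.Agent.Lib.HS32

namespace G50

theorem wmat_inv {n : ℕ} {G h : Mat n} {s : ℝ} (hh : h.PosDef) :
    wmat G h s * h⁻¹ = s • (G + s • h)⁻¹ := by
  rw [wmat, Matrix.mul_smul, Matrix.smul_mul, mul_assoc,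
    Matrix.mul_nonsing_inv _ (Mf.pd_det_ne hh).isUnit, mul_one]

end G50

theorem st_GSUM (h1 : St_GA1) (h2 : St_GA2) (h3 : St_GA3) (h4 : St_GSE) : St_GSUM := by
  intro n M G h s hG hh hg hs
  have a1 := fun (t : ℝ) (ht : 0 < t) (e : M.Ch) (he : e ∈ M.C) (z : E n) (hz : z ∈ e.target) =>
    h1 n (G e z) (h e z) t (hG.pos e he z hz) (hh.pos e he z hz) ht
  have key : ∀ t : ℝ, 0 < t → M.Met (G + t • h) := fun t ht =>
    ⟨hG.toForm.add (hh.toForm.smul t), fun e he z hz => (a1 t ht e he z hz).1⟩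
  have hm := key s hs
  have hsh : M.Met (s • h) := hh.smul hs
  obtain ⟨i1, -, i3, -, i5, -⟩ := mINV n M (G + s • h) hm
  obtain ⟨j1, -⟩ := mINV n M G hG.toMet
  obtain ⟨e1, -, -, -, -, -, -, -, e3, e4⟩ := mHES n M
  obtain ⟨sl, hl⟩ := e4 (G + s • h) G hm hG.toMet
  have sl' : M.Sm (M.ll G h s) := sl
  have tR := (e3 G hG.toMet).toTen
  have rtw : ∀ t : ℝ, 0 < t → M.All fun e z =>
      M.tw G h t (e.symm z) = (wmat (G e z) (h e z) t).trace.re := fun t ht =>
    ((mINV n M _ (key t ht)).1 _ (hh.smul ht).toTen).1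
  have rrho : M.All fun e z => M.rho G h s (e.symm z) =
      (wmat (G e z) (h e z) s - wmat (G e z) (h e z) s * wmat (G e z) (h e z) s).trace.re := by
    intro e he z hz
    have a := rtw s hs e he z hz
    have b : M.ip (G + s • h) (s • h) (s • h) (e.symm z) = _ :=
      (i3 _ _ hsh.toTen hsh.toTen).1 e he z hz
    beta_reduce at a ⊢
    rw [Mf.rho, a, b, Matrix.trace_sub, sub_re]
    simp only [wmat, Pi.add_apply, Pi.smul_apply, mul_assoc]
  have ryw : M.All fun e z => M.yw G h s (e.symm z) =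
      ((G e z)⁻¹ * phf (h e) (wmat (G e z) (h e z) s) z).trace.re +
        (egr (G e z) (h e z) s fun k => df (G e) (h e) k z).re := by
    intro e he z hz
    have a : M.lap G (M.ll G h s) (e.symm z) = _ := (j1 _ (e1 _ sl').toTen).1 e he z hz
    have b : M.tr G (M.ric G) (e.symm z) = _ := (j1 _ tR).1 e he z hz
    have c : M.tr (G + s • h) (M.ric G) (e.symm z) = _ := (i1 _ tR).1 e he z hz
    have d : M.hs (M.ll G h s) e z =
        hess (ld fun w => G e w + s • h e w) z - hess (ld (G e)) z := by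
      have d1 : -hess (ld fun w => G e w + s • h e w) z =
          -hess (ld (G e)) z - M.hs (M.ll G h s) e z := hl e he z hz
      rw [← neg_neg (hess (ld fun w => G e w + s • h e w) z), d1]
      abel
    have f := congrArg re (h4 n (G e) (h e) s z hs (hG.sm e he z hz) (hh.sm e he z hz)
      ((hG.pos.and (hh.pos.and hG.cl)).ev he hz)).1
    rw [add_re, add_re, sub_re] at f
    beta_reduce at a b c ⊢
    rw [Mf.yw, a, b, c, d, f]
    simp only [Mf.ric, Pi.add_apply, Pi.smul_apply]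
    ring
  have hph : M.All fun e z => (phf (h e) (wmat (G e z) (h e z) s) z).PosSemidef := by
    intro e he z hz
    refine (h3 n (h e) z (hh.sm e he z hz) (hh.pos.ev he hz) (hg e he z hz)).1 _ ?_
    rw [G50.wmat_inv (hh.pos e he z hz)]
    exact Mf.psd_rsmul (a1 s hs e he z hz).1.inv.posSemidef hs.le
  have p1 : M.All fun e z => 0 ≤ ((G e z)⁻¹ * phf (h e) (wmat (G e z) (h e z) s) z).trace.re :=
    fun e he z hz => Mf.trace_inv_mul_nonneg (hG.pos e he z hz) (hph e he z hz)
  have p2 : M.All fun e z => 0 ≤ (egr (G e z) (h e z) s fun k => df (G e) (h e) k z).re :=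
    fun e he z hz => (h2 n _ _ s _ (hG.pos e he z hz) (hh.pos e he z hz) hs).1
  have stw : M.Sm (M.tw G h s) := (i1 _ hsh.toTen).2.1
  refine ⟨hm, i5 _ hsh.toTen, fun e he z hz => (a1 s hs e he z hz).2.1.isHermitian, sl',
    (j1 _ (e1 _ sl').toTen).2.1.sub ((j1 _ tR).2.1.sub (i1 _ tR).2.1), stw,
    stw.sub (i3 _ _ hsh.toTen hsh.toTen).2.1, fun x => ?_, fun e he z hz => ?_⟩
  · have a := Mf.AllOn.ch (rtw s hs) x
    have a' := Mf.AllOn.ch (rtw (2 * s) (by positivity)) x
    have b := Mf.AllOn.ch rrho x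
    have c := Mf.AllOn.ch ryw x
    rw [Mf.ch_symm] at a a' b c
    obtain ⟨-, -, -, -, -, q1, q2, q3, q4, q5, -⟩ := a1 s hs _ (Mf.ch_mem x) _ (Mf.ch_tgt x)
    rw [a, a', b, c]
    exact ⟨add_nonneg (Mf.AllOn.ch p1 x) (Mf.AllOn.ch p2 x), q1, q2, q3, q4, q5⟩
  · have c := ryw e he z hz
    have c1 := p1 e he z hz
    have c2 := p2 e he z hz
    beta_reduce at c c1 c2
    refine ⟨rtw s hs e he z hz, rrho e he z hz, hph e he z hz, ?_, ?_⟩
    · rw [c]; exact le_add_of_nonneg_right c2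
    · rw [c]; exact le_add_of_nonneg_left c1

end Pool.Agent.Lib.GH
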