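import Pool.Agent.Lib.GH.Blue
import Pool.Agent.Lib.HS32.MAll
import Pool.Agent.Lib.HS68.Fun
import Pool.Agent.Lib.HS76.Pt

/-! Project gh32: the component of the torsion in the flat directions vanishes. -/

open scoped Classical Topology ContDiff ComplexOrder Matrix
open Set MeasureTheory Complex Metric Filter Matrix

noncomputable section

namespace Pool.Agent.Lib.GH

open Pool.Agent.Lib.SV (E)
open Pool.Agent.Lib.HS32 Pool.Agent.Lib.HS76

namespace G32

variable {n : ℕ}

/-- Exchange of the form index and of the column index. -/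
def sw (X : Fin n → Mat n) (k : Fin n) : Mat n := Matrix.of fun q j => X j q k

theorem sw_mul (A : Mat n) (X : Fin n → Mat n) (k : Fin n) :
    sw (fun k => A * X k) k = A * sw X k := by
  ext q j
  simp only [sw, Matrix.of_apply, Matrix.mul_apply]

theorem ip3_entry (K : Mat n) (X T : Fin n → Mat n) : ip3 K K 1 X T =
    ∑ a : Fin n × Fin n, ∑ b : Fin n × Fin n, ∑ q,
      K a.1 b.1 * K a.2 b.2 * star (T b.1 q b.2) * X a.1 q a.2 := by
  simp only [ip3, Matrix.mul_one, Matrix.trace, Matrix.diag_apply, Matrix.mul_apply,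
    conjTranspose_apply, Fintype.sum_prod_type, Finset.mul_sum, Finset.sum_mul]
  refine Finset.sum_congr rfl fun k _ => Finset.sum_comm.trans (Finset.sum_congr rfl fun j _ =>
    Finset.sum_congr rfl fun l _ => Finset.sum_comm.trans (Finset.sum_congr rfl fun m _ =>
      Finset.sum_congr rfl fun q _ => by ring))

theorem ip3_sw (K : Mat n) (X : Fin n → Mat n) {T : Fin n → Mat n} (hT : ∀ k, sw T k = -T k) :
    ip3 K K 1 (sw X) T = -ip3 K K 1 X T := by
  rw [ip3_entry, ip3_entry, ← Finset.sum_neg_distrib, ← Equiv.sum_comp (Equiv.prodComm _ _)]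
  refine Finset.sum_congr rfl fun a _ => ?_
  rw [← Finset.sum_neg_distrib, ← Equiv.sum_comp (Equiv.prodComm _ _)]
  refine Finset.sum_congr rfl fun b _ => ?_
  rw [← Finset.sum_neg_distrib]
  refine Finset.sum_congr rfl fun q _ => ?_
  have e : T b.2 q b.1 = -T b.1 q b.2 := congrFun (congrFun (hT b.1) q) b.2
  simp only [Equiv.prodComm_apply, Prod.fst_swap, Prod.snd_swap, sw, Matrix.of_apply, e, star_neg]
  ring

theorem ip3_zero {K h : Mat n} (hK : K.PosDef) (hh : h.PosDef) {T : Fin n → Mat n}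
    (h0 : (ip3 K K h T T).re ≤ 0) (k : Fin n) : T k = 0 := by
  have one : (1 : Mat n).PosSemidef := PosSemidef.one
  have a := ip3_le one one one (le_tr_smul hK one le_rfl) (le_tr_smul hK one le_rfl)
    (le_tr_smul hh one le_rfl) T
  have b1 := tr_nonneg hK one
  have b2 := tr_nonneg hh one
  ext i j
  have c := (entry_le_ip3 T k i j).trans
    (a.trans (mul_nonpos_of_nonneg_of_nonpos (by positivity) h0))
  exact norm_eq_zero.1 (pow_eq_zero_iff two_ne_zero |>.1 (le_antisymm c (sq_nonneg _)))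

/-- The projected torsion. -/
def tt (h P : E n → Mat n) (l : Fin n) (z : E n) : Mat n :=
  P z * (gam h l z - sw (fun k => gam h k z) l)

/-- Its contraction with the degenerate form. -/
def be (H h P : E n → Mat n) (z : E n) : E n := fun l =>
  ((H z)⁻¹ * (tt h P l z)ᴴ * (h z * P z)).trace

variable {H h P : E n → Mat n} {z : E n}

theorem sw_tt (k : Fin n) : sw (fun l => tt h P l z) k = -tt h P k z := by
  ext q j
  simp only [tt, sw, Matrix.of_apply, Matrix.mul_apply, Matrix.sub_apply, Matrix.neg_apply,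
    ← Finset.sum_neg_distrib]
  exact Finset.sum_congr rfl fun _ _ => by ring

theorem sm_sw (hh : HS68.Loc h z) (l : Fin n) : SmM (fun w => sw (fun k => gam h k w) l) z :=
  fun q j => hh.smM_gam j q l

theorem sm_tt (hh : HS68.Loc h z) (hP : SmM P z) (l : Fin n) : SmM (tt h P l) z :=
  hP.mul ((hh.smM_gam l).sub (sm_sw hh l))

theorem sm_be (hH : HS68.Loc H z) (hh : HS68.Loc h z) (hP : SmM P z) (l : Fin n) :
    ContDiffAt ℝ ∞ (fun w => be H h P w l) z :=
  ((hH.smM_inv.mul (sm_tt hh hP l).ct).mul (hh.sm.mul hP)).trace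

theorem dMb_tt (hh : HS68.Loc h z) (hP : SmM P z) (h1 : ∀ l, dMb l P z = 0)
    (h2 : ∀ a b, P z * th h a b z = 0) (k l : Fin n) : dMb k (tt h P l) z = 0 := by
  have e : dMb k (fun w => sw (fun a => gam h a w) l) z = -sw (fun a => th h a k z) l := by
    ext q j
    simp only [sw, th, Matrix.neg_apply, Matrix.of_apply, neg_neg]
    rfl
  have e' : dMb k (gam h l) z = -th h l k z := by rw [th, neg_neg]
  have e2 : P z * sw (fun a => th h a k z) l = 0 := by
    rw [← sw_mul]
    ext q j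
    simp only [sw, h2, Matrix.of_apply, Matrix.zero_apply]
  rw [show tt h P l = fun w => P w * (gam h l w - sw (fun k => gam h k w) l) from rfl,
    dMb_mul hP ((hh.smM_gam l).sub (sm_sw hh l)), h1, dMb_sub (hh.smM_gam l) (sm_sw hh l), e, e',
    Matrix.zero_mul, Matrix.mul_sub, Matrix.mul_neg, Matrix.mul_neg, h2, e2]
  simp

theorem dv_eq (hH : HS68.Loc H z) (hK : HS68.Kl H z) (hh : HS68.Loc h z) (hP : SmM P z)
    (h1 : ∀ l, dMb l P z = 0) (h2 : ∀ a b, P z * th h a b z = 0)
    (h3 : ∀ i, dM i P z = P z * gam h i z - gam h i z * P z) :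
    dv (fun w => (H w).det • (H w)⁻¹ *ᵥ be H h P w) z / (H z).det =
      ip3 (H z)⁻¹ (H z)⁻¹ (h z) (fun l => tt h P l z) (fun l => tt h P l z) / 2 := by
  have d1 : ∀ k l, DifferentiableAt ℝ (fun w => (H w).det * (H w)⁻¹ k l) z :=
    fun k l => cd_diff (hH.sm.det.mul (hH.smM_inv k l))
  have d2 : ∀ l, DifferentiableAt ℝ (fun w => be H h P w l) z :=
    fun l => cd_diff (sm_be hH hh hP l)
  have e1 : ∀ k, dz k (fun w => ((H w).det • (H w)⁻¹ *ᵥ be H h P w) k) z =
      ∑ l, (dz k (fun w => (H w).det * (H w)⁻¹ k l) z * be H h P z l +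
        (H z).det * (H z)⁻¹ k l * dz k (fun w => be H h P w l) z) := fun k => by
    have e : (fun w => ((H w).det • (H w)⁻¹ *ᵥ be H h P w) k) =
        fun w => ∑ l, (H w).det * (H w)⁻¹ k l * be H h P w l := by
      funext w
      simp only [Pi.smul_apply, smul_eq_mul, mulVec, dotProduct, Finset.mul_sum, mul_assoc]
    rw [e, dz_sum fun l _ => (d1 k l).fun_mul (d2 l)]
    exact Finset.sum_congr rfl fun l _ => dz_mul (d1 k l) (d2 l)
  have e2 : ∀ k l, dz k (fun w => be H h P w l) z =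
      ((H z)⁻¹ * (tt h P l z)ᴴ * 1 * (h z * (P z * gam h k z))).trace -
      ((H z)⁻¹ * (tt h P l z)ᴴ * 1 * (h z * P z * gam H k z)).trace := fun k l => by
    have s1 := sm_tt hh hP l
    rw [show (fun w => be H h P w l) =
        fun w => ((H w)⁻¹ * (tt h P l w)ᴴ * (h w * P w)).trace from rfl,
      dz_trace ((hH.smM_inv.mul s1.ct).mul (hh.sm.mul hP)),
      dM_mul (hH.smM_inv.mul s1.ct) (hh.sm.mul hP), dM_mul hH.smM_inv s1.ct, dM_ct s1,
      dMb_tt hh hP h1 h2, dM_mul hh.sm hP, hH.dM_inv, hh.dM_eq, h3]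
    simp only [conjTranspose_zero, Matrix.mul_zero, add_zero, Matrix.mul_one, Matrix.neg_mul,
      Matrix.mul_sub, Matrix.mul_assoc, add_sub_cancel, trace_add, trace_neg]
    rw [trace_mul_comm (gam H k z)]
    simp only [Matrix.mul_assoc]
    ring
  have s0 := ip3_sw (H z)⁻¹ (fun k => h z * P z * gam H k z) (T := fun l => tt h P l z) sw_tt
  have s1 := ip3_sw (H z)⁻¹ (fun k => h z * (P z * gam h k z)) (T := fun l => tt h P l z) sw_tt
  have g0 : sw (fun k => h z * P z * gam H k z) = fun k => h z * P z * gam H k z := by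
    funext k
    rw [sw_mul]
    congr 1
    ext q j
    exact HS68.Loc.gam_symm hK q k j
  rw [g0] at s0
  have s2 : ip3 (H z)⁻¹ (H z)⁻¹ (h z) (fun l => tt h P l z) (fun l => tt h P l z) =
      ip3 (H z)⁻¹ (H z)⁻¹ 1 (fun k => h z * (P z * gam h k z)) (fun l => tt h P l z) -
      ip3 (H z)⁻¹ (H z)⁻¹ 1 (sw fun k => h z * (P z * gam h k z)) fun l => tt h P l z := by
    simp only [ip3, ← Finset.sum_sub_distrib, ← mul_sub, ← trace_sub, sw_mul,
      Matrix.mul_one, Matrix.mul_assoc]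
    rfl
  have e3 : dv (fun w => (H w).det • (H w)⁻¹ *ᵥ be H h P w) z = (H z).det *
      (ip3 (H z)⁻¹ (H z)⁻¹ 1 (fun k => h z * (P z * gam h k z)) (fun l => tt h P l z) -
      ip3 (H z)⁻¹ (H z)⁻¹ 1 (fun k => h z * P z * gam H k z) fun l => tt h P l z) := by
    simp only [dv, e1, Finset.sum_add_distrib]
    rw [Finset.sum_comm]
    simp only [← Finset.sum_mul, hH.div_cof hK, zero_mul, Finset.sum_const_zero, zero_add, e2, ip3,
      ← Finset.sum_sub_distrib, ← mul_sub, Finset.mul_sum, mul_assoc]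
  rw [e3, mul_div_cancel_left₀ _ hH.det_ne, s2, s1]
  linear_combination (-1 / 2 : ℂ) * s0

theorem mulVec_tors (a b : E n) : P z *ᵥ tors h z a b = (∑ k, a k • tt h P k z) *ᵥ b := by
  have e : (∑ k, b k • gam h k z) *ᵥ a = (∑ l, a l • sw (fun k => gam h k z) l) *ᵥ b := by
    ext q
    simp only [mulVec, dotProduct, Matrix.sum_apply, Matrix.smul_apply, smul_eq_mul, sw,
      Matrix.of_apply, Finset.sum_mul]
    exact Finset.sum_comm.trans (Finset.sum_congr rfl fun _ _ => Finset.sum_congr rfl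
      fun _ _ => by ring)
  rw [tors, asy, e, ← Matrix.sub_mulVec, Matrix.mulVec_mulVec, ← Finset.sum_sub_distrib,
    Matrix.mul_sum]
  simp only [tt, ← smul_sub, Matrix.mul_smul]

theorem sw_conj (A J : Mat n) (X : Fin n → Mat n) (l : Fin n) :
    sw (fun k => A * (∑ a, J a k • X a) * J) l = A * (∑ a, J a l • sw X a) * J := by
  simp only [Matrix.mul_assoc, sw_mul]
  congr 1
  ext q j
  simp only [sw, Matrix.of_apply, Matrix.mul_apply, Matrix.sum_apply, Matrix.smul_apply,
    smul_eq_mul, Finset.sum_mul]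
  exact Finset.sum_comm.trans (Finset.sum_congr rfl fun _ _ => Finset.sum_congr rfl
    fun _ _ => by ring)

theorem be_conj {J H h P H' h' P' : Mat n} (hJ : J.det ≠ 0) (e1 : H' = Jᴴ * H * J)
    (e2 : h' = Jᴴ * h * J) (e3 : J * P' = P * J) {T T' : Fin n → Mat n}
    (e4 : ∀ l, T' l = J⁻¹ * (∑ a, J a l • T a) * J) :
    J *ᵥ H'⁻¹ *ᵥ (fun l => (H'⁻¹ * (T' l)ᴴ * (h' * P')).trace) =
      H⁻¹ *ᵥ fun l => (H⁻¹ * (T l)ᴴ * (h * P)).trace := by
  have u : IsUnit J.det := hJ.isUnit
  have u' : IsUnit Jᴴ.det := by rwa [det_conjTranspose, isUnit_star]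
  have a : H'⁻¹ = J⁻¹ * (H⁻¹ * Jᴴ⁻¹) := by rw [e1, Matrix.mul_inv_rev, Matrix.mul_inv_rev]
  have b : (fun l => (H'⁻¹ * (T' l)ᴴ * (h' * P')).trace) =
      Jᴴ *ᵥ fun l => (H⁻¹ * (T l)ᴴ * (h * P)).trace := by
    funext l
    rw [a, e2, e4, Matrix.mul_assoc _ J, e3, conjTranspose_mul, conjTranspose_mul,
      conjTranspose_nonsing_inv]
    simp only [Matrix.mul_assoc, nonsing_inv_mul_cancel_left _ _ u']
    rw [trace_mul_comm]
    simp only [Matrix.mul_assoc, mul_nonsing_inv _ u, Matrix.mul_one, conjTranspose_sum,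
      conjTranspose_smul, Matrix.sum_mul, Matrix.mul_sum, Matrix.smul_mul, Matrix.mul_smul,
      trace_sum, trace_smul, smul_eq_mul, mulVec, dotProduct, conjTranspose_apply]
  rw [b, a]
  simp only [mulVec_mulVec, Matrix.mul_assoc, mul_nonsing_inv_cancel_left _ _ u,
    nonsing_inv_mul _ u', Matrix.mul_one]

end G32

open G32 in
theorem st_GT1 : St_GT1 := by
  intro n M _ H h P k hH hh hf
  have lH := fun e he z hz => HS68.met_loc (z := z) (e := e) hH.toMet he hz
  have lh := fun e he z hz => HS68.met_loc (z := z) (e := e) hh he hz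
  have hV : M.Vec fun e z => (H e z)⁻¹ *ᵥ be (H e) (h e) (P e) z := by
    refine ⟨fun e he z hz => (lH e he z hz).smM_inv.mulVec (contDiffAt_pi.2
      (sm_be (lH e he z hz) (lh e he z hz) (hf.en.sm e he z hz))), fun e he e' he' x hx hx' => ?_⟩
    obtain ⟨h1, h2, -, h3, -⟩ := (mTR n M).2.1 e he e' he' x hx hx'
    have hx0 : (e ∘ e'.symm) (e' x) = e x := by simp only [Function.comp, e'.left_inv hx']
    have l0 := lh e he _ (e.map_source hx)
    have g := ((mPB n (e ∘ e'.symm) (e' x) (h e) (h e') h1 h2 (hx0 ▸ l0.sm) (by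
      filter_upwards [h3] with w hw
      have h8 : h e' (e' (e'.symm w)) = _ := hh.cmp e he e' he' _ hw.2.1 hw.2.2.1
      rw [hw.2.2.2.2.2.1, hw.2.2.2.2.2.2] at h8
      exact h8)).2.2 (hx0 ▸ l0.det_ne)).1
    rw [hx0] at g
    have e3 : M.J e e' x * P e' (e' x) = P e (e x) * M.J e e' x := hf.en.cmp e he e' he' x hx hx'
    refine be_conj h2 (hH.cmp e he e' he' x hx hx') (hh.cmp e he e' he' x hx hx') e3 fun l => ?_
    have c : sw (fun k => dM k (jm (e ∘ e'.symm)) (e' x)) l = dM l (jm (e ∘ e'.symm)) (e' x) := by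
      ext q j
      exact (mCHN n _ _ h1).2.2.1 q l j
    have s : sw (fun k => gam (h e') k (e' x)) l = (M.J e e' x)⁻¹ *
        (∑ a, M.J e e' x a l • sw (fun k => gam (h e) k (e x)) a) * M.J e e' x +
        (M.J e e' x)⁻¹ * dM l (jm (e ∘ e'.symm)) (e' x) := by
      rw [← sw_conj, ← c, ← sw_mul]
      ext q j
      simp only [sw, g, Matrix.of_apply, Matrix.add_apply, Mf.J]
    have p : P e' (e' x) * (M.J e e' x)⁻¹ = (M.J e e' x)⁻¹ * P e (e x) := by
      rw [← nonsing_inv_mul_cancel_left _ (P e' (e' x)) h2.isUnit, e3, Matrix.mul_assoc,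
        mul_nonsing_inv_cancel_right _ _ h2.isUnit]
    rw [tt, s, g, ← Mf.J, add_sub_add_right_eq_sub, ← Matrix.sub_mul, ← Matrix.mul_sub,
      ← Finset.sum_sub_distrib, ← Matrix.mul_assoc, ← Matrix.mul_assoc, p, Matrix.mul_assoc _ (P e _),
      Matrix.mul_sum]
    simp only [tt, ← smul_sub, Matrix.mul_smul]
  obtain ⟨d1, d2, -⟩ := mDIV n M H hH.toMet
  obtain ⟨i1, i2, i3⟩ := d2 _ (d1 _ hV)
  obtain ⟨-, -, m1, -, m2, -⟩ := mMU n M H hH.toMet
  have r := fun e he z hz => (i1.rep e he z hz).trans (dv_eq (lH e he z hz)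
    (HS68.clo_kl hH.toClo he hz) (lh e he z hz) (hf.en.sm e he z hz) (hf.hol e he z hz)
    (hf.flat' e he z hz) (hf.par e he z hz))
  set f := M.ev fun e z => dv (fun w => (H e w).det • (H e w)⁻¹ *ᵥ be (H e) (h e) (P e) w) z /
    (H e z).det
  have c : Continuous fun x => (f x).re := i2.re.continuous
  have p : ∀ x, 0 ≤ (f x).re := fun x => by
    have := r _ (Mf.ch_mem x) _ (Mf.ch_tgt x)
    rw [Mf.ch_symm] at this
    rw [this, div_ofNat_re]
    have a := (hH.toMet.ev_pos x).inv.posSemidef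
    exact div_nonneg (ip3_nonneg a a (hh.ev_pos x).posSemidef _) zero_le_two
  have i4 : ∫ x, (f x).re ∂M.mu H = 0 := by
    have := integral_re (m2 ℂ f i2.continuous)
    rw [i3 ‹_›] at this
    exact this
  have z0 := (c.ae_eq_iff_eq (M.mu H) continuous_zero).1
    ((integral_eq_zero_iff_of_nonneg p (m2 ℝ _ c)).1 i4)
  intro e he z hz a b
  have q : (f (e.symm z)).re = 0 := congrFun z0 _
  rw [r e he z hz, div_ofNat_re] at q
  have t := ip3_zero (hH.pos e he z hz).inv (hh.pos e he z hz)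
    (T := fun l => tt (h e) (P e) l z) (by linarith)
  rw [mulVec_tors]
  simp [t]

end Pool.Agent.Lib.GH
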