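import Pool.Agent.Lib.GH.Blue
import Pool.Agent.Lib.HS32.MAll
import Pool.Agent.Lib.HS76.Mom

/-! Project gh32: upper bound for the mean of the trace of `W`. -/

open scoped Classical Topology ContDiff ComplexOrder Matrix
open Set MeasureTheory Complex Metric Filter

noncomputable section

namespace Pool.Agent.Lib.GH

open Pool.Agent.Lib.SV (E)
open Pool.Agent.Lib.HS32

namespace G12

theorem quot_re {n : ℕ} (A : Mat n) {G : Mat n} (hG : G.PosDef) :
    (A.det / G.det).re = A.det.re / G.det.re := by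
  conv_lhs => rw [← Mf.herm_det hG.isHermitian, Complex.div_ofReal_re]

/-- The pointwise inequality. -/
theorem pt (hA : St_GA1) {n : ℕ} {G h H : Mat n} {s T C c : ℝ} (hG : G.PosDef) (hh : h.PosDef)
    (hle : (C • H - h).PosSemidef) (hs : 0 < s) (hT : 1 ≤ T) (hc : 0 < c) :
    Real.log T * (wmat G h s).trace.re ≤
      c⁻¹ * ((G + (T * s * C) • H).det / G.det).re + (Real.log c - 1) := by
  have hTs : 0 < T * s := mul_pos (lt_of_lt_of_le one_pos hT) hs
  have h1 := (hA n G h s hG hh hs).2.2.2.2.2.2.2.2.2.2.1 T hT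
  have h2 : (G + (T * s) • h).PosDef := (hA n G h _ hG hh hTs).1
  have h3 : (G + (T * s * C) • H - (G + (T * s) • h)).PosSemidef := by
    have := Mf.psd_rsmul hle hTs.le
    rwa [smul_sub, smul_smul, ← add_sub_add_left_eq_sub _ _ G] at this
  have h4 := HS76.det_mono h2 h3
  have h5 := Mf.pd_det_re h2
  have h6 := Mf.pd_det_re hG
  rw [quot_re _ hG] at h1 ⊢
  set a := (G + (T * s) • h).det.re
  set b := (G + (T * s * C) • H).det.re
  set g := G.det.re
  have h7 : Real.log (a / g) ≤ Real.log (b / g) :=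
    Real.log_le_log (div_pos h5 h6) (div_le_div_of_nonneg_right h4 h6.le)
  have hb : 0 < b / g := div_pos (h5.trans_le h4) h6
  have h8 := Real.log_le_sub_one_of_pos (div_pos hb hc)
  rw [Real.log_div hb.ne' hc.ne', div_eq_inv_mul (b / g) c] at h8
  linarith

end G12

open G12 in
theorem st_GUP (hVOL : HS.St_VOL) (hA : St_GA1) : St_GUP := by
  intro n M _ H h k hH hh hO t κ ht hκ
  have hHm : M.Met H := hH.toMet
  obtain ⟨C, hC, hle, -⟩ := (mBD n M H hHm).1 h hh.toForm
  obtain ⟨-, c0, hc0, hlim⟩ := hO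
  have ha : 0 < t * C := mul_pos ht hC
  have hla : 0 ≤ Real.log (1 + t * C) := Real.log_nonneg (by linarith)
  set L : ℝ := (1 + k * Real.log (1 + t * C)) / κ with hL
  have hL0 : 0 < L := by positivity
  set T : ℝ := Real.exp L with hT
  have hT1 : 1 ≤ T := Real.one_le_exp hL0.le
  have hTa : 0 < T * (t * C) := by positivity
  set c : ℝ := (1 + T * (t * C)) ^ k with hc
  have hcp : 0 < c := by positivity
  have hlc : Real.log c + 1 ≤ (k + κ) * L := by
    have h1 : Real.log (1 + T * (t * C)) ≤ L + Real.log (1 + t * C) := by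
      rw [← Real.log_exp L, ← hT, ← Real.log_mul (by linarith) (by linarith)]
      exact Real.log_le_log (by linarith) (by linarith)
    have h2 : κ * L = 1 + k * Real.log (1 + t * C) := by rw [hL]; field_simp
    have h3 := mul_le_mul_of_nonneg_left h1 (Nat.cast_nonneg (α := ℝ) k)
    rw [hc, Real.log_pow]
    linarith
  have hr := (HS76.ord_ratio hc0 hlim (t := 1 + T * (t * C)) (by linarith)).eventually
    (gt_mem_nhds (show (1 + T * (t * C)) ^ k < 2 * c by linarith))
  filter_upwards [self_mem_nhdsWithin, hr] with ε hε hr u hS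
  have hε0 : (0 : ℝ) < ε := hε
  obtain ⟨hv1, -, hv3, hv4, hv5⟩ := (hVOL n M H hH).1 ε _ hS
  rw [Mf.av, ← hv5]
  set G := M.gE H ε u with hG
  have hGm : M.Met G := hS.kae.toMet
  obtain ⟨-, hfin, -, -, hint, -, -⟩ := mMU n M G hGm
  have hs : 0 < t * ε := mul_pos ht hε0
  have hF : ∀ s : ℝ, M.Form (G + s • H) := fun s => hGm.toForm.add (hHm.toForm.smul s)
  have hd : ∀ s : ℝ, ∫ x, M.dq G (G + s • H) x ∂M.mu G = M.vol H (ε + s) := fun s => by
    rw [((mMU n M H hHm).2.2.2.2.2.2 G hGm).2.1, ← hv1 s]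
    exact integral_congr_ae (Eventually.of_forall fun x =>
      (((mINV n M H hHm).2.2.2.2.2.2.2 G hGm).2.2.1 _ (hF s) x).symm)
  have hi : ∀ {f : M.X → ℝ}, M.Sm f → Integrable f (M.mu G) := fun hf => hint ℝ _ hf.continuous
  have hdi : ∀ s : ℝ, Integrable (M.dq G (G + s • H)) (M.mu G) := fun s =>
    hi ((mINV n M G hGm).1 _ (hF s).toTen).2.2.2.1
  have hM : M.Met (G + (t * ε) • h) :=
    ⟨hGm.toForm.add (hh.toForm.smul _), fun e he z hz =>
      (hA n _ _ _ (hGm.pos e he z hz) (hh.pos e he z hz) hs).1⟩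
  have hw : Integrable (M.tw G h (t * ε)) (M.mu G) :=
    hi ((mINV n M _ hM).1 _ (hh.toForm.smul _).toTen).2.1
  have hp : ∀ x, L * M.tw G h (t * ε) x ≤
      c⁻¹ * M.dq G (G + (T * (t * ε) * C) • H) x + (Real.log c - 1) := fun x => by
    have := pt hA (hGm.ev_pos x) (hh.ev_pos x) (H := M.ev H x) (hle.ch x) hs hT1 hcp
    rwa [hT, Real.log_exp] at this
  have h1 := integral_mono (hw.const_mul L) (((hdi _).const_mul c⁻¹).add (integrable_const _)) hp
  rw [integral_const_mul] at h1
  simp only [Pi.add_apply] at h1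
  rw [integral_add ((hdi _).const_mul _) (integrable_const _), integral_const_mul, hd,
    integral_const, smul_eq_mul, hv3,
    show ε + T * (t * ε) * C = (1 + T * (t * C)) * ε by ring] at h1
  rw [div_lt_iff₀ hv4] at hr
  have h2 : c⁻¹ * M.vol H ((1 + T * (t * C)) * ε) ≤ 2 * M.vol H ε := by
    rw [inv_mul_le_iff₀ hcp]
    linarith
  rw [div_le_iff₀ hv4]
  refine le_of_mul_le_mul_left ?_ hL0
  have h3 := mul_le_mul_of_nonneg_right hlc hv4.le
  linarith

end Pool.Agent.Lib.GH
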