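import Pool.Agent.Lib.GH.Blue
import Pool.Agent.Lib.HS32.MAll
import Pool.Agent.Lib.HS.B_UT

/-! Project gh32: the potential is constant along the flat directions. -/

open scoped Classical Topology ContDiff ComplexOrder Matrix
open Set MeasureTheory Complex Metric Filter

noncomputable section

namespace Pool.Agent.Lib.GH

open Pool.Agent.Lib.SV (E)
open Pool.Agent.Lib.HS32
open Pool.Agent.Lib.HS.UT

namespace G17

variable {n : ℕ} {U : Set (E n)} {z : E n}

/-- The linearized equation, with a constant twist. -/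
theorem linB (hU : IsOpen U) {H G : E n → Mat n} {u : E n → ℝ} {B : Mat n} {i : Fin n}
    (hH : ∀ w ∈ U, SmM H w ∧ (H w).PosDef ∧ dM i H w = 0)
    (hu : ∀ w ∈ U, ContDiffAt ℝ ∞ u w) (hG : ∀ w ∈ U, SmM G w ∧ (G w).PosDef)
    (he : ∀ w ∈ U, G w = B + hess (ld H) w + hess (fun w => (u w : ℂ)) w)
    (hd : ∀ w ∈ U, (G w).det.re = Real.exp (u w) * (H w).det.re) (hz : z ∈ U) :
    ((G z)⁻¹ * hess (dz i fun w => (u w : ℂ)) z).trace = dz i (fun w => (u w : ℂ)) z := by
  have cH := fun w (hw : w ∈ U) => (mCOF n H w (hH w hw).1).2.2.2.2.2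
    (mem_of_superset (hU.mem_nhds hw) fun v hv => (hH v hv).2.1)
  have cG := (mCOF n G z (hG z hz).1).2.2.2.2.2
    (mem_of_superset (hU.mem_nhds hz) fun v hv => (hG v hv).2)
  have h0 : ∀ w ∈ U, dz i (ld H) w = 0 := fun w hw => by
    rw [(cH w hw).2.2 i, gam, (hH w hw).2.2]; simp
  have huc : ∀ w ∈ U, ContDiffAt ℝ ∞ (fun w => (u w : ℂ)) w := fun w hw => cd_ofReal (hu w hw)
  have e1 : ld G =ᶠ[𝓝 z] fun w => (u w : ℂ) + ld H w := by
    filter_upwards [hU.mem_nhds hz] with w hw
    have hp : 0 < (H w).det.re := (Complex.pos_iff.1 (hH w hw).2.1.det_pos).1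
    rw [ld, ld, hd w hw, Real.log_mul (Real.exp_pos _).ne' hp.ne', Real.log_exp]
    simp
  have e2 : dM i G z = hess (dz i fun w => (u w : ℂ)) z := by
    have s1 : SmM (fun _ => B) z := smM_const B
    have s2 := smM_hess (cH z hz).1
    have s3 := smM_hess (huc z hz)
    rw [dM_congr (T := fun w => (B + hess (ld H) w) + hess (fun w => (u w : ℂ)) w)
        (mem_of_superset (hU.mem_nhds hz) he),
      dM_add (s1.add s2) s3, dM_add s1 s2, dM_const,
      dM_hess hU (fun w hw => (cH w hw).1) hz, dM_hess hU huc hz,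
      hess_congr (g := fun _ => 0) (mem_of_superset (hU.mem_nhds hz) h0)]
    simp
  rw [← e2, ← gam, ← cG.2.2 i, dz_congr e1, dz_add (cd_diff (huc z hz)) (cd_diff (cH z hz).1),
    h0 z hz, add_zero]

end G17

open G17 in
theorem st_GUT : St_GUT := by
  intro n M _ H P k u hM hP hA hsm hK hdet
  have hG : M.Met (H * P + M.theta H u) := hK.toMet
  have hd := ((mHES n M).2.1 u u hsm hsm).1
  have hT : M.Ten (H * P) := (mINV n M H hM).2.2.2.2.2.1 P hP.en
  obtain ⟨hr, hw, -⟩ := (mINV n M H hM).2.2.1 _ _ hT hd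
  set w := M.ip H (H * P) (M.ds u u)
  have huc : ∀ e ∈ M.C, ∀ z ∈ e.target, ContDiffAt ℝ ∞ (M.lc u e) z := fun e he z hz =>
    cd_ofReal (hsm e he z hz)
  have key : ∀ e, M.Prod H P k e → ∀ z ∈ e.target,
      (w (e.symm z) : ℂ) = ∑ i : Fin n with i.val < k,
        dz i (M.lc u e) z * star (dz i (M.lc u e) z) ∧
      w (e.symm z) = ∑ i : Fin n with i.val < k, normSq (dz i (M.lc u e) z) := by
    intro e he z hz
    have h2 : w (e.symm z) = ∑ i : Fin n with i.val < k, normSq (dz i (M.lc u e) z) := by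
      rw [hr e he.mem z hz]
      simp only [Pi.mul_apply, he.prj z hz]
      rw [tr_pr (hM.pos e he.mem z hz) (he.blk z hz), re_sum]
      refine Finset.sum_congr rfl fun i _ => ?_
      have := star_dz_ofReal (j := i) (cd_diff (huc e he.mem z hz))
      show (dzb i (M.lc u e) z * dz i (M.lc u e) z).re = _
      rw [show dzb i (M.lc u e) z = star (dz i (M.lc u e) z) from this.symm, mul_comm,
        Complex.star_def, Complex.mul_conj]
      simp
    refine ⟨?_, h2⟩
    rw [h2, ofReal_sum]
    exact Finset.sum_congr rfl fun i _ => by rw [Complex.star_def, Complex.mul_conj]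
  have hc : Continuous w := by
    refine continuous_iff_continuousAt.2 fun x => ?_
    obtain ⟨e, he, hx⟩ := M.cov x
    refine ((hw e he _ (e.map_source hx)).continuousAt.comp (e.continuousAt hx)).congr ?_
    filter_upwards [e.open_source.mem_nhds hx] with y hy
    simp [e.left_inv hy]
  obtain ⟨x₀, -, hx₀⟩ := isCompact_univ.exists_isMaxOn univ_nonempty hc.continuousOn
  have h0 : w x₀ ≤ 0 := by
    obtain ⟨e, he, hx⟩ := hA x₀
    have hz := e.map_source hx
    have hmax : IsLocalMax (w ∘ e.symm) (e x₀) := Eventually.of_forall fun y => by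
      simpa [e.left_inv hx] using hx₀ (mem_univ (e.symm y))
    have h1 := HS76.tr_nonneg (hG.pos e he.mem _ hz)
      (mMAXE n _ _ (hw e he.mem _ hz) hmax).1
    have h2 : ∀ i : Fin n, i.val < k → _ := fun i hi => one (hG.pos e he.mem _ hz)
      (cd_dz (huc e he.mem _ hz) i) (linB (B := pr k) (u := u ∘ e.symm) (H := H e) e.open_target
        (fun z hz => ⟨hM.sm e he.mem z hz, hM.pos e he.mem z hz, he.cst z hz i hi⟩)
        (hsm e he.mem) (fun z hz => ⟨hG.sm e he.mem z hz, hG.pos e he.mem z hz⟩)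
        (fun z hz => by
          have hb : H e z * P e z = pr k := by rw [he.prj z hz, he.blk z hz]
          simp only [Mf.theta, Mf.ric, Mf.hs, Pi.add_apply, Pi.mul_apply, Pi.sub_apply, hb,
            sub_neg_eq_add]
          rw [add_assoc, add_comm (hess (ld (H e)) z)]
          rfl)
        (fun z hz => by
          rw [(((mINV n M H hM).2.1 _ hG.toForm) e he.mem z hz).2.2, hdet]; rfl) hz)
    simp only [Function.comp_apply] at h1
    rw [hess_congr (g := fun z => ∑ i : Fin n with i.val < k,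
        dz i (M.lc u e) z * star (dz i (M.lc u e) z))
        (mem_of_superset (e.open_target.mem_nhds hz) fun z hz => (key e he z hz).1),
      hess_sum fun i _ => (cd_dz (huc e he.mem _ hz) i).mul (cd_star (cd_dz (huc e he.mem _ hz) i)),
      Matrix.mul_neg, Matrix.trace_neg, neg_re, Matrix.mul_sum, Matrix.trace_sum, re_sum] at h1
    have h3 := Finset.sum_le_sum (s := Finset.univ.filter fun i : Fin n => i.val < k)
      fun i hi => h2 i (Finset.mem_filter.1 hi).2
    have h4 := (key e he _ hz).2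
    rw [e.left_inv hx] at h4
    rw [← Finset.mul_sum, ← h4] at h3
    linarith
  have main : ∀ e, M.Prod H P k e → ∀ z ∈ e.target, ∀ i : Fin n, i.val < k →
      dz i (M.lc u e) z = 0 := by
    intro e he z hz i hi
    have h1 : w (e.symm z) ≤ 0 := (hx₀ (mem_univ _)).trans h0
    rw [(key e he z hz).2] at h1
    exact normSq_eq_zero.1 (le_antisymm ((Finset.single_le_sum
      (f := fun i => normSq (dz i (M.lc u e) z)) (fun _ _ => normSq_nonneg _)
      (Finset.mem_filter.2 ⟨Finset.mem_univ i, hi⟩)).trans h1) (normSq_nonneg _))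
  intro e' he' z hz
  obtain ⟨e, he, hx⟩ := hA (e'.symm z)
  have hy := e.map_source hx
  have h1 := ((mHES n M).1 u hsm).cmp e he.mem e' he' _ hx (e'.map_target hz)
  have h2 := hP.en.cmp e he.mem e' he' _ hx (e'.map_target hz)
  have h3 : M.hs u e (e (e'.symm z)) * pr k = 0 := by
    ext a b
    rw [pr, Matrix.mul_diagonal]
    by_cases hb : b.val < k
    · rw [show M.hs u e (e (e'.symm z)) a b = dzb a (fun _ => (0 : ℂ)) (e (e'.symm z)) from
        dzb_congr (mem_of_superset (e.open_target.mem_nhds hy) fun v hv => main e he v hv b hb)]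
      simp
    · simp [hb]
  simp only [e'.right_inv hz] at h1 h2
  rw [h1, Matrix.mul_assoc, h2, he.prj _ hy, ← Matrix.mul_assoc, Matrix.mul_assoc _ _ (pr k), h3]
  simp

end Pool.Agent.Lib.GH
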