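import Pool.Agent.Lib.GH.SDefs
import Pool.Agent.Lib.HS.Blue

/-! Project gh32: the objects. -/

open scoped Classical Topology ContDiff ComplexOrder Matrix
open Set MeasureTheory Complex Metric Filter

set_option linter.unusedVariables false

noncomputable section

namespace Pool.Agent.Lib.HS32

open Pool.Agent.Lib.SV (E)

section euc

variable {n : ℕ}

/-- The matrix `s (G + s h)⁻¹ h`. -/
def wmat (G h : Mat n) (s : ℝ) : Mat n := (G + s • h)⁻¹ * (s • h)

/-- The gradient term for a family `D` of matrices. -/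
def egr (G h : Mat n) (s : ℝ) (D : Fin n → Mat n) : ℂ :=
  ∑ k, ∑ l, G⁻¹ k l * (G * wmat G h s * D k * (G + s • h)⁻¹ * (D l)ᴴ).trace

/-- The form `- tr (A Θ)`. -/
def phf (h : E n → Mat n) (A : Mat n) (z : E n) : Mat n :=
  Matrix.of fun l k => -(A * th h k l z).trace

/-- The antisymmetric part of a family of matrices. -/
def asy (D : Fin n → Mat n) (a b : E n) : E n := (∑ k, a k • D k) *ᵥ b - (∑ k, b k • D k) *ᵥ a

/-- The torsion. -/
def tors (h : E n → Mat n) (z : E n) : E n → E n → E n := asy fun k => gam h k z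

end euc

/-- Convergence to zero in measure. -/
def Nl {X : Type} [MeasurableSpace X] (μ : Measure X) (a : ℕ → X → ℝ) : Prop :=
  ∀ η : ℝ, 0 < η → Tendsto (fun j => μ.real {x | η ≤ a j x}) atTop (𝓝 0)

/-- Boundedness in measure. -/
def Tg {X : Type} [MeasurableSpace X] (μ : Measure X) (b : ℕ → X → ℝ) : Prop :=
  ∀ η : ℝ, 0 < η → ∃ L : ℝ, ∀ j, μ.real {x | L ≤ b j x} ≤ η

namespace Mf

variable {n : ℕ} (M : Mf n)

/-- Non-positive curvature in the sense of Griffiths. -/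
def Grf (h : M.Fam (Mat n)) : Prop := M.All fun e z => ∀ a v, (rm (h e) z a a v v).re ≤ 0

/-- The field `s (G + s h)⁻¹ h`. -/
def ww (G h : M.Fam (Mat n)) (s : ℝ) : M.Fam (Mat n) := fun e z => wmat (G e z) (h e z) s

/-- Its trace. -/
def tw (G h : M.Fam (Mat n)) (s : ℝ) : M.X → ℝ := M.tr (G + s • h) (s • h)

/-- The trace of `W - W ^ 2`. -/
def rho (G h : M.Fam (Mat n)) (s : ℝ) (x : M.X) : ℝ :=
  M.tw G h s x - M.ip (G + s • h) (s • h) (s • h) x

/-- The function `log det (G + s h) - log det G`. -/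
def ll (G h : M.Fam (Mat n)) (s : ℝ) (x : M.X) : ℝ := Real.log (M.dq G (G + s • h) x)

/-- The sum of the gradient term and of the curvature term. -/
def yw (G h : M.Fam (Mat n)) (s : ℝ) (x : M.X) : ℝ :=
  M.lap G (M.ll G h s) x - (M.tr G (M.ric G) x - M.tr (G + s • h) (M.ric G) x)

/-- The mean value for the normalized volume of the solution `u`. -/
def av (H : M.Fam (Mat n)) (ε : ℝ) (u f : M.X → ℝ) : ℝ :=
  (∫ x, f x * Real.exp (u x) ∂M.mu H) / M.vol H ε

/-- The diagonal sequence. -/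
structure Sq (H h : M.Fam (Mat n)) (k : ℕ) (ε s : ℕ → ℝ) (u : ℕ → M.X → ℝ) : Prop where
  eps : ∀ j, ε j ∈ Ioc (0 : ℝ) 1
  pos : ∀ j, 0 < s j
  sol : ∀ j, M.Sol H (ε j) (u j)
  s0 : Tendsto s atTop (𝓝 0)
  y0 : Tendsto (fun j => M.av H (ε j) (u j) (M.yw (M.gE H (ε j) (u j)) h (s j))) atTop (𝓝 0)
  tk : Tendsto (fun j => M.av H (ε j) (u j) (M.tw (M.gE H (ε j) (u j)) h (s j))) atTop (𝓝 k)
  r0 : Tendsto (fun j => M.av H (ε j) (u j) (M.rho (M.gE H (ε j) (u j)) h (s j))) atTop (𝓝 0)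
  y1 : ∀ j, M.av H (ε j) (u j) (M.yw (M.gE H (ε j) (u j)) h 1) ≤ n

/-- The fields of the sequence. -/
def wsq (H h : M.Fam (Mat n)) (ε s : ℕ → ℝ) (u : ℕ → M.X → ℝ) (j : ℕ) : M.Fam (Mat n) :=
  M.ww (M.gE H (ε j) (u j)) h (s j)

/-- A parallel field of orthogonal projections of rank `k` with flat image, for a Hermitian
metric. -/
structure Fl0 (h P : M.Fam (Mat n)) (k : ℕ) : Prop extends M.HolSA h P where
  le : k ≤ n
  par : M.All fun e z => ∀ i, dM i (P e) z = P e z * gam (h e) i z - gam (h e) i z * P e z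
  idem : M.All fun e z => P e z * P e z = P e z
  det : ∀ s : ℝ, M.All fun e z => (1 + s • P e z).det = ((1 + s : ℝ) : ℂ) ^ k
  flat : M.All fun e z => ∀ a b, th (h e) a b z * P e z = 0
  flat' : M.All fun e z => ∀ a b, P e z * th (h e) a b z = 0

/-- The same, with the conditions on the torsion. -/
structure Fl1 (h P : M.Fam (Mat n)) (k : ℕ) : Prop extends M.Fl0 h P k where
  t1 : M.All fun e z => ∀ a b, P e z *ᵥ tors (h e) z a b = 0
  t2 : M.All fun e z => ∀ a b, tors (h e) z (P e z *ᵥ a) b = 0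

/-- The form `ε H + B - Ric H + hess u`. -/
def gB (H B : M.Fam (Mat n)) (ε : ℝ) (u : M.X → ℝ) : M.Fam (Mat n) :=
  ε • H + B - M.ric H + M.hs u

/-- `u` solves the twisted equation. -/
structure SolB (H B : M.Fam (Mat n)) (ε : ℝ) (u : M.X → ℝ) : Prop where
  sm : M.Sm u
  kae : M.Kae (M.gB H B ε u)
  det : ∀ x, M.dq H (M.gB H B ε u) x = Real.exp (u x)

end Mf

end Pool.Agent.Lib.HS32
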