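import Pool.Agent.Lib.HS.SDefs

/-! Definitions used in the statement: Hermitian and Kähler metrics, read in charts, and the
curvature tensor of the connection of Chern. -/

open scoped ContDiff Topology Matrix ComplexOrder

noncomputable section

namespace Pool.Agent.Lib.GH

open Pool.Agent.Lib.SV Pool.Agent.Lib.HS

variable {n : ℕ}

/-- The curvature tensor `R(a, conj a, v, conj v)` of the Hermitian metric `v ↦ v^* M v`. -/
def curv (M : E n → Mat n) (z a v : E n) : ℂ :=
  star v ⬝ᵥ (delb a M z * (M z)⁻¹ * del a M z - delb a (del a M) z) *ᵥ v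

variable {X : Type} [TopologicalSpace X] [ChartedSpace (E n) X]

/-- `h` is a smooth Hermitian metric. -/
structure Hermitian (h : X → Mat n) : Prop where
  pos : ∀ x, (h x).PosDef
  smooth : ∀ x i j, ContDiffAt ℝ ∞ (fun z => inChart h x z i j) (chartAt (E n) x x)

/-- `h` is a smooth Kähler metric. -/
structure Kaehler (h : X → Mat n) : Prop extends Hermitian h where
  closed : ∀ x v w, del v (inChart h x) (chartAt (E n) x x) *ᵥ w =
    del w (inChart h x) (chartAt (E n) x x) *ᵥ v

/-- The curvature tensor of `h` at `x`, in the preferred chart. -/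
def curvAt (h : X → Mat n) (x : X) (a v : E n) : ℝ :=
  (curv (inChart h x) (chartAt (E n) x x) a v).re

end Pool.Agent.Lib.GH
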